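import Mathlib

/-!
Codes of elements of the free algebra: two lists of nonempty words.
-/

namespace Pool.Agent.H.MP_7596fa_lc

/-- a nonempty word: first letter and the rest -/
abbrev Wd (X : Type*) : Type _ := X × List X

/-- a code: words with coefficient `1` and words with coefficient `-1` -/
abbrev Cd (X : Type*) : Type _ := List (Wd X) × List (Wd X)

section value

variable {X : Type*} (F : Type*) [Field F]

/-- the product of the letters of a nonempty word -/
noncomputable def wordVal (w : Wd X) : FreeAlgebra F X :=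
  FreeAlgebra.ι F w.1 * (w.2.map (FreeAlgebra.ι F)).prod

/-- the element given by a code -/
noncomputable def codeVal (P : Cd X) : FreeAlgebra F X :=
  (P.1.map (wordVal F)).sum - (P.2.map (wordVal F)).sum

/-- concatenation -/
def mulW (a b : Wd X) : Wd X := (a.1, a.2 ++ b.1 :: b.2)

theorem wordVal_mul (a b : Wd X) : wordVal F (mulW a b) = wordVal F a * wordVal F b := by
  simp [wordVal, mulW, mul_assoc]

/-- product of lists of words -/
def mulL (p q : List (Wd X)) : List (Wd X) := p.flatMap fun a => q.map fun b => mulW a b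

theorem sum_mulL (p q : List (Wd X)) :
    ((mulL p q).map (wordVal F)).sum = (p.map (wordVal F)).sum * (q.map (wordVal F)).sum := by
  induction p with
  | nil => simp [mulL]
  | cons a p ih =>
    have h : ((q.map fun b => mulW a b).map (wordVal F)).sum =
        wordVal F a * (q.map (wordVal F)).sum := by
      rw [List.map_map, ← List.sum_map_mul_left]
      congr 2
      funext b
      exact wordVal_mul F a b
    unfold mulL at ih ⊢
    rw [List.flatMap_cons, List.map_append, List.sum_append, h, ih, List.map_cons, List.sum_cons,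
      add_mul]

/-- product of codes -/
def mulC (P Q : Cd X) : Cd X :=
  (mulL P.1 Q.1 ++ mulL P.2 Q.2, mulL P.1 Q.2 ++ mulL P.2 Q.1)

theorem codeVal_mul (P Q : Cd X) : codeVal F (mulC P Q) = codeVal F P * codeVal F Q := by
  unfold codeVal mulC
  simp only [List.map_append, List.sum_append, sum_mulL]
  noncomm_ring

end value

section primrec

variable {X : Type*} [Primcodable X]

theorem primrec_mulW : Primrec₂ (mulW : Wd X → Wd X → Wd X) := by
  refine (Primrec.fst.comp Primrec.fst).pair ?_
  refine Primrec.list_append.comp (Primrec.snd.comp Primrec.fst) ?_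
  exact Primrec.list_cons.comp (Primrec.fst.comp Primrec.snd) (Primrec.snd.comp Primrec.snd)

theorem primrec_mulL : Primrec₂ (mulL : List (Wd X) → List (Wd X) → List (Wd X)) := by
  refine Primrec.list_flatMap Primrec.fst ?_
  refine Primrec.list_map (Primrec.snd.comp Primrec.fst) ?_
  exact primrec_mulW.comp (Primrec.snd.comp Primrec.fst) Primrec.snd

theorem primrec_mulC : Primrec₂ (mulC : Cd X → Cd X → Cd X) := by
  refine Primrec.pair ?_ ?_
  · refine Primrec.list_append.comp ?_ ?_
    · exact primrec_mulL.comp (Primrec.fst.comp Primrec.fst) (Primrec.fst.comp Primrec.snd)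
    · exact primrec_mulL.comp (Primrec.snd.comp Primrec.fst) (Primrec.snd.comp Primrec.snd)
  · refine Primrec.list_append.comp ?_ ?_
    · exact primrec_mulL.comp (Primrec.fst.comp Primrec.fst) (Primrec.snd.comp Primrec.snd)
    · exact primrec_mulL.comp (Primrec.snd.comp Primrec.fst) (Primrec.fst.comp Primrec.snd)

/-- code of `L * Y ^ N` -/
def powC (L Y : Cd X) (N : ℕ) : Cd X := Nat.rec L (fun _ P => mulC P Y) N

theorem primrec_powC (L Y : Cd X) : Primrec (powC L Y) := by
  refine Primrec.nat_rec₁ L ?_
  exact primrec_mulC.comp Primrec.snd (Primrec.const Y)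

end primrec

theorem codeVal_powC {X : Type*} (F : Type*) [Field F] (L Y : Cd X) (N : ℕ) :
    codeVal F (powC L Y N) = codeVal F L * codeVal F Y ^ N := by
  induction N with
  | zero => rw [pow_zero, mul_one]; rfl
  | succ N ih =>
    change codeVal F (mulC (powC L Y N) Y) = _
    rw [codeVal_mul, ih, pow_succ, mul_assoc]

section coded

variable {X : Type*} (F : Type*) [Field F]

/-- elements with a code -/
def Coded (g : FreeAlgebra F X) : Prop := ∃ P : Cd X, codeVal F P = g

theorem coded_ι (x : X) : Coded F (FreeAlgebra.ι F x) :=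
  ⟨([(x, [])], []), by simp [codeVal, wordVal]⟩

theorem coded_zero : Coded F (0 : FreeAlgebra F X) := ⟨([], []), by simp [codeVal]⟩

theorem coded_add {g h : FreeAlgebra F X} (hg : Coded F g) (hh : Coded F h) : Coded F (g + h) := by
  obtain ⟨P, rfl⟩ := hg
  obtain ⟨Q, rfl⟩ := hh
  refine ⟨(P.1 ++ Q.1, P.2 ++ Q.2), ?_⟩
  simp only [codeVal, List.map_append, List.sum_append]
  abel

theorem coded_neg {g : FreeAlgebra F X} (hg : Coded F g) : Coded F (-g) := by
  obtain ⟨P, rfl⟩ := hg
  exact ⟨(P.2, P.1), by simp [codeVal]⟩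

theorem coded_mul {g h : FreeAlgebra F X} (hg : Coded F g) (hh : Coded F h) : Coded F (g * h) := by
  obtain ⟨P, rfl⟩ := hg
  obtain ⟨Q, rfl⟩ := hh
  exact ⟨mulC P Q, codeVal_mul F P Q⟩

/-- the subring generated by the generators -/
def Zr : Subring (FreeAlgebra F X) := Subring.closure (Set.range (FreeAlgebra.ι F))

theorem coded_mul_Zr {g h : FreeAlgebra F X} (hh : h ∈ Zr F) (hg : Coded F g) :
    Coded F (g * h) ∧ Coded F (h * g) := by
  induction hh using Subring.closure_induction generalizing g with
  | mem x hx =>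
    obtain ⟨y, rfl⟩ := hx
    exact ⟨coded_mul F hg (coded_ι F y), coded_mul F (coded_ι F y) hg⟩
  | zero => rw [mul_zero, zero_mul]; exact ⟨coded_zero F, coded_zero F⟩
  | one => rw [mul_one, one_mul]; exact ⟨hg, hg⟩
  | add x y _ _ hx hy =>
    rw [mul_add, add_mul]
    exact ⟨coded_add F (hx hg).1 (hy hg).1, coded_add F (hx hg).2 (hy hg).2⟩
  | neg x _ hx =>
    rw [mul_neg, neg_mul]
    exact ⟨coded_neg F (hx hg).1, coded_neg F (hx hg).2⟩
  | mul x y _ _ hx hy =>
    refine ⟨?_, ?_⟩
    · rw [← mul_assoc]; exact (hy (hx hg).1).1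
    · rw [mul_assoc]; exact (hx (hy hg).2).2

theorem aeval_mem_Zr (x : X) (P : Polynomial ℤ) :
    Polynomial.aeval (FreeAlgebra.ι F x) (P.map (Int.castRingHom F)) ∈ Zr (X := X) F := by
  induction P using Polynomial.induction_on' with
  | add p q hp hq => rw [Polynomial.map_add, map_add]; exact (Zr F).add_mem hp hq
  | monomial n c =>
    rw [Polynomial.map_monomial, Polynomial.aeval_monomial]
    refine (Zr F).mul_mem ?_ ?_
    · rw [eq_intCast, map_intCast]
      exact intCast_mem _ c
    · exact (Zr F).pow_mem (Subring.subset_closure ⟨x, rfl⟩) n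

end coded

end Pool.Agent.H.MP_7596fa_lc
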