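import Pool.Agent.H.MP_7596fa_lc.Nil

/-!
Identities of matrix algebras.
-/

namespace Pool.Agent.H.MP_7596fa_lc

open Matrix

theorem stdPoly_eq_alt {R A : Type*} [CommRing R] [Ring A] [Algebra R A] (d : ℕ) (a : Fin d → A) :
    stdPoly d a =
      MultilinearMap.alternatization (MultilinearMap.mkPiAlgebraFin R d A) a := by
  rw [MultilinearMap.alternatization_apply]
  unfold stdPoly
  refine Finset.sum_congr rfl fun σ _ => ?_
  rw [Units.smul_def, MultilinearMap.domDomCongr_apply, MultilinearMap.mkPiAlgebraFin_apply]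

theorem stdPoly_matrix {C : Type*} [CommRing C] (m d : ℕ) (hd : m * m < d)
    (a : Fin d → Matrix (Fin m) (Fin m) C) : stdPoly d a = 0 := by
  rw [stdPoly_eq_alt (R := C)]
  have h : MultilinearMap.alternatization
      (MultilinearMap.mkPiAlgebraFin C d (Matrix (Fin m) (Fin m) C)) = 0 := by
    refine Module.Basis.ext_alternating (Matrix.stdBasis C (Fin m) (Fin m)) fun v hv => ?_
    exfalso
    have := Fintype.card_le_of_injective v hv
    simp at this
    omega
  rw [h]
  rfl

theorem map_stdPoly {A B : Type*} [Ring A] [Ring B] (φ : A →+* B) (d : ℕ) (a : Fin d → A) :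
    φ (stdPoly d a) = stdPoly d fun i => φ (a i) := by
  unfold stdPoly
  rw [map_sum]
  refine Finset.sum_congr rfl fun σ _ => ?_
  rw [map_zsmul, map_list_prod, List.map_ofFn]
  rfl

/-- generic matrices -/
noncomputable def genMat (F X : Type*) [Field F] (n : ℕ) :
    X → Matrix (Fin n) (Fin n) (MvPolynomial (X × Fin n × Fin n) F) :=
  fun x => Matrix.of fun i j => MvPolynomial.X (x, i, j)

theorem lift_spec {F X : Type*} [Field F] (n : ℕ) (g : FreeAlgebra F X) {C : Type*}
    [CommRing C] [Algebra F C] (b : X → Matrix (Fin n) (Fin n) C) :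
    FreeAlgebra.lift F b g = (MvPolynomial.aeval (R := F)
      (fun t : X × Fin n × Fin n => b t.1 t.2.1 t.2.2)).mapMatrix
        (FreeAlgebra.lift F (genMat F X n) g) := by
  rw [← AlgHom.comp_apply]
  congr 1
  ext x i j
  simp [genMat]

/-- identities over an infinite field hold over all commutative algebras -/
theorem ident_generic {F X : Type*} [Field F] [Infinite F] (n : ℕ) (g : FreeAlgebra F X)
    (h : ∀ a : X → Matrix (Fin n) (Fin n) F, FreeAlgebra.lift F a g = 0) {C : Type*} [CommRing C]
    [Algebra F C] (a : X → Matrix (Fin n) (Fin n) C) : FreeAlgebra.lift F a g = 0 := by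
  have h0 : FreeAlgebra.lift F (genMat F X n) g = 0 := by
    ext1 i j
    apply MvPolynomial.funext
    intro v
    have h1 := h fun x => Matrix.of fun i j => v (x, i, j)
    rw [lift_spec] at h1
    have h2 := congrFun (congrFun h1 i) j
    rw [Matrix.zero_apply] at h2
    rw [Matrix.zero_apply, map_zero, ← h2]
    rw [AlgHom.mapMatrix_apply, Matrix.map_apply, MvPolynomial.aeval_eq_eval]
    rfl
  rw [lift_spec, h0, map_zero]

/-- block embedding -/
def blockHom (F : Type*) [Field F] (n m : ℕ) :
    Matrix (Fin n) (Fin n) F × F →ₐ[F] Matrix (Fin n ⊕ Fin m) (Fin n ⊕ Fin m) F where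
  toFun p := Matrix.fromBlocks p.1 0 0 (p.2 • (1 : Matrix (Fin m) (Fin m) F))
  map_one' := by simp
  map_mul' p q := by
    rw [Matrix.fromBlocks_multiply]
    simp [smul_smul, mul_comm]
  map_zero' := by simp
  map_add' p q := by
    rw [Matrix.fromBlocks_add]
    simp [add_smul]
  commutes' r := by
    rw [Algebra.algebraMap_eq_smul_one, Algebra.algebraMap_eq_smul_one, ← Matrix.fromBlocks_one,
      Matrix.fromBlocks_smul]
    simp

/-- identities of `M_n` are identities of `M_m` for `m ≤ n` -/
theorem ident_mono {F X : Type*} [Field F] {n m : ℕ} (hmn : m ≤ n) (g : FreeAlgebra F X)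
    (h : ∀ a : X → Matrix (Fin n) (Fin n) F, FreeAlgebra.lift F a g = 0)
    (a : X → Matrix (Fin m) (Fin m) F) : FreeAlgebra.lift F a g = 0 := by
  obtain ⟨k, rfl⟩ := Nat.exists_eq_add_of_le hmn
  have h1 := h fun x => Matrix.reindexAlgEquiv F F finSumFinEquiv (blockHom F m k (a x, 0))
  have h2 : FreeAlgebra.lift F
      (fun x => Matrix.reindexAlgEquiv F F finSumFinEquiv (blockHom F m k (a x, 0))) g =
      Matrix.reindexAlgEquiv F F finSumFinEquiv (blockHom F m k
        (FreeAlgebra.lift F (fun x => (a x, (0 : F))) g)) := by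
    rw [← AlgEquiv.coe_toAlgHom, ← AlgHom.comp_apply, ← AlgHom.comp_apply]
    congr 1
    ext1
    funext x
    simp
  rw [h2] at h1
  have h3 : blockHom F m k (FreeAlgebra.lift F (fun x => (a x, (0 : F))) g) = 0 := by
    rwa [map_eq_zero_iff _ (AlgEquiv.injective _)] at h1
  have h4 : (FreeAlgebra.lift F (fun x => (a x, (0 : F))) g).1 = 0 := by
    have := congrArg Matrix.toBlocks₁₁ h3
    change Matrix.toBlocks₁₁ (Matrix.fromBlocks _ _ _ _) = _ at this
    rwa [Matrix.toBlocks_fromBlocks₁₁] at this
  have h5 : FreeAlgebra.lift F a g = (AlgHom.fst F (Matrix (Fin m) (Fin m) F) F)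
      (FreeAlgebra.lift F (fun x => (a x, (0 : F))) g) := by
    rw [← AlgHom.comp_apply]
    congr 1
    ext1
    funext x
    simp
  rw [h5]
  exact h4

end Pool.Agent.H.MP_7596fa_lc
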