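import Pool.Agent.H.MP_7596fa_lc.TestConc
import Pool.Agent.H.MP_7596fa_lc.Ident

/-!
The core equivalence: the test element belongs to the ideal iff the machine halts.
-/

namespace Pool.Agent.H.MP_7596fa_lc

namespace Mach

open TestData

variable (M : Mach) (F : Type*) [Field F] [CharZero F]

/-- the element `W` in the free algebra -/
noncomputable def fW (D : ℕ) (E : Fin 4 → Polynomial ℤ) : FreeAlgebra F M.Gen :=
  M.WW (FreeAlgebra.ι F) (idem F D E (FreeAlgebra.ι F M.gz))

theorem core (d D : ℕ) (hd : 0 < d) (hD : D ≠ 0) (E : Fin 4 → Polynomial ℤ)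
    (hE : ∀ i k : Fin 4, Pp F M.S k ^ (d * d) ∣
      (E i).map (Int.castRingHom F) - Polynomial.C (if i = k then (D : F) else 0))
    (I : Set (FreeAlgebra F M.Gen))
    (hI1 : stdPoly d (fun i => M.fW F D E ^ d * FreeAlgebra.ι F M.gz ^ (i : ℕ)) ∈
      TwoSidedIdeal.span (I ∪ {frel M F D E}))
    (hI2 : ∀ g ∈ I, (M.TD F).φ g = 0) (N : ℕ) :
    ftest M F D E N ∈ TwoSidedIdeal.span (I ∪ {frel M F D E}) ↔ M.Halts (M.q0, N) := by
  constructor
  · intro h
    by_contra hN
    exact test_not_mem (M.TD F) (d * d) D (Nat.mul_pos hd hd) hD E hE I hI2 N (M.TD_test F N hN) h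
  · intro hN
    set J := TwoSidedIdeal.span (I ∪ {frel M F D E}) with hJ
    let π : FreeAlgebra F M.Gen →ₐ[F] J.ringCon.Quotient :=
      { J.ringCon.mk' with commutes' := fun r => rfl }
    have hπ : ∀ x, π x = 0 ↔ x ∈ J := by
      intro x
      rw [TwoSidedIdeal.mem_iff]
      exact RingCon.eq _
    rw [← hπ]
    have h1 : π (ftest M F D E N) = M.test (fun g => π (FreeAlgebra.ι F g))
        (idem F D E (π (FreeAlgebra.ι F M.gz))) N := by
      have := map_test M π.toRingHom (FreeAlgebra.ι F) (idem F D E (FreeAlgebra.ι F M.gz)) N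
      change π _ = _ at this
      unfold ftest
      rw [this]
      congr 1
      funext i
      exact map_idem π D E _ i
    have h2 : π (frel M F D E) = M.relator (fun g => π (FreeAlgebra.ι F g))
        (idem F D E (π (FreeAlgebra.ι F M.gz))) := by
      have := map_relator M π.toRingHom (FreeAlgebra.ι F) (idem F D E (FreeAlgebra.ι F M.gz))
      change π _ = _ at this
      unfold frel
      rw [this]
      congr 1
      funext i
      exact map_idem π D E _ i
    have h3 : π (M.fW F D E) = M.WW (fun g => π (FreeAlgebra.ι F g))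
        (idem F D E (π (FreeAlgebra.ι F M.gz))) := by
      have := map_WW M π.toRingHom (FreeAlgebra.ι F) (idem F D E (FreeAlgebra.ι F M.gz))
      change π _ = _ at this
      unfold fW
      rw [this]
      congr 1
      funext i
      exact map_idem π D E _ i
    have h4 : π (frel M F D E) = 0 := by
      rw [hπ]
      exact TwoSidedIdeal.subset_span (Or.inr rfl)
    have h5 : π (stdPoly d (fun i => M.fW F D E ^ d * FreeAlgebra.ι F M.gz ^ (i : ℕ))) = 0 := by
      rw [hπ]
      exact hI1
    rw [h1]
    apply M.derivation (F := F) d D hD E hE _ _ _ N hN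
    · rw [← h2, h4]
    · rw [← h3]
      have := map_stdPoly π.toRingHom d
        (fun i => M.fW F D E ^ d * FreeAlgebra.ι F M.gz ^ (i : ℕ))
      change π _ = _ at this
      rw [h5] at this
      rw [this]
      have h6 : (fun i : Fin d => π (M.fW F D E) ^ d * π (FreeAlgebra.ι F M.gz) ^ (i : ℕ)) =
          fun i : Fin d => π.toRingHom (M.fW F D E ^ d * FreeAlgebra.ι F M.gz ^ (i : ℕ)) := by
        funext i
        change π _ ^ d * π _ ^ (i : ℕ) = π _
        rw [map_mul, map_pow, map_pow]
      rw [h6]

end Mach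

end Pool.Agent.H.MP_7596fa_lc
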