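import Pool.Agent.H.MP_7596fa_lc.Core
import Pool.Agent.H.MP_7596fa_lc.Codes

/-!
A multiple of the relator has integral coefficients and zero constant term.
-/

namespace Pool.Agent.H.MP_7596fa_lc

section

variable {X : Type*} (F : Type*) [Field F]

/-- some multiple is in the integral subring -/
def QZ (g : FreeAlgebra F X) : Prop := ∃ m : ℕ, m ≠ 0 ∧ (m : F) • g ∈ Zr (X := X) F

/-- some multiple has a code -/
def QC (g : FreeAlgebra F X) : Prop := ∃ m : ℕ, m ≠ 0 ∧ Coded F ((m : F) • g)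

theorem wordVal_mem (w : Wd X) : wordVal F w ∈ Zr (X := X) F := by
  unfold wordVal
  refine Subring.mul_mem _ (Subring.subset_closure ⟨_, rfl⟩) (Subring.list_prod_mem _ ?_)
  intro x hx
  obtain ⟨y, _, rfl⟩ := List.mem_map.mp hx
  exact Subring.subset_closure ⟨_, rfl⟩

theorem Coded.mem {g : FreeAlgebra F X} (h : Coded F g) : g ∈ Zr (X := X) F := by
  obtain ⟨P, rfl⟩ := h
  unfold codeVal
  refine Subring.sub_mem _ (Subring.list_sum_mem _ ?_) (Subring.list_sum_mem _ ?_) <;>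
  · intro x hx
    obtain ⟨y, _, rfl⟩ := List.mem_map.mp hx
    exact wordVal_mem F y

theorem QC.qz {g : FreeAlgebra F X} (h : QC F g) : QZ F g := by
  obtain ⟨m, hm, h⟩ := h
  exact ⟨m, hm, h.mem⟩

theorem Coded.qc {g : FreeAlgebra F X} (h : Coded F g) : QC F g :=
  ⟨1, one_ne_zero, by rwa [Nat.cast_one, one_smul]⟩

theorem qz_of_mem {g : FreeAlgebra F X} (h : g ∈ Zr (X := X) F) : QZ F g :=
  ⟨1, one_ne_zero, by rwa [Nat.cast_one, one_smul]⟩

theorem coded_nsmul {g : FreeAlgebra F X} (h : Coded F g) (m : ℕ) : Coded F ((m : F) • g) := by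
  induction m with
  | zero => rw [Nat.cast_zero, zero_smul]; exact coded_zero F
  | succ m ih => rw [Nat.cast_succ, add_smul, one_smul]; exact coded_add F ih h

theorem mem_nsmul {g : FreeAlgebra F X} (h : g ∈ Zr (X := X) F) (m : ℕ) :
    (m : F) • g ∈ Zr (X := X) F := by
  induction m with
  | zero => rw [Nat.cast_zero, zero_smul]; exact Subring.zero_mem _
  | succ m ih => rw [Nat.cast_succ, add_smul, one_smul]; exact Subring.add_mem _ ih h

theorem QC.add {g h : FreeAlgebra F X} (hg : QC F g) (hh : QC F h) : QC F (g + h) := by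
  obtain ⟨m, hm, hg⟩ := hg
  obtain ⟨n, hn, hh⟩ := hh
  refine ⟨m * n, Nat.mul_ne_zero hm hn, ?_⟩
  rw [Nat.cast_mul, smul_add]
  refine coded_add F ?_ ?_
  · rw [mul_comm, ← smul_smul]; exact coded_nsmul F hg n
  · rw [← smul_smul]; exact coded_nsmul F hh m

theorem QC.neg {g : FreeAlgebra F X} (hg : QC F g) : QC F (-g) := by
  obtain ⟨m, hm, hg⟩ := hg
  refine ⟨m, hm, ?_⟩
  rw [smul_neg]
  exact coded_neg F hg

theorem QC.sub {g h : FreeAlgebra F X} (hg : QC F g) (hh : QC F h) : QC F (g - h) := by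
  rw [sub_eq_add_neg]; exact hg.add F (hh.neg F)

theorem QC.zero : QC F (0 : FreeAlgebra F X) := (coded_zero F).qc

theorem QC.sum {ι : Type*} (s : Finset ι) (g : ι → FreeAlgebra F X) (h : ∀ i ∈ s, QC F (g i)) :
    QC F (∑ i ∈ s, g i) := by
  classical
  induction s using Finset.induction_on with
  | empty => exact QC.zero F
  | insert a s ha ih =>
    rw [Finset.sum_insert ha]
    exact (h a (Finset.mem_insert_self _ _)).add F
      (ih fun i hi => h i (Finset.mem_insert_of_mem hi))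

theorem QC.mul_qz {g h : FreeAlgebra F X} (hg : QC F g) (hh : QZ F h) : QC F (g * h) := by
  obtain ⟨m, hm, hg⟩ := hg
  obtain ⟨n, hn, hh⟩ := hh
  refine ⟨m * n, Nat.mul_ne_zero hm hn, ?_⟩
  rw [Nat.cast_mul, ← smul_mul_smul_comm]
  exact (coded_mul_Zr F hh hg).1

theorem QC.qz_mul {g h : FreeAlgebra F X} (hg : QC F g) (hh : QZ F h) : QC F (h * g) := by
  obtain ⟨m, hm, hg⟩ := hg
  obtain ⟨n, hn, hh⟩ := hh
  refine ⟨n * m, Nat.mul_ne_zero hn hm, ?_⟩
  rw [Nat.cast_mul, ← smul_mul_smul_comm]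
  exact (coded_mul_Zr F hh hg).2

theorem QC.mul {g h : FreeAlgebra F X} (hg : QC F g) (hh : QC F h) : QC F (g * h) :=
  hg.mul_qz F (hh.qz F)

theorem QZ.mul {g h : FreeAlgebra F X} (hg : QZ F g) (hh : QZ F h) : QZ F (g * h) := by
  obtain ⟨m, hm, hg⟩ := hg
  obtain ⟨n, hn, hh⟩ := hh
  refine ⟨m * n, Nat.mul_ne_zero hm hn, ?_⟩
  rw [Nat.cast_mul, ← smul_mul_smul_comm]
  exact Subring.mul_mem _ hg hh

theorem QZ.pow {g : FreeAlgebra F X} (hg : QZ F g) (n : ℕ) : QZ F (g ^ n) := by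
  induction n with
  | zero => rw [pow_zero]; exact qz_of_mem F (Subring.one_mem _)
  | succ n ih => rw [pow_succ]; exact ih.mul F hg

end

namespace Mach

variable (M : Mach) (F : Type*) [Field F]

theorem qz_idem {X : Type*} (e : M.Gen → X) (D : ℕ) (hD : (D : F) ≠ 0) (hD0 : D ≠ 0)
    (E : Fin 4 → Polynomial ℤ)
    (i : Fin 4) : QZ F (idem F D E (FreeAlgebra.ι F (e M.gz)) i) := by
  refine ⟨D, hD0, ?_⟩
  unfold idem
  rw [smul_smul, mul_inv_cancel₀ hD, one_smul]
  exact aeval_mem_Zr F (e M.gz) (E i)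

section

variable {X : Type*} (e : M.Gen → X) (ε : Fin 4 → FreeAlgebra F X) (hε : ∀ i, QZ F (ε i))

theorem qc_ι (x : X) : QC F (FreeAlgebra.ι F x) := (coded_ι F x).qc

include hε

theorem qc_sand (x : X) (i j : Fin 4) : QC F (ε i * FreeAlgebra.ι F x * ε j) :=
  ((qc_ι F x).qz_mul F (hε i)).mul_qz F (hε j)

theorem qc_rel (r : M.Rel) : QC F (M.rel (fun g => FreeAlgebra.ι F (e g)) ε r) := by
  have h : ∀ x i j, QC F (ε i * FreeAlgebra.ι F x * ε j) := fun x i j => qc_sand F ε hε x i j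
  rcases r with q | t | t | t | t | _ <;>
    simp only [rel, xx, yy, γγ, uu, uu', ww, ww', mm, vv]
  · exact ((h _ _ _).mul F (h _ _ _)).sub F ((h _ _ _).mul_qz F (((h _ _ _).qz F).pow F _))
  · exact ((h _ _ _).mul F ((h _ _ _).mul F (h _ _ _))).sub F
      (((h _ _ _).mul F (h _ _ _)).mul_qz F (((h _ _ _).qz F).pow F _))
  · exact ((h _ _ _).mul_qz F (((h _ _ _).qz F).pow F _)).sub F ((h _ _ _).mul F (h _ _ _))
  · exact ((h _ _ _).mul F (h _ _ _)).sub F
      (((h _ _ _).mul F (h _ _ _)).mul_qz F (((h _ _ _).qz F).pow F _))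
  · exact ((h _ _ _).mul F (h _ _ _)).sub F (h _ _ _)
  · exact h _ _ _

theorem qc_relator : QC F (M.relator (fun g => FreeAlgebra.ι F (e g)) ε) := by
  have h : ∀ x i j, QC F (ε i * FreeAlgebra.ι F x * ε j) := fun x i j => qc_sand F ε hε x i j
  set z : FreeAlgebra F X := FreeAlgebra.ι F (e M.gz) with hz
  have hzm : z ∈ Zr (X := X) F := Subring.subset_closure ⟨_, rfl⟩
  have h1m : ∀ n, QZ F ((z - 1) ^ n) := fun n => qz_of_mem F
    (Subring.pow_mem _ (Subring.sub_mem _ hzm (Subring.one_mem _)) n)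
  have h3m : ∀ n, QZ F ((z - 3) ^ n) := fun n => qz_of_mem F
    (Subring.pow_mem _ (Subring.sub_mem _ hzm (ofNat_mem _ 3)) n)
  have h2m : QZ F (z - 2) := qz_of_mem F (Subring.sub_mem _ hzm (ofNat_mem _ 2))
  have hzc : QC F z := qc_ι F _
  have hρ : QC F (M.rho (fun g => FreeAlgebra.ι F (e g)) ε) := by
    unfold rho
    refine QC.sum F _ _ fun s _ => ?_
    exact (((M.qc_rel F e ε hε _).qz_mul F (h1m _)).mul_qz F (h3m _))
  have hblk : ∀ i j, QC F (M.blk (fun g => FreeAlgebra.ι F (e g)) ε i j) := by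
    intro i j
    unfold blk
    split
    · exact qc_ι F _
    · exact qc_ι F _
    · exact (qc_ι F _).mul_qz F (h1m _)
    · exact (qc_ι F _).qz_mul F (h3m _)
    · exact hρ
    · simp only [uu, uu']
      exact (((qc_ι F _).mul_qz F (hε _)).mul_qz F (h1m _)).mul F ((h _ _ _).sub F (h _ _ _))
    · simp only [ww, ww']
      exact ((((h _ _ _).sub F (h _ _ _)).mul_qz F (h3m _)).mul_qz F (hε _)).mul F (qc_ι F _)
    · exact QC.zero F
  have hW : QC F (M.WW (fun g => FreeAlgebra.ι F (e g)) ε) := by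
    unfold WW
    exact QC.sum F _ _ fun i _ => QC.sum F _ _ fun j _ =>
      ((hblk i j).qz_mul F (hε i)).mul_qz F (hε j)
  have hp : QC F (M.pz (fun g => FreeAlgebra.ι F (e g))) := by
    unfold pz
    exact ((hzc.mul_qz F (h1m _)).mul_qz F h2m).mul_qz F (h3m _)
  unfold relator
  exact hp.sub F ((hzc.mul F hW).sub F (hW.mul F hzc))

end

end Mach

end Pool.Agent.H.MP_7596fa_lc
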