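import Mathlib

/-!
Collatz-type machines with finitely many states.
-/

namespace Pool.Agent.H.MP_7596fa_lc

/-- A machine: finitely many states, one register `N`; in state `q`, write `N = A m + j`
with `j < A`; the next state is `tgt q j` and the new register value is `b q j * m + c q j`. -/
structure Mach where
  nQ : ℕ
  A : ℕ
  hA : 0 < A
  tgt : Fin nQ → Fin A → Fin nQ
  b : Fin nQ → Fin A → ℕ
  c : Fin nQ → Fin A → ℕ
  q0 : Fin nQ
  qh : Fin nQ
  absorb : ∀ j, tgt qh j = qh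

namespace Mach

variable (M : Mach)

/-- one step -/
def step (s : Fin M.nQ × ℕ) : Fin M.nQ × ℕ :=
  let j : Fin M.A := ⟨s.2 % M.A, Nat.mod_lt _ M.hA⟩
  (M.tgt s.1 j, M.b s.1 j * (s.2 / M.A) + M.c s.1 j)

/-- the configuration reaches the halting state -/
def Halts (s : Fin M.nQ × ℕ) : Prop := ∃ t : ℕ, (M.step^[t] s).1 = M.qh

theorem step_eq (q : Fin M.nQ) (j : Fin M.A) (m : ℕ) :
    M.step (q, M.A * m + j) = (M.tgt q j, M.b q j * m + M.c q j) := by
  have h1 : (M.A * m + (j : ℕ)) % M.A = j := by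
    rw [Nat.mul_add_mod]; exact Nat.mod_eq_of_lt j.2
  have h2 : (M.A * m + (j : ℕ)) / M.A = m := by
    rw [Nat.mul_add_div M.hA, Nat.div_eq_of_lt j.2, add_zero]
  simp only [step, h1, h2]

theorem step_qh (N : ℕ) : (M.step (M.qh, N)).1 = M.qh := by
  simp [step, M.absorb]

theorem halts_step (s : Fin M.nQ × ℕ) : M.Halts (M.step s) ↔ M.Halts s := by
  constructor
  · rintro ⟨t, ht⟩
    exact ⟨t+1, by rwa [Function.iterate_succ_apply]⟩
  · rintro ⟨t, ht⟩
    refine ⟨t, ?_⟩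
    rw [← Function.iterate_succ_apply, Function.iterate_succ_apply']
    have h : M.step^[t] s = (M.qh, (M.step^[t] s).2) := by rw [← ht]
    rw [h]
    exact M.step_qh _

theorem halts_qh (N : ℕ) : M.Halts (M.qh, N) := ⟨0, rfl⟩

/-- the generators -/
abbrev Gen : Type := Fin 8 ⊕ Fin M.nQ ⊕ (Fin M.nQ × Fin M.A) ⊕ (Fin M.nQ × Fin M.A)

/-- indices of the packed relations -/
abbrev Rel : Type := Fin M.nQ ⊕ (Fin M.nQ × Fin M.A) ⊕ (Fin M.nQ × Fin M.A) ⊕
  (Fin M.nQ × Fin M.A) ⊕ (Fin M.nQ × Fin M.A) ⊕ Unit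

/-- number of packed relations -/
def S : ℕ := Fintype.card M.Rel

theorem S_pos : 0 < M.S := by
  unfold S
  exact Fintype.card_pos_iff.mpr ⟨Sum.inr (Sum.inr (Sum.inr (Sum.inr (Sum.inr ()))))⟩

/-- the generators, with names -/
def gz : M.Gen := Sum.inl 0
def gg : M.Gen := Sum.inl 1
def gL : M.Gen := Sum.inl 2
def gR : M.Gen := Sum.inl 3
def gu : M.Gen := Sum.inl 4
def gu' : M.Gen := Sum.inl 5
def gw : M.Gen := Sum.inl 6
def gw' : M.Gen := Sum.inl 7
def gγ (q : Fin M.nQ) : M.Gen := Sum.inr (Sum.inl q)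
def gm (t : Fin M.nQ × Fin M.A) : M.Gen := Sum.inr (Sum.inr (Sum.inl t))
def gv (t : Fin M.nQ × Fin M.A) : M.Gen := Sum.inr (Sum.inr (Sum.inr t))

section elements

variable {B : Type*} [Ring B] (a : M.Gen → B) (e : Fin 4 → B)

/-- the first counter -/
def xx : B := e 1 * a M.gg * e 1
/-- the second counter -/
def yy : B := e 3 * a M.gg * e 3
def γγ (q : Fin M.nQ) : B := e 1 * a (M.gγ q) * e 3
def uu : B := e 1 * a M.gu * e 2
def uu' : B := e 1 * a M.gu' * e 2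
def ww : B := e 2 * a M.gw * e 3
def ww' : B := e 2 * a M.gw' * e 3
def mm (t : Fin M.nQ × Fin M.A) : B := e 2 * a (M.gm t) * e 3
def vv (t : Fin M.nQ × Fin M.A) : B := e 1 * a (M.gv t) * e 2

/-- the packed relations -/
def rel : M.Rel → B
  | Sum.inl q => M.xx a e * M.γγ a e q - M.γγ a e q * M.yy a e ^ M.A
  | Sum.inr (Sum.inl t) =>
      M.xx a e * (M.uu a e * M.mm a e t) - M.uu a e * M.mm a e t * M.yy a e ^ M.b t.1 t.2
  | Sum.inr (Sum.inr (Sum.inl t)) =>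
      M.γγ a e t.1 * M.yy a e ^ (t.2 : ℕ) - M.vv a e t * M.ww a e
  | Sum.inr (Sum.inr (Sum.inr (Sum.inl t))) =>
      M.vv a e t * M.ww' a e - M.uu a e * M.mm a e t * M.yy a e ^ M.c t.1 t.2
  | Sum.inr (Sum.inr (Sum.inr (Sum.inr (Sum.inl t)))) =>
      M.uu' a e * M.mm a e t - M.γγ a e (M.tgt t.1 t.2)
  | Sum.inr (Sum.inr (Sum.inr (Sum.inr (Sum.inr _)))) => M.γγ a e M.qh

/-- the number of a relation -/
noncomputable def num : M.Rel ≃ Fin M.S := Fintype.equivFin M.Rel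

/-- the packed relation -/
noncomputable def rho : B :=
  ∑ s : Fin M.S, (a M.gz - 1) ^ (s : ℕ) * M.rel a e (M.num.symm s) *
    (a M.gz - 3) ^ (M.S - 1 - s)

/-- the blocks of `W` -/
noncomputable def blk : Fin 4 → Fin 4 → B
  | 1, 1 => a M.gg
  | 3, 3 => a M.gg
  | 0, 1 => a M.gL * (a M.gz - 1) ^ M.S
  | 3, 0 => (a M.gz - 3) ^ M.S * a M.gR
  | 1, 3 => M.rho a e
  | 0, 2 => a M.gL * e 1 * (a M.gz - 1) ^ (M.S - 1) * (M.uu a e - M.uu' a e)
  | 2, 0 => (M.ww a e - M.ww' a e) * (a M.gz - 3) ^ (M.S - 1) * e 3 * a M.gR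
  | _, _ => 0

/-- the element `W` -/
noncomputable def WW : B := ∑ i, ∑ j, e i * M.blk a e i j * e j

/-- the polynomial `p` evaluated at `z` -/
def pz : B := a M.gz * (a M.gz - 1) ^ M.S * (a M.gz - 2) * (a M.gz - 3) ^ M.S

/-- the relator -/
noncomputable def relator : B := M.pz a - (a M.gz * M.WW a e - M.WW a e * a M.gz)

/-- the test elements -/
def test (N : ℕ) : B :=
  (e 0 * a M.gL * e 1 * (a M.gz - 1) ^ (M.S - 1) * a (M.gγ M.q0) * e 3 * (a M.gz - 3) ^ (M.S - 1)) *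
    (a M.gg * e 3) ^ N * (a M.gR * e 0)

end elements

end Mach

end Pool.Agent.H.MP_7596fa_lc
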