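import Pool.Agent.H.MP_7596fa_lc.Search
import Pool.Agent.H.MP_7596fa_lc.Mach

/-!
From register programs to Collatz-type machines.
-/

namespace Pool.Agent.H.MP_7596fa_lc

open Function

/-- the primes used for the coding -/
noncomputable def pr (r : ℕ) : ℕ := Nat.nth Nat.Prime r

theorem pr_prime (r : ℕ) : (pr r).Prime := Nat.prime_nth_prime r

theorem pr_inj {r s : ℕ} (h : pr r = pr s) : r = s :=
  Nat.nth_injective Nat.infinite_setOfPred_prime h

/-- Goedel number of a state -/
noncomputable def enc (R : ℕ) (v : St) : ℕ := ∏ r ∈ Finset.range R, pr r ^ v r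

theorem pr_dvd_enc {R r : ℕ} (hr : r < R) (v : St) : pr r ∣ enc R v ↔ v r ≠ 0 := by
  constructor
  · intro h h0
    unfold enc at h
    rw [Prime.dvd_finsetProd_iff (pr_prime r).prime] at h
    obtain ⟨s, _, hs⟩ := h
    have h1 := (pr_prime r).dvd_of_dvd_pow hs
    have h2 := (Nat.prime_dvd_prime_iff_eq (pr_prime r) (pr_prime s)).mp h1
    have h3 := pr_inj h2
    subst h3
    rw [h0, pow_zero] at hs
    exact (pr_prime r).one_lt.ne' (Nat.dvd_one.mp hs)
  · intro h
    unfold enc
    exact (dvd_pow_self _ h).trans (Finset.dvd_prod_of_mem _ (Finset.mem_range.mpr hr))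

theorem enc_update {R r : ℕ} (hr : r < R) (v : St) (x : ℕ) :
    enc R (update v r x) * pr r ^ v r = enc R v * pr r ^ x := by
  unfold enc
  rw [← Finset.mul_prod_erase _ _ (Finset.mem_range.mpr hr),
    ← Finset.mul_prod_erase (Finset.range R) (fun s => pr s ^ v s) (Finset.mem_range.mpr hr)]
  have : ∏ s ∈ (Finset.range R).erase r, pr s ^ update v r x s =
      ∏ s ∈ (Finset.range R).erase r, pr s ^ v s := by
    refine Finset.prod_congr rfl fun s hs => ?_
    rw [update_of_ne (Finset.ne_of_mem_erase hs)]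
  rw [this, update_self]
  ring

theorem enc_inc {R r : ℕ} (hr : r < R) (v : St) : enc R (update v r (v r + 1)) = pr r * enc R v := by
  have h := enc_update hr v (v r + 1)
  rw [pow_succ, ← mul_assoc, mul_right_comm] at h
  have h2 := Nat.eq_of_mul_eq_mul_right (pow_pos (pr_prime r).pos _) h
  rw [h2, mul_comm]

theorem enc_dec {R r : ℕ} (hr : r < R) (v : St) (h0 : v r ≠ 0) :
    enc R (update v r (v r - 1)) = enc R v / pr r := by
  have h := enc_inc hr (update v r (v r - 1))
  rw [update_self, update_idem, Nat.sub_add_cancel (Nat.pos_of_ne_zero h0), update_eq_self] at h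
  rw [h, Nat.mul_div_cancel_left _ (pr_prime r).pos]

/-- all registers are below `R` -/
def Prog.bd (R : ℕ) : Prog → Prop
  | .skip => True
  | .inc r => r < R
  | .seq P Q => P.bd R ∧ Q.bd R
  | .loop r P => r < R ∧ P.bd R

theorem Prog.bd_mono {R R' : ℕ} (h : R ≤ R') (P : Prog) (hP : P.bd R) : P.bd R' := by
  induction P with
  | skip => trivial
  | inc r => exact lt_of_lt_of_le hP h
  | seq P Q ihP ihQ => exact ⟨ihP hP.1, ihQ hP.2⟩
  | loop r P ih => exact ⟨lt_of_lt_of_le hP.1 h, ih hP.2⟩

theorem Prog.exists_bd (P : Prog) : ∃ R, P.bd R := by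
  induction P with
  | skip => exact ⟨0, trivial⟩
  | inc r => exact ⟨r + 1, Nat.lt_succ_self r⟩
  | seq P Q ihP ihQ =>
    obtain ⟨R, hR⟩ := ihP
    obtain ⟨R', hR'⟩ := ihQ
    exact ⟨max R R', bd_mono (le_max_left _ _) _ hR, bd_mono (le_max_right _ _) _ hR'⟩
  | loop r P ih =>
    obtain ⟨R, hR⟩ := ih
    exact ⟨max R (r + 1), lt_of_lt_of_le (Nat.lt_succ_self r) (le_max_right _ _),
      bd_mono (le_max_left _ _) _ hR⟩

/-- continuations occurring in the run of a program -/
def cl : Prog → List Prog → Finset (List Prog)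
  | .skip, K => {Prog.skip :: K}
  | .inc r, K => {Prog.inc r :: K}
  | .seq P Q, K => insert (Prog.seq P Q :: K) (cl P (Q :: K) ∪ cl Q K)
  | .loop r P, K => insert (Prog.loop r P :: K) (cl P (Prog.loop r P :: K))

theorem self_mem_cl (P : Prog) (K : List Prog) : P :: K ∈ cl P K := by
  cases P <;> simp [cl]

theorem cl_bd (R : ℕ) (P : Prog) : ∀ K, P.bd R → (∀ Q ∈ K, Q.bd R) →
    ∀ L ∈ cl P K, ∀ Q ∈ L, Q.bd R := by
  induction P with
  | skip =>
    intro K hP hK L hL Q hQ
    rw [cl, Finset.mem_singleton] at hL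
    subst hL
    rcases List.mem_cons.mp hQ with rfl | hQ
    · exact hP
    · exact hK Q hQ
  | inc r =>
    intro K hP hK L hL Q hQ
    rw [cl, Finset.mem_singleton] at hL
    subst hL
    rcases List.mem_cons.mp hQ with rfl | hQ
    · exact hP
    · exact hK Q hQ
  | seq P1 P2 ih1 ih2 =>
    intro K hP hK L hL Q hQ
    rw [cl, Finset.mem_insert, Finset.mem_union] at hL
    rcases hL with rfl | hL | hL
    · rcases List.mem_cons.mp hQ with rfl | hQ
      · exact hP
      · exact hK Q hQ
    · refine ih1 (P2 :: K) hP.1 ?_ L hL Q hQ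
      intro Q' hQ'
      rcases List.mem_cons.mp hQ' with rfl | hQ'
      · exact hP.2
      · exact hK Q' hQ'
    · exact ih2 K hP.2 hK L hL Q hQ
  | loop r P ih =>
    intro K hP hK L hL Q hQ
    rw [cl, Finset.mem_insert] at hL
    rcases hL with rfl | hL
    · rcases List.mem_cons.mp hQ with rfl | hQ
      · exact hP
      · exact hK Q hQ
    · refine ih (Prog.loop r P :: K) hP.2 ?_ L hL Q hQ
      intro Q' hQ'
      rcases List.mem_cons.mp hQ' with rfl | hQ'
      · exact hP
      · exact hK Q' hQ'

/-- the next continuation, depending on a test -/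
def nxt : List Prog → (ℕ → Bool) → List Prog
  | [], _ => []
  | Prog.skip :: K, _ => K
  | Prog.inc _ :: K, _ => K
  | Prog.seq P Q :: K, _ => P :: Q :: K
  | Prog.loop r P :: K, t => if t r then P :: Prog.loop r P :: K else K

theorem cl_closed (P : Prog) : ∀ K t, ∀ L ∈ cl P K, nxt L t ∈ insert K (cl P K) := by
  induction P with
  | skip =>
    intro K t L hL
    rw [cl, Finset.mem_singleton] at hL
    subst hL
    exact Finset.mem_insert_self _ _
  | inc r =>
    intro K t L hL
    rw [cl, Finset.mem_singleton] at hL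
    subst hL
    exact Finset.mem_insert_self _ _
  | seq P1 P2 ih1 ih2 =>
    intro K t L hL
    rw [cl, Finset.mem_insert, Finset.mem_union] at hL
    rw [cl]
    rcases hL with rfl | hL | hL
    · have : P1 :: P2 :: K ∈ cl P1 (P2 :: K) := self_mem_cl _ _
      simp only [nxt, Finset.mem_insert, Finset.mem_union]
      tauto
    · have h1 := ih1 (P2 :: K) t L hL
      have h2 : P2 :: K ∈ cl P2 K := self_mem_cl _ _
      simp only [Finset.mem_insert, Finset.mem_union] at h1 ⊢
      rcases h1 with h1 | h1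
      · rw [h1]; tauto
      · tauto
    · have h1 := ih2 K t L hL
      simp only [Finset.mem_insert, Finset.mem_union] at h1 ⊢
      tauto
  | loop r P ih =>
    intro K t L hL
    rw [cl, Finset.mem_insert] at hL
    rw [cl]
    rcases hL with rfl | hL
    · have : P :: Prog.loop r P :: K ∈ cl P (Prog.loop r P :: K) := self_mem_cl _ _
      simp only [nxt, Finset.mem_insert]
      split_ifs
      · tauto
      · tauto
    · have h1 := ih (Prog.loop r P :: K) t L hL
      simp only [Finset.mem_insert] at h1 ⊢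
      tauto

/-- all states of the machine -/
def sts (P : Prog) : Finset (List Prog) := insert [] (cl P [])

theorem sts_closed (P : Prog) (t : ℕ → Bool) (L : List Prog) (hL : L ∈ sts P) : nxt L t ∈ sts P := by
  unfold sts at hL ⊢
  rw [Finset.mem_insert] at hL
  rcases hL with rfl | hL
  · exact Finset.mem_insert_self _ _
  · exact cl_closed P [] t L hL

/-- coefficients -/
noncomputable def bc (A : ℕ) : List Prog → ℕ → ℕ × ℕ
  | Prog.inc r :: _, j => (pr r * A, pr r * j)
  | Prog.loop r _ :: _, j => if pr r ∣ j then (A / pr r, j / pr r) else (A, j)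
  | _, j => (A, j)

/-- the modulus -/
noncomputable def modA (R : ℕ) : ℕ := ∏ r ∈ Finset.range R, pr r

theorem modA_pos (R : ℕ) : 0 < modA R := Finset.prod_pos fun r _ => (pr_prime r).pos

theorem pr_dvd_modA {R r : ℕ} (hr : r < R) : pr r ∣ modA R :=
  Finset.dvd_prod_of_mem _ (Finset.mem_range.mpr hr)

open Classical in
/-- the machine -/
noncomputable def theMach (P : Prog) (R : ℕ) : Mach where
  nQ := Fintype.card (sts P)
  A := modA R
  hA := modA_pos R
  tgt q j := Fintype.equivFin (sts P)
    ⟨nxt ((Fintype.equivFin (sts P)).symm q).1 (fun r => decide (pr r ∣ (j : ℕ))),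
      sts_closed P _ _ ((Fintype.equivFin (sts P)).symm q).2⟩
  b q j := (bc (modA R) ((Fintype.equivFin (sts P)).symm q).1 j).1
  c q j := (bc (modA R) ((Fintype.equivFin (sts P)).symm q).1 j).2
  q0 := Fintype.equivFin (sts P) ⟨[P], Finset.mem_insert_of_mem (self_mem_cl P [])⟩
  qh := Fintype.equivFin (sts P) ⟨[], Finset.mem_insert_self _ _⟩
  absorb j := by
    simp only [Equiv.symm_apply_apply]
    rfl

/-- a configuration of the machine -/
noncomputable def cfg (P : Prog) (R : ℕ) (L : List Prog) (hL : L ∈ sts P) (v : St) :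
    Fin (theMach P R).nQ × ℕ :=
  (Fintype.equivFin (sts P) ⟨L, hL⟩, enc R v)

theorem sstep_mem (P : Prog) (L : List Prog) (hL : L ∈ sts P) (v : St) :
    (sstep (L, v)).1 ∈ sts P := by
  have h := sts_closed P (fun r => decide (v r ≠ 0)) L hL
  rcases L with _ | ⟨Q, K⟩
  · exact h
  · rcases Q with _ | r | ⟨Q1, Q2⟩ | ⟨r, Q⟩
    · exact h
    · exact h
    · exact h
    · by_cases h0 : v r = 0
      · rw [sstep_zero h0]
        simpa [nxt, h0] using h
      · rw [sstep_succ h0]
        simpa [nxt, h0] using h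

theorem step_cfg (P : Prog) (R : ℕ) (hP : P.bd R) (L : List Prog) (hL : L ∈ sts P) (v : St) :
    (theMach P R).step (cfg P R L hL v) =
      cfg P R (sstep (L, v)).1 (sstep_mem P L hL v) (sstep (L, v)).2 := by
  set A := modA R with hA
  set j := enc R v % A with hj
  set m := enc R v / A with hm
  have hjm : enc R v = A * m + j := (Nat.div_add_mod _ _).symm
  have hL' : ∀ Q ∈ L, Q.bd R := by
    unfold sts at hL
    rw [Finset.mem_insert] at hL
    rcases hL with rfl | hL
    · intro Q hQ; simp at hQ
    · exact cl_bd R P [] hP (by intro Q hQ; simp at hQ) L hL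
  have hstep : (theMach P R).step (cfg P R L hL v) =
      (Fintype.equivFin (sts P) ⟨nxt L (fun r => decide (pr r ∣ j)), sts_closed P _ _ hL⟩,
        (bc A L j).1 * m + (bc A L j).2) := by
    unfold Mach.step cfg theMach
    simp only [Equiv.symm_apply_apply]
    rfl
  rw [hstep]
  unfold cfg
  rcases L with _ | ⟨Q, K⟩
  · change (_, A * m + j) = _
    rw [← hjm]
    rfl
  · have hQ := hL' Q (List.mem_cons_self)
    rcases Q with _ | r | ⟨Q1, Q2⟩ | ⟨r, Q⟩
    · change (_, A * m + j) = _
      rw [← hjm]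
      rfl
    · change (_, pr r * A * m + pr r * j) = (_, enc R (update v r (v r + 1)))
      rw [enc_inc hQ, hjm]
      congr 1
      ring
    · change (_, A * m + j) = _
      rw [← hjm]
      rfl
    · have hr : r < R := hQ.1
      have hd : pr r ∣ j ↔ v r ≠ 0 := by
        rw [← pr_dvd_enc hr v, hjm]
        exact (Nat.dvd_add_right ((pr_dvd_modA hr).mul_right m)).symm
      by_cases h0 : v r = 0
      · have hnd : ¬ pr r ∣ j := fun h => (hd.mp h) h0
        have e1 : bc A (Prog.loop r Q :: K) j = (A, j) := by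
          change (if pr r ∣ j then (A / pr r, j / pr r) else (A, j)) = _
          rw [if_neg hnd]
        rw [e1]
        simp only [sstep_zero h0]
        rw [← hjm]
        congr 3
        simp [nxt, hnd]
      · have hnd : pr r ∣ j := hd.mpr h0
        have e1 : bc A (Prog.loop r Q :: K) j = (A / pr r, j / pr r) := by
          change (if pr r ∣ j then (A / pr r, j / pr r) else (A, j)) = _
          rw [if_pos hnd]
        rw [e1]
        simp only [sstep_succ h0]
        have e2 : A / pr r * m + j / pr r = enc R (update v r (v r - 1)) := by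
          rw [enc_dec hr v h0, hjm]
          obtain ⟨A', hA'⟩ := pr_dvd_modA hr
          obtain ⟨j', hj'⟩ := hnd
          rw [← hA] at hA'
          rw [hA', hj', Nat.mul_div_cancel_left _ (pr_prime r).pos,
            Nat.mul_div_cancel_left _ (pr_prime r).pos, mul_assoc, ← mul_add,
            Nat.mul_div_cancel_left _ (pr_prime r).pos]
        rw [e2]
        congr 3
        simp [nxt, hnd]

theorem iter_cfg (P : Prog) (R : ℕ) (hP : P.bd R) (t : ℕ) : ∀ (L : List Prog) (hL : L ∈ sts P)
    (v : St), ∃ hL' : (sstep^[t] (L, v)).1 ∈ sts P, (theMach P R).step^[t] (cfg P R L hL v) =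
      cfg P R (sstep^[t] (L, v)).1 hL' (sstep^[t] (L, v)).2 := by
  induction t with
  | zero => exact fun L hL v => ⟨hL, rfl⟩
  | succ t ih =>
    intro L hL v
    obtain ⟨h1, h2⟩ := ih (sstep (L, v)).1 (sstep_mem P L hL v) (sstep (L, v)).2
    refine ⟨h1, ?_⟩
    rw [Function.iterate_succ_apply, step_cfg P R hP, h2]
    rfl

theorem halts_iff_haltsS (P : Prog) (R : ℕ) (hP : P.bd R) (v : St) :
    (theMach P R).Halts ((theMach P R).q0, enc R v) ↔ ∃ t, (sstep^[t] ([P], v)).1 = [] := by
  unfold Mach.Halts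
  refine exists_congr fun t => ?_
  obtain ⟨h1, h2⟩ := iter_cfg P R hP t [P] (Finset.mem_insert_of_mem (self_mem_cl P [])) v
  change ((theMach P R).step^[t] (cfg P R [P] _ v)).1 = _ ↔ _
  rw [h2]
  constructor
  · intro h
    have h3 : Fintype.equivFin (sts P) ⟨_, h1⟩ =
      Fintype.equivFin (sts P) ⟨[], Finset.mem_insert_self _ _⟩ := h
    have h4 := (Fintype.equivFin (sts P)).injective h3
    exact congrArg Subtype.val h4
  · intro h
    change Fintype.equivFin (sts P) ⟨_, h1⟩ =
      Fintype.equivFin (sts P) ⟨[], Finset.mem_insert_self _ _⟩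
    congr 1
    exact Subtype.ext h

theorem enc_zero (R : ℕ) : enc R (fun _ => 0) = 1 := by
  unfold enc
  simp

theorem enc_sst (R n : ℕ) (hR : 3 ≤ R) : enc R (sst n 0 1) = 2 ^ n * pr 2 := by
  have h : sst n 0 1 = update (update (fun _ => 0) 0 n) 2 1 := by
    funext r
    by_cases h2 : r = 2
    · subst h2; simp [sst]
    · by_cases h0 : r = 0
      · subst h0; simp [sst]
      · simp [sst, h0, h2]
  have h1 := enc_update (R := R) (r := 0) (by omega) (fun _ => 0) n
  have h2 := enc_update (R := R) (r := 2) (by omega) (update (fun _ => 0) 0 n) 1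
  rw [pow_zero, mul_one, enc_zero, one_mul] at h1
  rw [update_of_ne (by omega), pow_zero, mul_one, h1, pow_one] at h2
  have h3 : pr 0 = 2 := Nat.nth_prime_zero_eq_two
  rw [h, h2, h3]

/-- **Universality**: there is a machine whose halting problem is undecidable. -/
theorem exists_mach : ∃ (M : Mach) (c : ℕ),
    ¬ ComputablePred fun n : ℕ => M.Halts (M.q0, 2 ^ n * c) := by
  let g : ℕ → ℕ → ℕ := fun n k =>
    bif ((Nat.Partrec.Code.evaln k (Denumerable.ofNat Nat.Partrec.Code n)) 0).isSome then 1 else 0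
  have hg : Primrec₂ g := by
    refine Primrec.cond (Primrec.option_isSome.comp ?_) (Primrec.const 1) (Primrec.const 0)
    have h1 : Primrec fun a : ℕ × ℕ =>
        (((a.2, Denumerable.ofNat Nat.Partrec.Code a.1), 0) : (ℕ × Nat.Partrec.Code) × ℕ) :=
      (Primrec.snd.pair ((Primrec.ofNat _).comp Primrec.fst)).pair (Primrec.const 0)
    exact Nat.Partrec.Code.primrec_evaln.comp h1
  obtain ⟨body, hbody⟩ := exists_body g hg
  obtain ⟨R0, hR0⟩ := Prog.exists_bd (Prog.loop 2 body)
  let R := max R0 3
  have hR : (Prog.loop 2 body).bd R := Prog.bd_mono (le_max_left _ _) _ hR0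
  refine ⟨theMach (Prog.loop 2 body) R, pr 2, fun h => ?_⟩
  refine ComputablePred.halting_problem 0 ?_
  refine ComputablePred.computable_of_manyOneReducible ?_ h
  refine ⟨Encodable.encode, Computable.encode, fun c => ?_⟩
  change _ ↔ (theMach (Prog.loop 2 body) R).Halts
    ((theMach (Prog.loop 2 body) R).q0, 2 ^ (Encodable.encode c) * pr 2)
  rw [← enc_sst R _ (le_max_right _ _), halts_iff_haltsS _ _ hR]
  change _ ↔ HaltsS body _
  rw [haltsS_iff g body hbody]
  constructor
  · intro hd
    obtain ⟨x, hx⟩ := Part.dom_iff_mem.mp hd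
    obtain ⟨k, hk⟩ := Nat.Partrec.Code.evaln_complete.mp hx
    refine ⟨k, ?_⟩
    simp only [g, Denumerable.ofNat_encode]
    rw [Option.mem_def] at hk
    rw [hk]
    simp
  · rintro ⟨k, hk⟩
    rw [Part.dom_iff_mem]
    simp only [g, Denumerable.ofNat_encode] at hk
    rcases hx : Nat.Partrec.Code.evaln k c 0 with _ | x
    · rw [hx] at hk
      simp at hk
    · exact ⟨x, Nat.Partrec.Code.evaln_complete.mpr ⟨k, hx⟩⟩

end Pool.Agent.H.MP_7596fa_lc
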