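import Pool.Agent.H.MP_7596fa_lc.Core
import Pool.Agent.H.MP_7596fa_lc.RegMach
import Pool.Agent.H.MP_7596fa_lc.Integral

/-!
Assembly of the undecidability theorem.
-/

namespace Pool.Agent.H.MP_7596fa_lc

universe u

/-- renaming of the generators -/
noncomputable def tr (F : Type*) [Field F] {X Y : Type*} (e : X ≃ Y) :
    FreeAlgebra F X ≃ₐ[F] FreeAlgebra F Y :=
  AlgEquiv.ofAlgHom (FreeAlgebra.lift F fun x => FreeAlgebra.ι F (e x))
    (FreeAlgebra.lift F fun y => FreeAlgebra.ι F (e.symm y))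
    (by ext y; simp) (by ext x; simp)

theorem tr_ι (F : Type*) [Field F] {X Y : Type*} (e : X ≃ Y) (x : X) :
    tr F e (FreeAlgebra.ι F x) = FreeAlgebra.ι F (e x) := by
  change FreeAlgebra.lift F _ (FreeAlgebra.ι F x) = _
  rw [FreeAlgebra.lift_ι_apply]

theorem mem_span_of_map {A B : Type*} [Ring A] [Ring B] (Ψ : A ≃+* B) (S : Set B) (g : A) :
    Ψ g ∈ TwoSidedIdeal.span S ↔ g ∈ TwoSidedIdeal.span (Ψ ⁻¹' S) := by
  constructor
  · intro h
    have h1 : TwoSidedIdeal.span S ≤ (TwoSidedIdeal.span (Ψ ⁻¹' S)).comap Ψ.symm := by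
      rw [TwoSidedIdeal.span_le]
      intro s hs
      change s ∈ TwoSidedIdeal.comap _ _
      rw [TwoSidedIdeal.mem_comap]
      apply TwoSidedIdeal.subset_span
      change Ψ (Ψ.symm s) ∈ S
      rwa [RingEquiv.apply_symm_apply]
    have h2 := h1 h
    rw [TwoSidedIdeal.mem_comap] at h2
    rwa [RingEquiv.symm_apply_apply] at h2
  · intro h
    have h1 : TwoSidedIdeal.span (Ψ ⁻¹' S) ≤ (TwoSidedIdeal.span S).comap Ψ := by
      rw [TwoSidedIdeal.span_le]
      intro s hs
      change s ∈ TwoSidedIdeal.comap _ _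
      rw [TwoSidedIdeal.mem_comap]
      exact TwoSidedIdeal.subset_span hs
    have h2 := h1 h
    rwa [TwoSidedIdeal.mem_comap] at h2

namespace Mach

variable (M : Mach) (F : Type u) [Field F] [CharZero F]

/-- augmentation -/
noncomputable def aug (X : Type*) : FreeAlgebra F X →ₐ[F] F := FreeAlgebra.lift F fun _ => (0 : F)

omit [CharZero F] in
theorem relator_zero {B : Type*} [Ring B] (e : Fin 4 → B) : M.relator (fun _ => 0) e = 0 := by
  unfold relator pz
  simp

omit [CharZero F] in
theorem rel_zero {B : Type*} [Ring B] (e : Fin 4 → B) (r : M.Rel) :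
    M.rel (fun _ => 0) e r = 0 := by
  rcases r with q | t | t | t | t | _ <;> simp [rel, xx, yy, γγ, uu, uu', ww, ww', mm, vv]

omit [CharZero F] in
theorem WW_zero {B : Type*} [Ring B] (e : Fin 4 → B) : M.WW (fun _ => 0) e = 0 := by
  unfold WW
  refine Finset.sum_eq_zero fun i _ => Finset.sum_eq_zero fun j _ => ?_
  have h : M.blk (fun _ => 0) e i j = 0 := by
    have hρ : M.rho (fun _ => 0) e = 0 := by
      unfold rho
      refine Finset.sum_eq_zero fun s _ => ?_
      rw [rel_zero]; simp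
    unfold blk
    split <;> simp [hρ, uu, uu', ww, ww']
  rw [h]; simp

omit [CharZero F] in
theorem aug_frel (D : ℕ) (E : Fin 4 → Polynomial ℤ) :
    aug F M.Gen (TestData.frel M F D E) = 0 := by
  have h := map_relator M (aug F M.Gen).toRingHom (FreeAlgebra.ι F)
    (idem F D E (FreeAlgebra.ι F M.gz))
  change aug F M.Gen _ = _ at h
  unfold TestData.frel
  rw [h]
  have h2 : (fun g => (aug F M.Gen).toRingHom (FreeAlgebra.ι F g)) = fun _ => 0 := by
    funext g
    change FreeAlgebra.lift F _ (FreeAlgebra.ι F g) = _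
    rw [FreeAlgebra.lift_ι_apply]
  rw [h2]
  exact M.relator_zero _

omit [CharZero F] in
theorem aug_fW (D : ℕ) (E : Fin 4 → Polynomial ℤ) : aug F M.Gen (M.fW F D E) = 0 := by
  have h := map_WW M (aug F M.Gen).toRingHom (FreeAlgebra.ι F)
    (idem F D E (FreeAlgebra.ι F M.gz))
  change aug F M.Gen _ = _ at h
  unfold fW
  rw [h]
  have h2 : (fun g => (aug F M.Gen).toRingHom (FreeAlgebra.ι F g)) = fun _ => 0 := by
    funext g
    change FreeAlgebra.lift F _ (FreeAlgebra.ι F g) = _
    rw [FreeAlgebra.lift_ι_apply]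
  rw [h2]
  exact M.WW_zero _

/-- coded version of the test elements -/
theorem coded_test {X : Type*} (e : M.Gen → X) (D : ℕ) (hD : D ≠ 0) (E : Fin 4 → Polynomial ℤ) :
    ∃ PL PY PR : Cd X, ∀ N, codeVal F (mulC (powC PL PY N) PR) =
      (D : F) ^ (N + 4) • M.test (fun g => FreeAlgebra.ι F (e g))
        (idem F D E (FreeAlgebra.ι F (e M.gz))) N := by
  have hD' : (D : F) ≠ 0 := Nat.cast_ne_zero.mpr hD
  set z : FreeAlgebra F X := FreeAlgebra.ι F (e M.gz) with hz
  set A : Fin 4 → FreeAlgebra F X := fun i =>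
    Polynomial.aeval z ((E i).map (Int.castRingHom F)) with hA
  have hz' : z ∈ Zr (X := X) F := Subring.subset_closure ⟨_, rfl⟩
  have hAm : ∀ i, A i ∈ Zr (X := X) F := fun i => aeval_mem_Zr F (e M.gz) (E i)
  have h1m : ∀ n, (z - 1) ^ n ∈ Zr (X := X) F := fun n =>
    Subring.pow_mem _ (Subring.sub_mem _ hz' (Subring.one_mem _)) n
  have h3m : ∀ n, (z - 3) ^ n ∈ Zr (X := X) F := fun n =>
    Subring.pow_mem _ (Subring.sub_mem _ hz' (ofNat_mem _ 3)) n
  have cL : Coded F (A 0 * FreeAlgebra.ι F (e M.gL) * A 1 * (z - 1) ^ (M.S - 1) *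
      FreeAlgebra.ι F (e (M.gγ M.q0)) * A 3 * (z - 3) ^ (M.S - 1)) := by
    refine (coded_mul_Zr F (h3m _) (coded_mul_Zr F (hAm 3) (coded_mul F
      (coded_mul_Zr F (h1m _) (coded_mul_Zr F (hAm 1) (coded_mul_Zr F (hAm 0)
        (coded_ι F _)).2).1).1 (coded_ι F _))).1).1
  have cY : Coded F (FreeAlgebra.ι F (e M.gg) * A 3) := (coded_mul_Zr F (hAm 3) (coded_ι F _)).1
  have cR : Coded F (FreeAlgebra.ι F (e M.gR) * A 0) := (coded_mul_Zr F (hAm 0) (coded_ι F _)).1
  obtain ⟨PL, hPL⟩ := cL
  obtain ⟨PY, hPY⟩ := cY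
  obtain ⟨PR, hPR⟩ := cR
  refine ⟨PL, PY, PR, fun N => ?_⟩
  rw [codeVal_mul, codeVal_powC, hPL, hPY, hPR]
  have hi : ∀ i, idem F D E z i = (D : F)⁻¹ • A i := fun i => rfl
  unfold test
  simp only [hi, ← hz, smul_mul_assoc, mul_smul_comm, smul_smul, smul_pow]
  have hc' : ∀ c : F, c = 1 → ∀ v : FreeAlgebra F X, v = c • v := by
    rintro c rfl v; rw [one_smul]
  refine hc' _ ?_ _
  rw [pow_add, inv_pow]
  field_simp

end Mach

/-- The master theorem. -/
theorem master (F : Type u) [Field F] [CharZero F] (d : ℕ) (hd : 0 < d) :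
    ∃ (k : ℕ) (f : FreeAlgebra F (Fin k)), QC F f ∧
      ∀ I : Set (FreeAlgebra F (Fin k)),
        (∀ a : Fin d → FreeAlgebra F (Fin k),
          (∀ i, FreeAlgebra.lift F (fun _ => (0 : F)) (a i) = 0) →
            stdPoly d a ∈ TwoSidedIdeal.span I) →
        (∀ g ∈ I, ∀ (C : Type u) [CommRing C] [Algebra F C]
          (a : Fin k → Matrix (Fin 4) (Fin 4) C), FreeAlgebra.lift F a g = 0) →
        ¬ ComputablePred fun P : Cd (Fin k) => codeVal F P ∈ TwoSidedIdeal.span (I ∪ {f}) := by
  obtain ⟨M, c, hM⟩ := exists_mach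
  obtain ⟨D, E, hD, hE⟩ := exists_idem F M.S (d * d)
  let e : M.Gen ≃ Fin (Fintype.card M.Gen) := Fintype.equivFin M.Gen
  let Ψ := tr F e
  refine ⟨Fintype.card M.Gen, Ψ (Mach.TestData.frel M F D E), ?_, ?_⟩
  · have h1 : Ψ (Mach.TestData.frel M F D E) = M.relator (fun g => FreeAlgebra.ι F (e g))
        (idem F D E (FreeAlgebra.ι F (e M.gz))) := by
      have := M.map_relator Ψ.toAlgHom.toRingHom (FreeAlgebra.ι F)
        (idem F D E (FreeAlgebra.ι F M.gz))
      change Ψ _ = _ at this
      unfold Mach.TestData.frel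
      rw [this]
      congr 1
      · funext g
        exact tr_ι F e g
      · funext i
        have := map_idem Ψ.toAlgHom D E (FreeAlgebra.ι F M.gz) i
        refine this.trans ?_
        congr 1
        exact tr_ι F e M.gz
    rw [h1]
    exact M.qc_relator F e _ fun i => M.qz_idem F e D (Nat.cast_ne_zero.mpr hD) hD E i
  · intro I hI1 hI2 hcomp
    apply hM
    obtain ⟨PL, PY, PR, hP⟩ := M.coded_test F e D hD E
    have hred : ∀ N, codeVal F (mulC (powC PL PY N) PR) ∈
        TwoSidedIdeal.span (I ∪ {Ψ (Mach.TestData.frel M F D E)}) ↔ M.Halts (M.q0, N) := by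
      intro N
      have h1 : Ψ (Mach.TestData.ftest M F D E N) = M.test (fun g => FreeAlgebra.ι F (e g))
          (idem F D E (FreeAlgebra.ι F (e M.gz))) N := by
        have := M.map_test Ψ.toAlgHom.toRingHom (FreeAlgebra.ι F)
          (idem F D E (FreeAlgebra.ι F M.gz)) N
        change Ψ _ = _ at this
        unfold Mach.TestData.ftest
        rw [this]
        congr 1
        · funext g
          exact tr_ι F e g
        · funext i
          have := map_idem Ψ.toAlgHom D E (FreeAlgebra.ι F M.gz) i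
          refine this.trans ?_
          congr 1
          exact tr_ι F e M.gz
      rw [hP N, ← h1]
      have h2 : (D : F) ^ (N + 4) • Ψ (Mach.TestData.ftest M F D E N) ∈
          TwoSidedIdeal.span (I ∪ {Ψ (Mach.TestData.frel M F D E)}) ↔
          Ψ (Mach.TestData.ftest M F D E N) ∈
          TwoSidedIdeal.span (I ∪ {Ψ (Mach.TestData.frel M F D E)}) := by
        have hD' : (D : F) ^ (N + 4) ≠ 0 := pow_ne_zero _ (Nat.cast_ne_zero.mpr hD)
        constructor
        · intro h
          have h3 := TwoSidedIdeal.mul_mem_left _ (algebraMap F _ ((D : F) ^ (N + 4))⁻¹) _ h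
          rwa [← Algebra.smul_def, smul_smul, inv_mul_cancel₀ hD', one_smul] at h3
        · intro h
          rw [Algebra.smul_def]
          exact TwoSidedIdeal.mul_mem_left _ _ _ h
      rw [h2]
      have h3 := mem_span_of_map Ψ.toRingEquiv (I ∪ {Ψ (Mach.TestData.frel M F D E)})
        (Mach.TestData.ftest M F D E N)
      change Ψ _ ∈ _ ↔ _ at h3
      rw [h3]
      have h4 : (Ψ.toRingEquiv ⁻¹' (I ∪ {Ψ (Mach.TestData.frel M F D E)})) =
          (Ψ ⁻¹' I) ∪ {Mach.TestData.frel M F D E} := by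
        ext g
        constructor
        · rintro (h | h)
          · exact Or.inl h
          · exact Or.inr (Ψ.injective h)
        · rintro (h | h)
          · exact Or.inl h
          · rw [Set.mem_singleton_iff] at h
            subst h
            exact Or.inr rfl
      rw [h4]
      apply M.core F d D hd hD E hE
      · have h5 := hI1 (fun i => Ψ (M.fW F D E ^ d * FreeAlgebra.ι F M.gz ^ (i : ℕ))) (by
          intro i
          have h : (FreeAlgebra.lift F fun _ : Fin (Fintype.card M.Gen) => (0 : F)).comp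
              Ψ.toAlgHom = Mach.aug F M.Gen := by
            ext x
            simp [Ψ, tr_ι, Mach.aug]
          have h2 := congrArg (fun φ => φ (M.fW F D E ^ d * FreeAlgebra.ι F M.gz ^ (i : ℕ))) h
          refine h2.trans ?_
          rw [map_mul, map_pow, M.aug_fW, zero_pow hd.ne', zero_mul])
        have h6 := map_stdPoly Ψ.toAlgHom.toRingHom d
          (fun i => M.fW F D E ^ d * FreeAlgebra.ι F M.gz ^ (i : ℕ))
        change Ψ _ = stdPoly d fun i => Ψ _ at h6
        rw [← h6] at h5
        have h7 := (mem_span_of_map Ψ.toRingEquiv I _).mp h5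
        exact TwoSidedIdeal.span_mono Set.subset_union_left h7
      · intro g hg
        have h5 := hI2 _ hg (M.Cb F) (fun x => (M.TD F).mt (e.symm x))
        have h6 : (FreeAlgebra.lift F fun x => (M.TD F).mt (e.symm x)).comp Ψ.toAlgHom =
            (M.TD F).φ := by
          ext x
          simp [Ψ, tr_ι, Mach.TestData.φ]
        have h7 := congrArg (fun φ => φ g) h6
        exact h7.symm.trans h5
    refine ComputablePred.computable_of_manyOneReducible ?_ hcomp
    refine ⟨fun n => mulC (powC PL PY (2 ^ n * c)) PR, ?_, fun n => (hred _).symm⟩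
    have hpow : Primrec fun n : ℕ => 2 ^ n * c := by
      refine Primrec.nat_mul.comp ?_ (Primrec.const c)
      have : Primrec (Nat.rec 1 (fun _ x => x * 2) : ℕ → ℕ) :=
        Primrec.nat_rec₁ 1 (Primrec.nat_mul.comp Primrec.snd (Primrec.const 2))
      refine this.of_eq fun n => ?_
      induction n with
      | zero => rfl
      | succ n ih => rw [pow_succ, ← ih]
    exact (primrec_mulC.comp ((primrec_powC PL PY).comp hpow) (Primrec.const PR)).to_comp

/-- The master theorem with an integral relator. -/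
theorem master2 (F : Type u) [Field F] [CharZero F] (d : ℕ) (hd : 0 < d) :
    ∃ (k : ℕ) (Q : Cd (Fin k)), ∀ I : Set (FreeAlgebra F (Fin k)),
        (∀ a : Fin d → FreeAlgebra F (Fin k),
          (∀ i, FreeAlgebra.lift F (fun _ => (0 : F)) (a i) = 0) →
            stdPoly d a ∈ TwoSidedIdeal.span I) →
        (∀ g ∈ I, ∀ (C : Type u) [CommRing C] [Algebra F C]
          (a : Fin k → Matrix (Fin 4) (Fin 4) C), FreeAlgebra.lift F a g = 0) →
        ¬ ComputablePred fun P : Cd (Fin k) =>
          codeVal F P ∈ TwoSidedIdeal.span (I ∪ {codeVal F Q}) := by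
  obtain ⟨k, f, ⟨m, hm, Q, hQ⟩, hf⟩ := master F d hd
  refine ⟨k, Q, fun I h1 h2 => ?_⟩
  have hm' : (m : F) ≠ 0 := Nat.cast_ne_zero.mpr hm
  have h3 : TwoSidedIdeal.span (I ∪ {codeVal F Q}) = TwoSidedIdeal.span (I ∪ {f}) := by
    rw [hQ]
    apply le_antisymm
    · rw [TwoSidedIdeal.span_le]
      rintro g (hg | hg)
      · exact TwoSidedIdeal.subset_span (Or.inl hg)
      · rw [Set.mem_singleton_iff] at hg
        subst hg
        change _ ∈ TwoSidedIdeal.span _
        rw [Algebra.smul_def]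
        exact TwoSidedIdeal.mul_mem_left _ _ _ (TwoSidedIdeal.subset_span (Or.inr rfl))
    · rw [TwoSidedIdeal.span_le]
      rintro g (hg | hg)
      · exact TwoSidedIdeal.subset_span (Or.inl hg)
      · rw [Set.mem_singleton_iff] at hg
        subst hg
        change _ ∈ TwoSidedIdeal.span _
        have h4 : (m : F) • g ∈ TwoSidedIdeal.span (I ∪ {(m : F) • g}) :=
          TwoSidedIdeal.subset_span (Or.inr rfl)
        have h5 := TwoSidedIdeal.mul_mem_left _ (algebraMap F _ (m : F)⁻¹) _ h4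
        rwa [← Algebra.smul_def, smul_smul, inv_mul_cancel₀ hm', one_smul] at h5
  rw [h3]
  exact hf I h1 h2

end Pool.Agent.H.MP_7596fa_lc
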