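import Mathlib

/-!
Nilpotency lemma: in a ring of characteristic zero satisfying the standard identity `s_d`,
if `[z,w]` commutes with `z`, then `[z,w]` is nilpotent.
-/

namespace Pool.Agent.H.MP_7596fa_lc

open MvPolynomial

/-- The standard polynomial `s_n` evaluated at `a 0, …, a (n-1)`. -/
def stdPoly {A : Type*} [Ring A] (n : ℕ) (a : Fin n → A) : A :=
  ∑ σ : Equiv.Perm (Fin n), (Equiv.Perm.sign σ : ℤ) • (List.ofFn fun i => a (σ i)).prod

namespace Nil

variable {A : Type*} [Ring A]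

/-- iterated commutator with `z` -/
def D (z : A) : ℕ → A → A
  | 0, b => b
  | (n+1), b => z * D z n b - D z n b * z

/-- `z^{α 0} D^{β 0}(b) z^{α 1} D^{β 1}(b) ⋯ z^{α d}` -/
def W (z b : A) : ℕ → (ℕ → ℕ) → (ℕ → ℕ) → A
  | 0, α, _ => z ^ (α 0)
  | (d+1), α, β => z ^ (α 0) * D z (β 0) b * W z b d (fun i => α (i+1)) (fun i => β (i+1))

theorem W_congr (z b : A) (d : ℕ) {α α' β β' : ℕ → ℕ} (h : ∀ i, i ≤ d → α i = α' i)
    (h' : ∀ i, i < d → β i = β' i) : W z b d α β = W z b d α' β' := by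
  induction d generalizing α α' β β' with
  | zero => simp [W, h 0 le_rfl]
  | succ d ih =>
    simp only [W]
    rw [h 0 (Nat.zero_le _), h' 0 (Nat.succ_pos _)]
    rw [ih (fun i hi => h (i+1) (by omega)) (fun i hi => h' (i+1) (by omega))]

/-- add one to the exponent `i` -/
def bump (i : ℕ) (α : ℕ → ℕ) : ℕ → ℕ := fun j => if j = i then α j + 1 else α j

theorem bump_succ (i : ℕ) (α : ℕ → ℕ) :
    (fun j => bump (i+1) α (j+1)) = bump i (fun j => α (j+1)) := by
  funext j; simp [bump]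

theorem bump_zero_succ (α : ℕ → ℕ) :
    (fun j => bump 0 α (j+1)) = (fun j => α (j+1)) := by
  funext j; simp [bump]

theorem W_bump_zero (z b : A) (d : ℕ) (α β : ℕ → ℕ) :
    W z b d (bump 0 α) β = z * W z b d α β := by
  cases d with
  | zero => simp [W, bump, pow_succ']
  | succ d => simp [W, bump, pow_succ', mul_assoc]

theorem W_bump_last (z b : A) (d : ℕ) (α β : ℕ → ℕ) :
    W z b d (bump d α) β = W z b d α β * z := by
  induction d generalizing α β with
  | zero => simp [W, bump, pow_succ]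
  | succ d ih =>
    have h0 : bump (d+1) α 0 = α 0 := by simp [bump]
    simp only [W]
    rw [bump_succ, ih, h0]
    simp [mul_assoc]

theorem W_diff (z b : A) (d : ℕ) (i : ℕ) (hi : i < d) (α β : ℕ → ℕ) :
    W z b d (bump i α) β - W z b d (bump (i+1) α) β = W z b d α (bump i β) := by
  induction d generalizing i α β with
  | zero => omega
  | succ d ih =>
    cases i with
    | zero =>
      simp only [W]
      rw [bump_zero_succ, bump_succ, W_bump_zero]
      have h1 : bump 0 α 0 = α 0 + 1 := by simp [bump]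
      have h2 : bump 1 α 0 = α 0 := by simp [bump]
      have h3 : bump 0 β 0 = β 0 + 1 := by simp [bump]
      have h4 : (fun j => bump 0 β (j+1)) = fun j => β (j+1) := bump_zero_succ β
      rw [h1, h2, h3, h4, D, pow_succ]
      noncomm_ring
    | succ i =>
      simp only [W]
      rw [bump_succ, bump_succ, bump_succ]
      have h1 : bump (i+1) α 0 = α 0 := by simp [bump]
      have h2 : bump (i+2) α 0 = α 0 := by simp [bump]
      have h3 : bump (i+1) β 0 = β 0 := by simp [bump]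
      rw [h1, h2, h3, ← ih i (by omega), mul_sub]

/-- The linear map sending the monomial `Z^α t^β` to `W d α β`. -/
noncomputable def Om (z b : A) (d : ℕ) : MvPolynomial (ℕ ⊕ ℕ) ℤ →ₗ[ℤ] A :=
  (MvPolynomial.basisMonomials (ℕ ⊕ ℕ) ℤ).constr ℤ
    (fun e => W z b d (fun i => e (Sum.inl i)) (fun i => e (Sum.inr i)))

theorem Om_monomial (z b : A) (d : ℕ) (e : (ℕ ⊕ ℕ) →₀ ℕ) (c : ℤ) :
    Om z b d (monomial e c) = c • W z b d (fun i => e (Sum.inl i)) (fun i => e (Sum.inr i)) := by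
  have h : monomial e c = c • (MvPolynomial.basisMonomials (ℕ ⊕ ℕ) ℤ) e := by
    rw [MvPolynomial.coe_basisMonomials, MvPolynomial.smul_monomial]; simp
  rw [h, map_smul]
  congr 1
  exact Module.Basis.constr_basis _ _ _ _

theorem Om_X_mul (z b : A) (d : ℕ) (s : ℕ ⊕ ℕ) (e : (ℕ ⊕ ℕ) →₀ ℕ) (c : ℤ) :
    Om z b d (X s * monomial e c) =
      c • W z b d (fun i => (Finsupp.single s 1 + e : (ℕ ⊕ ℕ) →₀ ℕ) (Sum.inl i))
        (fun i => (Finsupp.single s 1 + e : (ℕ ⊕ ℕ) →₀ ℕ) (Sum.inr i)) := by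
  rw [X, monomial_mul, one_mul, Om_monomial]

theorem inl_bump (i : ℕ) (e : (ℕ ⊕ ℕ) →₀ ℕ) :
    (fun j => (Finsupp.single (Sum.inl i) 1 + e : (ℕ ⊕ ℕ) →₀ ℕ) (Sum.inl j)) =
      bump i (fun j => e (Sum.inl j)) := by
  funext j
  by_cases h : j = i
  · subst h; simp [bump, add_comm]
  · have : (Sum.inl i : ℕ ⊕ ℕ) ≠ Sum.inl j := fun h' => h (Sum.inl.inj h').symm
    simp [bump, h, Finsupp.single_apply, this]

theorem inl_inr (i : ℕ) (e : (ℕ ⊕ ℕ) →₀ ℕ) :
    (fun j => (Finsupp.single (Sum.inl i) 1 + e : (ℕ ⊕ ℕ) →₀ ℕ) (Sum.inr j)) =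
      (fun j => e (Sum.inr j)) := by
  funext j
  simp [Finsupp.single_apply]

theorem inr_bump (i : ℕ) (e : (ℕ ⊕ ℕ) →₀ ℕ) :
    (fun j => (Finsupp.single (Sum.inr i) 1 + e : (ℕ ⊕ ℕ) →₀ ℕ) (Sum.inr j)) =
      bump i (fun j => e (Sum.inr j)) := by
  funext j
  by_cases h : j = i
  · subst h; simp [bump, add_comm]
  · have : (Sum.inr i : ℕ ⊕ ℕ) ≠ Sum.inr j := fun h' => h (Sum.inr.inj h').symm
    simp [bump, h, Finsupp.single_apply, this]

theorem inr_inl (i : ℕ) (e : (ℕ ⊕ ℕ) →₀ ℕ) :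
    (fun j => (Finsupp.single (Sum.inr i) 1 + e : (ℕ ⊕ ℕ) →₀ ℕ) (Sum.inl j)) =
      (fun j => e (Sum.inl j)) := by
  funext j
  simp [Finsupp.single_apply]

/-- left multiplication by `z` is multiplication by `Z_0` -/
theorem Om_Z0 (z b : A) (d : ℕ) (P : MvPolynomial (ℕ ⊕ ℕ) ℤ) :
    Om z b d (X (Sum.inl 0) * P) = z * Om z b d P := by
  induction P using MvPolynomial.induction_on' with
  | monomial e c =>
    rw [Om_X_mul, inl_bump, inl_inr, W_bump_zero, Om_monomial, mul_smul_comm]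
  | add p q hp hq => rw [mul_add, map_add, map_add, mul_add, hp, hq]

/-- right multiplication by `z` is multiplication by `Z_d` -/
theorem Om_Zd (z b : A) (d : ℕ) (P : MvPolynomial (ℕ ⊕ ℕ) ℤ) :
    Om z b d (X (Sum.inl d) * P) = Om z b d P * z := by
  induction P using MvPolynomial.induction_on' with
  | monomial e c =>
    rw [Om_X_mul, inl_bump, inl_inr, W_bump_last, Om_monomial, smul_mul_assoc]
  | add p q hp hq => rw [mul_add, map_add, map_add, add_mul, hp, hq]

theorem Om_diff (z b : A) (d : ℕ) (i : ℕ) (hi : i < d) (P : MvPolynomial (ℕ ⊕ ℕ) ℤ) :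
    Om z b d ((X (Sum.inl i) - X (Sum.inl (i+1)) - X (Sum.inr i)) * P) = 0 := by
  induction P using MvPolynomial.induction_on' with
  | monomial e c =>
    rw [sub_mul, sub_mul, map_sub, map_sub, Om_X_mul, Om_X_mul, Om_X_mul, inl_bump, inl_inr,
      inl_bump, inl_inr, inr_bump, inr_inl, ← smul_sub, W_diff z b d i hi, sub_self]
  | add p q hp hq => rw [mul_add, map_add, hp, hq, add_zero]

/-- the ideal generated by `Z_i - Z_{i+1} - t_i` -/
noncomputable def K (d : ℕ) : Ideal (MvPolynomial (ℕ ⊕ ℕ) ℤ) :=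
  Ideal.span {P | ∃ i, i < d ∧ P = X (Sum.inl i) - X (Sum.inl (i+1)) - X (Sum.inr i)}

theorem Om_K (z b : A) (d : ℕ) {P : MvPolynomial (ℕ ⊕ ℕ) ℤ} (hP : P ∈ K d)
    (Q : MvPolynomial (ℕ ⊕ ℕ) ℤ) : Om z b d (P * Q) = 0 := by
  unfold K at hP
  induction hP using Submodule.span_induction generalizing Q with
  | mem x hx =>
    obtain ⟨i, hi, rfl⟩ := hx
    exact Om_diff z b d i hi Q
  | zero => simp
  | add x y _ _ hx hy => rw [add_mul, map_add, hx, hy, add_zero]
  | smul a x _ hx =>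
    rw [smul_eq_mul, mul_comm a x, mul_assoc]
    exact hx _

theorem Om_congr (z b : A) (d : ℕ) {P Q : MvPolynomial (ℕ ⊕ ℕ) ℤ}
    (h : Ideal.Quotient.mk (K d) P = Ideal.Quotient.mk (K d) Q) : Om z b d P = Om z b d Q := by
  rw [Ideal.Quotient.eq] at h
  have := Om_K z b d h 1
  rw [mul_one, map_sub, sub_eq_zero] at this
  exact this

theorem W_ofFn (z b : A) (d : ℕ) (α : ℕ → ℕ) :
    W z b d α (fun _ => 0) = z ^ (α 0) * (List.ofFn fun k : Fin d => b * z ^ (α (k+1))).prod := by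
  induction d generalizing α with
  | zero => simp [W]
  | succ d ih =>
    simp only [W, D]
    rw [ih, List.ofFn_succ, List.prod_cons]
    simp [mul_assoc]

theorem Om_prod (z b : A) (d : ℕ) (a : Fin d → ℕ) :
    Om z b d (∏ k : Fin d, X (Sum.inl ((k : ℕ)+1)) ^ a k) =
      (List.ofFn fun k => b * z ^ a k).prod := by
  have h : (∏ k : Fin d, (X (Sum.inl ((k : ℕ)+1)) : MvPolynomial (ℕ ⊕ ℕ) ℤ) ^ a k) =
      monomial (∑ k : Fin d, Finsupp.single (Sum.inl ((k : ℕ)+1)) (a k)) 1 := by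
    rw [MvPolynomial.monomial_sum_one]
    apply Finset.prod_congr rfl
    intro k _
    rw [MvPolynomial.X_pow_eq_monomial]
  rw [h, Om_monomial, one_smul]
  have h0 : (∑ k : Fin d, Finsupp.single (Sum.inl ((k : ℕ)+1)) (a k) : (ℕ ⊕ ℕ) →₀ ℕ) (Sum.inl 0) = 0 := by
    rw [Finsupp.finset_sum_apply]
    apply Finset.sum_eq_zero
    intro k _
    simp [Finsupp.single_apply]
  have h1 : ∀ j : Fin d, (∑ k : Fin d, Finsupp.single (Sum.inl ((k : ℕ)+1)) (a k) : (ℕ ⊕ ℕ) →₀ ℕ)
      (Sum.inl ((j : ℕ)+1)) = a j := by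
    intro j
    rw [Finsupp.finset_sum_apply]
    rw [Finset.sum_eq_single j]
    · simp
    · intro k _ hk
      have : (k : ℕ) ≠ j := fun h => hk (Fin.ext h)
      simp [Finsupp.single_apply, this]
    · simp
  have h2 : (fun i => (∑ k : Fin d, Finsupp.single (Sum.inl ((k : ℕ)+1)) (a k) : (ℕ ⊕ ℕ) →₀ ℕ)
      (Sum.inr i)) = fun _ => 0 := by
    funext i
    rw [Finsupp.finset_sum_apply]
    apply Finset.sum_eq_zero
    intro k _
    simp
  rw [h2, W_ofFn, h0, pow_zero, one_mul]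
  congr 2
  funext j
  rw [h1 j]

theorem Om_vandermonde (z b : A) (d : ℕ) :
    Om z b d (Matrix.det (Matrix.vandermonde
      (fun i : Fin d => (X (Sum.inl ((i : ℕ)+1)) : MvPolynomial (ℕ ⊕ ℕ) ℤ)))) =
      stdPoly d (fun i => b * z ^ (i : ℕ)) := by
  rw [← Matrix.det_transpose, Matrix.det_apply, map_sum]
  unfold stdPoly
  apply Finset.sum_congr rfl
  intro σ _
  have : ∀ (s : ℤˣ) (P : MvPolynomial (ℕ ⊕ ℕ) ℤ), Om z b d (s • P) = (s : ℤ) • Om z b d P := by
    intro s P
    rw [Units.smul_def, map_smul]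
  rw [this]
  congr 1
  have h2 : (∏ i : Fin d, (Matrix.vandermonde
      (fun i : Fin d => (X (Sum.inl ((i : ℕ)+1)) : MvPolynomial (ℕ ⊕ ℕ) ℤ))).transpose (σ i) i) =
      ∏ k : Fin d, X (Sum.inl ((k : ℕ)+1)) ^ ((σ k : Fin d) : ℕ) := by
    apply Finset.prod_congr rfl
    intro k _
    rw [Matrix.transpose_apply, Matrix.vandermonde_apply]
  rw [h2, Om_prod]

theorem mk_tele (d a c : ℕ) (hc : a + c ≤ d) :
    Ideal.Quotient.mk (K d) (X (Sum.inl a) - X (Sum.inl (a+c))) =
      Ideal.Quotient.mk (K d) (∑ k ∈ Finset.Ico a (a+c), X (Sum.inr k)) := by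
  induction c with
  | zero => simp
  | succ c ih =>
    have h1 : Ideal.Quotient.mk (K d) (X (Sum.inl (a+c)) - X (Sum.inl (a+c+1))) =
        Ideal.Quotient.mk (K d) (X (Sum.inr (a+c))) := by
      rw [Ideal.Quotient.eq]
      exact Ideal.subset_span ⟨a+c, by omega, rfl⟩
    have h2 : (X (Sum.inl a) - X (Sum.inl (a+(c+1))) : MvPolynomial (ℕ ⊕ ℕ) ℤ) =
      (X (Sum.inl a) - X (Sum.inl (a+c))) + (X (Sum.inl (a+c)) - X (Sum.inl (a+c+1))) := by
      rw [show a + (c+1) = a+c+1 from rfl]; ring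
    rw [h2, map_add, ih (by omega), h1, ← map_add]
    congr 1
    rw [show a + (c+1) = a+c+1 from rfl, Finset.sum_Ico_succ_top (by omega)]

/-- the substitution `t_i ↦ t_i` -/
noncomputable def psi (d : ℕ) : MvPolynomial (Fin d) ℕ →+* MvPolynomial (ℕ ⊕ ℕ) ℤ :=
  MvPolynomial.eval₂Hom (Nat.castRingHom _) (fun i => X (Sum.inr (i : ℕ)))

/-- the polynomial with nonnegative coefficients -/
noncomputable def H (d : ℕ) : MvPolynomial (Fin d) ℕ :=
  ∏ i : Fin d, ∏ j ∈ Finset.Ioi i, ∑ k ∈ Finset.Ioc i j, X k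

theorem psi_X (d : ℕ) (i : Fin d) : psi d (X i) = X (Sum.inr (i : ℕ)) := by
  simp [psi]

theorem mk_pair (d : ℕ) (i j : Fin d) (hij : i < j) :
    Ideal.Quotient.mk (K d) (X (Sum.inl ((j:ℕ)+1)) - X (Sum.inl ((i:ℕ)+1))) =
      Ideal.Quotient.mk (K d) (- psi d (∑ k ∈ Finset.Ioc i j, X k)) := by
  have hij' : (i : ℕ) < j := hij
  have h := mk_tele d ((i:ℕ)+1) ((j:ℕ) - i) (by omega)
  have h3 : (i:ℕ) + 1 + ((j:ℕ) - i) = (j:ℕ) + 1 := by omega
  rw [h3] at h
  have h4 : (X (Sum.inl ((j:ℕ)+1)) - X (Sum.inl ((i:ℕ)+1)) : MvPolynomial (ℕ ⊕ ℕ) ℤ) =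
    -(X (Sum.inl ((i:ℕ)+1)) - X (Sum.inl ((j:ℕ)+1))) := by ring
  rw [h4, map_neg, map_neg, h]
  congr 2
  rw [map_sum]
  simp only [psi_X]
  have h5 := Finset.sum_map (Finset.Ioc i j) Fin.valEmbedding
    (fun k => (X (Sum.inr k) : MvPolynomial (ℕ ⊕ ℕ) ℤ))
  simp only [Fin.valEmbedding_apply] at h5
  rw [← h5]
  apply Finset.sum_congr _ (fun _ _ => rfl)
  rw [Fin.map_valEmbedding_Ioc]
  ext k
  simp only [Finset.mem_Ico, Finset.mem_Ioc]
  omega

theorem mk_all (d e : ℕ) : ∃ c : ℤ, c * c = 1 ∧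
    Ideal.Quotient.mk (K d) ((X (Sum.inl 0) - X (Sum.inl d)) ^ e * Matrix.det (Matrix.vandermonde
      (fun i : Fin d => (X (Sum.inl ((i : ℕ)+1)) : MvPolynomial (ℕ ⊕ ℕ) ℤ)))) =
    Ideal.Quotient.mk (K d) (c • psi d ((∑ i, X i) ^ e * H d)) := by
  refine ⟨∏ i : Fin d, ∏ j ∈ Finset.Ioi i, (-1 : ℤ), ?_, ?_⟩
  · rw [← Finset.prod_mul_distrib]
    apply Finset.prod_eq_one
    intro i _
    rw [← Finset.prod_mul_distrib]
    apply Finset.prod_eq_one
    intro j _
    norm_num
  · rw [Matrix.det_vandermonde, map_mul, map_pow, map_prod]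
    have h0 := mk_tele d 0 d (by omega)
    rw [zero_add] at h0
    rw [h0]
    have h1 : (∑ k ∈ Finset.Ico 0 d, X (Sum.inr k) : MvPolynomial (ℕ ⊕ ℕ) ℤ) =
        psi d (∑ i, X i) := by
      rw [map_sum]
      simp only [psi_X]
      rw [Finset.sum_fin_eq_sum_range]
      rw [Finset.range_eq_Ico]
      apply Finset.sum_congr rfl
      intro k hk
      rw [Finset.mem_Ico] at hk
      rw [dif_pos hk.2]
    rw [h1]
    have h2 : ∀ i : Fin d, Ideal.Quotient.mk (K d) (∏ j ∈ Finset.Ioi i,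
        (X (Sum.inl ((j:ℕ)+1)) - X (Sum.inl ((i:ℕ)+1)))) =
        Ideal.Quotient.mk (K d) ((∏ j ∈ Finset.Ioi i, (-1 : ℤ)) •
          psi d (∏ j ∈ Finset.Ioi i, ∑ k ∈ Finset.Ioc i j, X k)) := by
      intro i
      rw [map_prod, map_prod]
      have : ((∏ j ∈ Finset.Ioi i, (-1 : ℤ)) •
          ∏ j ∈ Finset.Ioi i, psi d (∑ k ∈ Finset.Ioc i j, X k) : MvPolynomial (ℕ ⊕ ℕ) ℤ) =
          ∏ j ∈ Finset.Ioi i, (- psi d (∑ k ∈ Finset.Ioc i j, X k)) := by
        rw [zsmul_eq_mul, Int.cast_prod, ← Finset.prod_mul_distrib]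
        apply Finset.prod_congr rfl
        intro j _
        simp
      rw [this, map_prod]
      apply Finset.prod_congr rfl
      intro j hj
      exact mk_pair d i j (Finset.mem_Ioi.mp hj)
    rw [Finset.prod_congr rfl (fun i _ => h2 i), ← map_prod, ← map_pow, ← map_mul]
    congr 1
    rw [H, map_mul, map_pow, map_prod]
    rw [zsmul_eq_mul, Int.cast_prod]
    have h3 : ∀ i : Fin d, ((∏ j ∈ Finset.Ioi i, (-1 : ℤ)) •
          psi d (∏ j ∈ Finset.Ioi i, ∑ k ∈ Finset.Ioc i j, X k)) =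
          (((∏ j ∈ Finset.Ioi i, (-1 : ℤ)) : ℤ) : MvPolynomial (ℕ ⊕ ℕ) ℤ) *
          psi d (∏ j ∈ Finset.Ioi i, ∑ k ∈ Finset.Ioc i j, X k) := fun i => zsmul_eq_mul _ _
    rw [Finset.prod_congr rfl (fun i _ => h3 i), Finset.prod_mul_distrib]
    ring

/-- If `s_d` vanishes on `b z^i` then the positive polynomial is killed. -/
theorem Om_pos (z b : A) (d e : ℕ) (h : stdPoly d (fun i => b * z ^ (i : ℕ)) = 0) :
    Om z b d (psi d ((∑ i, X i) ^ e * H d)) = 0 := by
  obtain ⟨c, hc, hmk⟩ := mk_all d e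
  have h1 := Om_congr z b d hmk
  have h2 : ∀ e : ℕ, Om z b d ((X (Sum.inl 0) - X (Sum.inl d)) ^ e * Matrix.det (Matrix.vandermonde
      (fun i : Fin d => (X (Sum.inl ((i : ℕ)+1)) : MvPolynomial (ℕ ⊕ ℕ) ℤ)))) = 0 := by
    intro e
    induction e with
    | zero => rw [pow_zero, one_mul, Om_vandermonde, h]
    | succ e ih => rw [pow_succ', mul_assoc, sub_mul, map_sub, Om_Z0, Om_Zd, ih]; simp
  rw [h2, map_smul] at h1
  have h3 : c • (c • Om z b d (psi d ((∑ i, X i) ^ e * H d))) = 0 := by rw [← h1, smul_zero]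
  rwa [smul_smul, hc, one_smul] at h3

/-- coefficientwise domination -/
def Dom {S : Type*} [CommSemiring S] (P Q : S) : Prop := ∃ R, Q = P + R

theorem Dom.refl {S : Type*} [CommSemiring S] (P : S) : Dom P P := ⟨0, by simp⟩

theorem Dom.mul {S : Type*} [CommSemiring S] {P Q P' Q' : S} (h : Dom P Q) (h' : Dom P' Q') :
    Dom (P * P') (Q * Q') := by
  obtain ⟨R, rfl⟩ := h
  obtain ⟨R', rfl⟩ := h'
  exact ⟨P * R' + R * P' + R * R', by ring⟩

theorem Dom.pow {S : Type*} [CommSemiring S] {P Q : S} (h : Dom P Q) (n : ℕ) :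
    Dom (P ^ n) (Q ^ n) := by
  induction n with
  | zero => simp [Dom.refl]
  | succ n ih => rw [pow_succ, pow_succ]; exact ih.mul h

theorem Dom.prod {S ι : Type*} [CommSemiring S] (s : Finset ι) {P Q : ι → S}
    (h : ∀ i ∈ s, Dom (P i) (Q i)) : Dom (∏ i ∈ s, P i) (∏ i ∈ s, Q i) := by
  classical
  induction s using Finset.induction_on with
  | empty => simp [Dom.refl]
  | insert a s ha ih =>
    rw [Finset.prod_insert ha, Finset.prod_insert ha]
    exact (h a (Finset.mem_insert_self a s)).mul (ih fun i hi => h i (Finset.mem_insert_of_mem hi))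

theorem Dom.sum_mem {S ι : Type*} [CommSemiring S] (s : Finset ι) (f : ι → S) {i : ι} (hi : i ∈ s) :
    Dom (f i) (∑ j ∈ s, f j) := by
  classical
  exact ⟨∑ j ∈ s.erase i, f j, (Finset.add_sum_erase s f hi).symm⟩

/-- total exponent -/
def ex (d m : ℕ) : ℕ := ∑ j : Fin d, (m - j)

theorem dom_G (d m : ℕ) (hm : d ≤ m + 1) :
    Dom (∏ j : Fin d, (X j : MvPolynomial (Fin d) ℕ) ^ m) ((∑ i, X i) ^ (ex d m) * H d) := by
  have h1 : Dom (∏ j : Fin d, (X j : MvPolynomial (Fin d) ℕ) ^ (m - (j : ℕ)))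
      ((∑ i, X i) ^ (ex d m)) := by
    rw [ex, ← Finset.prod_pow_eq_pow_sum]
    exact Dom.prod _ fun j _ => (Dom.sum_mem _ _ (Finset.mem_univ j)).pow _
  have h2 : Dom (∏ i : Fin d, ∏ j ∈ Finset.Ioi i, (X j : MvPolynomial (Fin d) ℕ)) (H d) := by
    refine Dom.prod _ fun i _ => Dom.prod _ fun j hj => Dom.sum_mem _ _ ?_
    rw [Finset.mem_Ioc]
    exact ⟨Finset.mem_Ioi.mp hj, le_rfl⟩
  have h3 : (∏ i : Fin d, ∏ j ∈ Finset.Ioi i, (X j : MvPolynomial (Fin d) ℕ)) =
      ∏ j : Fin d, X j ^ (j : ℕ) := by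
    have : ∀ i : Fin d, ∏ j ∈ Finset.Ioi i, (X j : MvPolynomial (Fin d) ℕ) =
        ∏ j : Fin d, if i < j then X j else 1 := by
      intro i
      rw [Finset.prod_ite, Finset.prod_const_one, mul_one]
      apply Finset.prod_congr _ (fun _ _ => rfl)
      ext j
      simp
    rw [Finset.prod_congr rfl (fun i _ => this i), Finset.prod_comm]
    apply Finset.prod_congr rfl
    intro j _
    rw [Finset.prod_ite, Finset.prod_const_one, mul_one, Finset.prod_const]
    congr 1
    have : (Finset.univ.filter fun i : Fin d => i < j) = Finset.Iio j := by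
      ext i; simp
    rw [this, Fin.card_Iio]
  have h4 := h1.mul h2
  rw [h3, ← Finset.prod_mul_distrib] at h4
  have h5 : ∀ j : Fin d, (X j : MvPolynomial (Fin d) ℕ) ^ (m - (j:ℕ)) * X j ^ (j:ℕ) = X j ^ m := by
    intro j
    rw [← pow_add]
    congr 1
    have := j.2
    omega
  rw [Finset.prod_congr rfl (fun j _ => h5 j)] at h4
  exact h4

theorem homog_G (d m : ℕ) (hm : d ≤ m + 1) :
    ((∑ i, (X i : MvPolynomial (Fin d) ℕ)) ^ (ex d m) * H d).IsHomogeneous (d * m) := by
  have h1 : ((∑ i, (X i : MvPolynomial (Fin d) ℕ)) ^ (ex d m)).IsHomogeneous (1 * ex d m) := by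
    apply MvPolynomial.IsHomogeneous.pow
    apply MvPolynomial.IsHomogeneous.sum
    intro i _
    exact MvPolynomial.isHomogeneous_X _ _
  have h2 : (H d).IsHomogeneous (∑ i : Fin d, ∑ j ∈ Finset.Ioi i, 1) := by
    apply MvPolynomial.IsHomogeneous.prod
    intro i _
    apply MvPolynomial.IsHomogeneous.prod
    intro j _
    apply MvPolynomial.IsHomogeneous.sum
    intro k _
    exact MvPolynomial.isHomogeneous_X _ _
  have h3 := h1.mul h2
  have h4 : 1 * ex d m + ∑ i : Fin d, ∑ j ∈ Finset.Ioi i, 1 = d * m := by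
    have : ∑ i : Fin d, ∑ j ∈ Finset.Ioi i, 1 = ∑ j : Fin d, (j : ℕ) := by
      have : ∀ i : Fin d, ∑ j ∈ Finset.Ioi i, 1 = ∑ j : Fin d, if i < j then 1 else 0 := by
        intro i
        rw [Finset.sum_ite, Finset.sum_const_zero, add_zero]
        apply Finset.sum_congr _ (fun _ _ => rfl)
        ext j
        simp
      rw [Finset.sum_congr rfl (fun i _ => this i), Finset.sum_comm]
      apply Finset.sum_congr rfl
      intro j _
      rw [Finset.sum_ite, Finset.sum_const_zero, add_zero, Finset.sum_const]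
      have : (Finset.univ.filter fun i : Fin d => i < j) = Finset.Iio j := by
        ext i; simp
      rw [this, Fin.card_Iio]
      simp
    rw [this, one_mul, ex, ← Finset.sum_add_distrib]
    have h5 : ∀ j : Fin d, m - (j:ℕ) + (j:ℕ) = m := fun j => by have := j.2; omega
    rw [Finset.sum_congr rfl (fun j _ => h5 j)]
    simp
  rwa [h4] at h3

theorem delta_mul (z w x : A) (hu : z * (z * w - w * z) = (z * w - w * z) * z) (k : ℕ) :
    D z (k+1) (w * x) = w * D z (k+1) x + (k+1 : ℕ) • ((z * w - w * z) * D z k x) := by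
  induction k with
  | zero => simp only [D]; rw [zero_add, one_smul]; noncomm_ring
  | succ k ih =>
    rw [D, ih]
    have e1 : D z (k+1+1) x = z * D z (k+1) x - D z (k+1) x * z := rfl
    have e2 : D z (k+1) x = z * D z k x - D z k x * z := rfl
    set u := z * w - w * z with hudef
    have e3 : z * (w * D z (k+1) x) = u * D z (k+1) x + w * (z * D z (k+1) x) := by
      rw [hudef]; noncomm_ring
    have e4 : z * (u * D z k x) = u * (z * D z k x) := by rw [← mul_assoc, hu, mul_assoc]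
    rw [mul_add, add_mul, e3, e1, mul_smul_comm, smul_mul_assoc, e4, mul_assoc u, mul_assoc w]
    have e5 : (k+1+1 : ℕ) • (u * D z (k+1) x) = (k+1) • (u * D z (k+1) x) + u * D z (k+1) x := by
      rw [succ_nsmul]
    have e6 : (k+1 : ℕ) • (u * D z (k+1) x) =
        (k+1) • (u * (z * D z k x)) - (k+1) • (u * (D z k x * z)) := by
      rw [e2, mul_sub, smul_sub]
    rw [e5, e6, mul_sub w]
    abel

theorem D_zero (z : A) (k : ℕ) : D z k 0 = 0 := by
  induction k with
  | zero => rfl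
  | succ k ih => rw [D, ih]; simp

theorem D_pow (z w : A) (hu : z * (z * w - w * z) = (z * w - w * z) * z) (m : ℕ) :
    (∀ k, m < k → D z k (w ^ m) = 0) ∧ D z m (w ^ m) = (m.factorial : ℕ) • (z * w - w * z) ^ m := by
  induction m with
  | zero =>
    refine ⟨?_, by simp [D]⟩
    intro k hk
    cases k with
    | zero => omega
    | succ k =>
      clear hk
      induction k with
      | zero => simp [D]
      | succ k ih => rw [D, ih]; simp
  | succ m ih =>
    constructor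
    · intro k hk
      cases k with
      | zero => omega
      | succ k =>
        rw [pow_succ', delta_mul z w _ hu, ih.1 (k+1) (by omega), ih.1 k (by omega)]
        simp
    · rw [pow_succ', delta_mul z w _ hu, ih.1 (m+1) (by omega), ih.2, mul_zero, zero_add,
        mul_smul_comm, smul_smul, ← pow_succ', Nat.factorial_succ]

theorem W_zero (z b : A) (d m : ℕ) (hb : ∀ k, m < k → D z k b = 0) (α β : ℕ → ℕ)
    (i : ℕ) (hi : i < d) (h : m < β i) : W z b d α β = 0 := by
  induction d generalizing i α β with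
  | zero => omega
  | succ d ih =>
    rw [W]
    cases i with
    | zero => rw [hb _ h]; simp
    | succ i => rw [ih _ _ i (by omega) h]; simp

theorem W_const (z b c : A) (d m : ℕ) (hb : D z m b = c) :
    W z b d (fun _ => 0) (fun i => if i < d then m else 0) = c ^ d := by
  have : ∀ β : ℕ → ℕ, (∀ i, i < d → β i = m) → W z b d (fun _ => 0) β = c ^ d := by
    induction d with
    | zero => intro β _; simp [W]
    | succ d ih =>
      intro β hβ
      rw [W, hβ 0 (by omega), hb]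
      have : W z b d (fun i => (fun _ => 0) (i+1)) (fun i => β (i+1)) = c ^ d :=
        ih _ fun i hi => hβ (i+1) (by omega)
      rw [this, pow_zero, one_mul, pow_succ']
  exact this _ (fun i hi => by simp [hi])

theorem psi_monomial (z b : A) (d : ℕ) (e : Fin d →₀ ℕ) (c : ℕ) :
    Om z b d (psi d (monomial e c)) =
      c • W z b d (fun _ => 0) (fun i => if h : i < d then e ⟨i, h⟩ else 0) := by
  have h1 : psi d (monomial e c) = monomial (e.mapDomain (fun i : Fin d => (Sum.inr (i : ℕ) : ℕ ⊕ ℕ)))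
      (c : ℤ) := by
    rw [psi, MvPolynomial.coe_eval₂Hom, MvPolynomial.eval₂_monomial, MvPolynomial.monomial_eq,
      Finsupp.prod_mapDomain_index (by simp) (by intros; rw [pow_add])]
    simp
  rw [h1, Om_monomial]
  rw [Nat.cast_smul_eq_nsmul]
  congr 1
  apply W_congr
  · intro i _
    rw [Finsupp.mapDomain_of_notMem_range]
    simp
  · intro i hi
    rw [dif_pos hi]
    have := Finsupp.mapDomain_apply (f := fun i : Fin d => (Sum.inr (i : ℕ) : ℕ ⊕ ℕ))
      (fun a b h => Fin.ext (Sum.inr.inj h)) e ⟨i, hi⟩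
    exact this

/-- The integer form of the nilpotency lemma. -/
theorem nilp_int (z w : A) (d m : ℕ) (hm : d ≤ m + 1)
    (hu : z * (z * w - w * z) = (z * w - w * z) * z)
    (h : stdPoly d (fun i => w ^ m * z ^ (i : ℕ)) = 0) :
    ∃ N : ℕ, N ≠ 0 ∧ N • (z * w - w * z) ^ (m * d) = 0 := by
  classical
  set b := w ^ m with hb
  have hD := D_pow z w hu m
  set G : MvPolynomial (Fin d) ℕ := (∑ i, X i) ^ (ex d m) * H d with hG
  have h0 : Om z b d (psi d G) = 0 := Om_pos z b d _ h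
  set β0 : Fin d →₀ ℕ := Finsupp.equivFunOnFinite.symm (fun _ => m) with hβ0
  have hhom := homog_G d m hm
  have hz : ∀ β ∈ G.support, β ≠ β0 →
      Om z b d (psi d (monomial β (G.coeff β))) = 0 := by
    intro β hβ hne
    rw [psi_monomial]
    have hdeg : ∑ i, β i = d * m := by
      have := hhom (MvPolynomial.mem_support_iff.mp hβ)
      rw [← this]
      rw [Finsupp.weight_apply, Finsupp.sum_fintype _ _ (by simp)]
      simp
    have : ∃ i, m < β i := by
      by_contra hcon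
      simp only [not_exists, not_lt] at hcon
      apply hne
      have h2 : ∑ i : Fin d, (m - β i) = 0 := by
        have h3 : ∑ i : Fin d, (m - β i) + ∑ i : Fin d, β i = d * m := by
          rw [← Finset.sum_add_distrib]
          rw [Finset.sum_congr rfl (fun i _ => Nat.sub_add_cancel (hcon i))]
          simp
        omega
      ext i
      have h4 := (Finset.sum_eq_zero_iff.mp h2) i (Finset.mem_univ i)
      have h5 := hcon i
      simp only [hβ0, Finsupp.equivFunOnFinite_symm_apply_apply]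
      omega
    obtain ⟨i, hi⟩ := this
    rw [W_zero z b d m hD.1 _ _ (i : ℕ) i.2 (by rw [dif_pos i.2]; exact hi), smul_zero]
  have hmem : β0 ∈ G.support := by
    obtain ⟨R, hR⟩ := dom_G d m hm
    rw [MvPolynomial.mem_support_iff, hG, hR, MvPolynomial.coeff_add]
    have : (∏ j : Fin d, (X j : MvPolynomial (Fin d) ℕ) ^ m) = monomial β0 1 := by
      rw [MvPolynomial.monomial_eq, Finsupp.prod_fintype _ _ (by simp)]
      simp [hβ0]
    rw [this, MvPolynomial.coeff_monomial, if_pos rfl]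
    omega
  have h1 : Om z b d (psi d G) = (G.coeff β0) • (((m.factorial : ℕ) • (z * w - w * z) ^ m) ^ d) := by
    conv_lhs => rw [MvPolynomial.as_sum G]
    rw [map_sum, map_sum, Finset.sum_eq_single β0 hz (fun hn => absurd hmem hn), psi_monomial]
    congr 1
    have hc : W z b d (fun _ => 0) (fun i => if h : i < d then β0 ⟨i, h⟩ else 0) =
        W z b d (fun _ => 0) (fun i => if i < d then m else 0) := by
      apply W_congr
      · intros; rfl
      · intro i hi
        simp [hi, hβ0]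
    rw [hc, W_const z b _ d m hD.2]
  rw [h0, smul_pow, ← pow_mul, smul_smul] at h1
  refine ⟨G.coeff β0 * m.factorial ^ d, ?_, h1.symm⟩
  exact mul_ne_zero (MvPolynomial.mem_support_iff.mp hmem) (pow_ne_zero _ (Nat.factorial_ne_zero m))

end Nil

/-- **Nilpotency lemma.** -/
theorem nilpotency {F A : Type*} [Field F] [CharZero F] [Ring A] [Algebra F A]
    (z w : A) (d m : ℕ) (hm : d ≤ m + 1)
    (hu : z * (z * w - w * z) = (z * w - w * z) * z)
    (h : stdPoly d (fun i => w ^ m * z ^ (i : ℕ)) = 0) :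
    (z * w - w * z) ^ (m * d) = 0 := by
  obtain ⟨N, hN, h1⟩ := Nil.nilp_int z w d m hm hu h
  have h2 : (N : F) • (z * w - w * z) ^ (m * d) = 0 := by
    rw [Nat.cast_smul_eq_nsmul]; exact h1
  exact (smul_eq_zero.mp h2).resolve_left (Nat.cast_ne_zero.mpr hN)

end Pool.Agent.H.MP_7596fa_lc
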