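import Pool.Agent.H.MP_7596fa_lc.Gadget

/-!
The relator evaluated at explicit `4 × 4` matrices over a commutative ring.
-/

namespace Pool.Agent.H.MP_7596fa_lc

open Matrix

theorem diag_mul_single {C : Type*} [CommRing C] (d : Fin 4 → C) (i j : Fin 4) (c : C) :
    diagonal d * single i j c = single i j (d i * c) := by
  ext a b
  rw [Matrix.diagonal_mul]
  simp only [Matrix.single_apply]
  split_ifs with h
  · rw [h.1]
  · rw [mul_zero]

theorem single_mul_diag {C : Type*} [CommRing C] (d : Fin 4 → C) (i j : Fin 4) (c : C) :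
    single i j c * diagonal d = single i j (c * d j) := by
  ext a b
  rw [Matrix.mul_diagonal]
  simp only [Matrix.single_apply]
  split_ifs with h
  · rw [h.2]
  · rw [zero_mul]

namespace Mach

variable (M : Mach) {C : Type*} [CommRing C] (x y τ τ' s : C) (lt : M.Gen → C)

/-- diagonal entries of `z` -/
def ζ : Fin 4 → C := ![0, 1 + τ, 2, 3 + τ']

/-- the matrices -/
def mat : M.Gen → Matrix (Fin 4) (Fin 4) C
  | Sum.inl i => (![diagonal (ζ τ τ'), diagonal ![0, x, 0, y], single 0 1 1, single 3 0 s,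
      single 1 2 (lt M.gu), single 1 2 (lt M.gu'), single 2 3 (lt M.gw), single 2 3 (lt M.gw')] :
      Fin 8 → Matrix (Fin 4) (Fin 4) C) i
  | Sum.inr (Sum.inl q) => single 1 3 (lt (M.gγ q))
  | Sum.inr (Sum.inr (Sum.inl t)) => single 2 3 (lt (M.gm t))
  | Sum.inr (Sum.inr (Sum.inr t)) => single 1 2 (lt (M.gv t))

theorem mat_gz : M.mat x y τ τ' s lt M.gz = diagonal (ζ τ τ') := rfl
theorem mat_gg : M.mat x y τ τ' s lt M.gg = diagonal ![0, x, 0, y] := rfl
theorem mat_gL : M.mat x y τ τ' s lt M.gL = single 0 1 1 := rfl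
theorem mat_gR : M.mat x y τ τ' s lt M.gR = single 3 0 s := rfl
theorem mat_gu : M.mat x y τ τ' s lt M.gu = single 1 2 (lt M.gu) := rfl
theorem mat_gu' : M.mat x y τ τ' s lt M.gu' = single 1 2 (lt M.gu') := rfl
theorem mat_gw : M.mat x y τ τ' s lt M.gw = single 2 3 (lt M.gw) := rfl
theorem mat_gw' : M.mat x y τ τ' s lt M.gw' = single 2 3 (lt M.gw') := rfl
theorem mat_gγ (q) : M.mat x y τ τ' s lt (M.gγ q) = single 1 3 (lt (M.gγ q)) := rfl
theorem mat_gm (t) : M.mat x y τ τ' s lt (M.gm t) = single 2 3 (lt (M.gm t)) := rfl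
theorem mat_gv (t) : M.mat x y τ τ' s lt (M.gv t) = single 1 2 (lt (M.gv t)) := rfl

/-- matrix units -/
def E4 : Fin 4 → Matrix (Fin 4) (Fin 4) C := fun i => single i i 1

/-- value of the relations -/
def rval : M.Rel → C
  | Sum.inl q => x * lt (M.gγ q) - lt (M.gγ q) * y ^ M.A
  | Sum.inr (Sum.inl t) =>
      x * (lt M.gu * lt (M.gm t)) - lt M.gu * lt (M.gm t) * y ^ M.b t.1 t.2
  | Sum.inr (Sum.inr (Sum.inl t)) =>
      lt (M.gγ t.1) * y ^ (t.2 : ℕ) - lt (M.gv t) * lt M.gw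
  | Sum.inr (Sum.inr (Sum.inr (Sum.inl t))) =>
      lt (M.gv t) * lt M.gw' - lt M.gu * lt (M.gm t) * y ^ M.c t.1 t.2
  | Sum.inr (Sum.inr (Sum.inr (Sum.inr (Sum.inl t)))) =>
      lt M.gu' * lt (M.gm t) - lt (M.gγ (M.tgt t.1 t.2))
  | Sum.inr (Sum.inr (Sum.inr (Sum.inr (Sum.inr _)))) => lt (M.gγ M.qh)

theorem xx_mat : M.xx (M.mat x y τ τ' s lt) E4 = single 1 1 x := by
  simp [xx, mat_gg, E4, single_mul_diag]

theorem yy_mat : M.yy (M.mat x y τ τ' s lt) E4 = single 3 3 y := by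
  simp [yy, mat_gg, E4, single_mul_diag]

theorem yy_pow_mat (n : ℕ) (c : C) (i : Fin 4) :
    single i 3 c * M.yy (M.mat x y τ τ' s lt) E4 ^ n = single i 3 (c * y ^ n) := by
  induction n with
  | zero => simp
  | succ n ih => rw [pow_succ, ← mul_assoc, ih, yy_mat, single_mul_single_same, pow_succ, mul_assoc]

theorem γγ_mat (q) : M.γγ (M.mat x y τ τ' s lt) E4 q = single 1 3 (lt (M.gγ q)) := by
  simp [γγ, mat_gγ, E4]
theorem uu_mat : M.uu (M.mat x y τ τ' s lt) E4 = single 1 2 (lt M.gu) := by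
  simp [uu, mat_gu, E4]
theorem uu'_mat : M.uu' (M.mat x y τ τ' s lt) E4 = single 1 2 (lt M.gu') := by
  simp [uu', mat_gu', E4]
theorem ww_mat : M.ww (M.mat x y τ τ' s lt) E4 = single 2 3 (lt M.gw) := by
  simp [ww, mat_gw, E4]
theorem ww'_mat : M.ww' (M.mat x y τ τ' s lt) E4 = single 2 3 (lt M.gw') := by
  simp [ww', mat_gw', E4]
theorem mm_mat (t) : M.mm (M.mat x y τ τ' s lt) E4 t = single 2 3 (lt (M.gm t)) := by
  simp [mm, mat_gm, E4]
theorem vv_mat (t) : M.vv (M.mat x y τ τ' s lt) E4 t = single 1 2 (lt (M.gv t)) := by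
  simp [vv, mat_gv, E4]

theorem rel_mat (r : M.Rel) : M.rel (M.mat x y τ τ' s lt) E4 r = single 1 3 (M.rval x y lt r) := by
  rcases r with q | t | t | t | t | _ <;>
  simp only [rel, rval, xx_mat, γγ_mat, uu_mat, uu'_mat, ww_mat, ww'_mat, mm_mat, vv_mat,
    single_mul_single_same, yy_pow_mat] <;>
  simp only [sub_eq_add_neg, single_add, single_neg]

theorem gz_sub_pow (c : C) (n : ℕ) :
    (diagonal (ζ τ τ') - diagonal (fun _ => c)) ^ n = diagonal (fun i => (ζ τ τ' i - c) ^ n) := by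
  rw [Matrix.diagonal_sub, Matrix.diagonal_pow]
  rfl

theorem one_eq_diag : (1 : Matrix (Fin 4) (Fin 4) C) = diagonal (fun _ => 1) := by
  rw [← Matrix.diagonal_one]
theorem two_eq_diag : (2 : Matrix (Fin 4) (Fin 4) C) = diagonal (fun _ => 2) := by
  exact (Matrix.diagonal_ofNat' 2).symm
theorem three_eq_diag : (3 : Matrix (Fin 4) (Fin 4) C) = diagonal (fun _ => 3) := by
  exact (Matrix.diagonal_ofNat' 3).symm

/-- the packed value -/
noncomputable def rhoval : C :=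
  ∑ r : Fin M.S, τ ^ (r : ℕ) * M.rval x y lt (M.num.symm r) * τ' ^ (M.S - 1 - r)

theorem rho_mat : M.rho (M.mat x y τ τ' s lt) E4 = single 1 3 (M.rhoval x y τ τ' lt) := by
  unfold rho rhoval
  have h : ∀ r : Fin M.S, (M.mat x y τ τ' s lt M.gz - 1) ^ (r : ℕ) * M.rel (M.mat x y τ τ' s lt) E4 (M.num.symm r) *
      (M.mat x y τ τ' s lt M.gz - 3) ^ (M.S - 1 - r) =
      single 1 3 (τ ^ (r : ℕ) * M.rval x y lt (M.num.symm r) * τ' ^ (M.S - 1 - r)) := by
    intro r
    rw [rel_mat, mat_gz, one_eq_diag, three_eq_diag, gz_sub_pow, gz_sub_pow, diag_mul_single,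
      single_mul_diag]
    simp [ζ]
  rw [Finset.sum_congr rfl fun r _ => h r]
  ext i j
  simp only [Matrix.sum_apply, Matrix.single_apply]
  split_ifs <;> simp

theorem pz_mat (hτ : τ ^ M.S = 0) (hτ' : τ' ^ M.S = 0) : M.pz (M.mat x y τ τ' s lt) = 0 := by
  unfold pz
  rw [mat_gz, one_eq_diag, two_eq_diag, three_eq_diag, gz_sub_pow, gz_sub_pow, Matrix.diagonal_sub,
    Matrix.diagonal_mul_diagonal, Matrix.diagonal_mul_diagonal, Matrix.diagonal_mul_diagonal,
    ← Matrix.diagonal_zero]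
  congr 1
  funext i
  fin_cases i <;> simp [ζ, hτ, hτ']

theorem e4_mul_mul (X : Matrix (Fin 4) (Fin 4) C) (i j : Fin 4) :
    E4 i * X * E4 j = single i j (X i j) := by
  simp [E4]

theorem WW_mat : M.WW (M.mat x y τ τ' s lt) E4 =
    Matrix.of fun i j => M.blk (M.mat x y τ τ' s lt) E4 i j i j := by
  unfold WW
  simp only [e4_mul_mul]
  exact (Matrix.matrix_eq_sum_single _).symm

theorem relator_mat (hτ : τ ^ M.S = 0) (hτ' : τ' ^ M.S = 0) :
    M.relator (M.mat x y τ τ' s lt) E4 =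
      single 1 3 ((ζ τ τ' 3 - ζ τ τ' 1) * M.rhoval x y τ τ' lt) +
      single 0 2 (2 * (τ ^ (M.S - 1) * (lt M.gu - lt M.gu'))) -
      single 2 0 (2 * ((lt M.gw - lt M.gw') * τ' ^ (M.S - 1) * s)) := by
  unfold relator
  rw [pz_mat _ _ _ _ _ _ _ hτ hτ', WW_mat, mat_gz, zero_sub]
  have h01 : M.blk (M.mat x y τ τ' s lt) E4 0 1 0 1 = 0 := by
    change (M.mat x y τ τ' s lt M.gL * (M.mat x y τ τ' s lt M.gz - 1) ^ M.S) 0 1 = 0
    rw [mat_gz, one_eq_diag, gz_sub_pow, mat_gL, single_mul_diag]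
    simp [ζ, hτ]
  have h30 : M.blk (M.mat x y τ τ' s lt) E4 3 0 3 0 = 0 := by
    change ((M.mat x y τ τ' s lt M.gz - 3) ^ M.S * M.mat x y τ τ' s lt M.gR) 3 0 = 0
    rw [mat_gz, three_eq_diag, gz_sub_pow, mat_gR, diag_mul_single]
    simp [ζ, hτ']
  have h13 : M.blk (M.mat x y τ τ' s lt) E4 1 3 1 3 = M.rhoval x y τ τ' lt := by
    change M.rho (M.mat x y τ τ' s lt) E4 1 3 = _
    rw [rho_mat]; simp
  have h02 : M.blk (M.mat x y τ τ' s lt) E4 0 2 0 2 = τ ^ (M.S - 1) * (lt M.gu - lt M.gu') := by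
    change (M.mat x y τ τ' s lt M.gL * (E4 1 : Matrix (Fin 4) (Fin 4) C) *
      (M.mat x y τ τ' s lt M.gz - 1) ^ (M.S - 1) *
      (M.uu (M.mat x y τ τ' s lt) E4 - M.uu' (M.mat x y τ τ' s lt) E4) :
        Matrix (Fin 4) (Fin 4) C) 0 2 = _
    rw [mat_gz, one_eq_diag, gz_sub_pow, mat_gL, E4, single_mul_single_same, single_mul_diag,
      uu_mat, uu'_mat, mul_sub, single_mul_single_same, single_mul_single_same]
    simp [ζ]; ring
  have h20 : M.blk (M.mat x y τ τ' s lt) E4 2 0 2 0 =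
      (lt M.gw - lt M.gw') * τ' ^ (M.S - 1) * s := by
    change ((M.ww (M.mat x y τ τ' s lt) E4 - M.ww' (M.mat x y τ τ' s lt) E4) *
      (M.mat x y τ τ' s lt M.gz - 3) ^ (M.S - 1) * (E4 3 : Matrix (Fin 4) (Fin 4) C) *
      M.mat x y τ τ' s lt M.gR : Matrix (Fin 4) (Fin 4) C) 2 0 = _
    rw [mat_gz, three_eq_diag, gz_sub_pow, mat_gR, E4, ww_mat, ww'_mat, sub_mul, sub_mul, sub_mul,
      single_mul_diag, single_mul_diag, single_mul_single_same, single_mul_single_same,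
      single_mul_single_same, single_mul_single_same]
    simp [ζ]; ring
  ext i j
  fin_cases i <;> fin_cases j <;>
    simp [Matrix.sub_apply, h01, h30, h13, h02, h20, ζ] <;>
    first
      | rfl
      | (simp only [blk, Matrix.zero_apply]; ring)
      | ring

theorem test_mat (N : ℕ) : M.test (M.mat x y τ τ' s lt) E4 N =
    single 0 0 (τ ^ (M.S - 1) * lt (M.gγ M.q0) * τ' ^ (M.S - 1) * y ^ N * s) := by
  unfold test
  have h1 : (E4 0 * M.mat x y τ τ' s lt M.gL * E4 1 * (M.mat x y τ τ' s lt M.gz - 1) ^ (M.S - 1) *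
      M.mat x y τ τ' s lt (M.gγ M.q0) * E4 3 * (M.mat x y τ τ' s lt M.gz - 3) ^ (M.S - 1) :
        Matrix (Fin 4) (Fin 4) C) =
      single 0 3 (τ ^ (M.S - 1) * lt (M.gγ M.q0) * τ' ^ (M.S - 1)) := by
    rw [mat_gz, one_eq_diag, three_eq_diag, gz_sub_pow, gz_sub_pow, mat_gL, mat_gγ]
    simp only [E4, single_mul_single_same, single_mul_diag]
    simp [ζ]
  have h2 : ∀ (c : C), single 0 3 c * (M.mat x y τ τ' s lt M.gg * E4 3) ^ N =
      single 0 3 (c * y ^ N) := by
    intro c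
    induction N with
    | zero => simp
    | succ n ih =>
      rw [pow_succ, ← mul_assoc, ih, mat_gg, E4, diag_mul_single, single_mul_single_same]
      simp [pow_succ, mul_assoc]
  rw [h1, h2, mat_gR]
  simp [E4]

end Mach

open Polynomial in
theorem aeval_diagonal {F C : Type*} [Field F] [CommRing C] [Algebra F C] (d : Fin 4 → C)
    (P : F[X]) : aeval (diagonal d) P = diagonal fun i => aeval (d i) P := by
  have h : (diagonal d : Matrix (Fin 4) (Fin 4) C) = Matrix.diagonalAlgHom F d := rfl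
  rw [h, Polynomial.aeval_algHom_apply]
  change diagonal (aeval d P) = _
  congr 1
  funext i
  have := Polynomial.aeval_algHom_apply (Pi.evalAlgHom F (fun _ : Fin 4 => C) i) d P
  exact this.symm

open Polynomial in
theorem idem_mat {F C : Type*} [Field F] [CharZero F] [CommRing C] [Algebra F C] (S K D : ℕ)
    (hK : 0 < K) (hD : D ≠ 0) (E : Fin 4 → ℤ[X])
    (hE : ∀ i k : Fin 4, Pp F S k ^ K ∣ (E i).map (Int.castRingHom F) - Polynomial.C (if i = k then (D : F) else 0))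
    (τ τ' : C) (hτ : τ ^ S = 0) (hτ' : τ' ^ S = 0) :
    idem F D E (diagonal (Mach.ζ τ τ')) = Mach.E4 := by
  have hD' : (D : F) ≠ 0 := Nat.cast_ne_zero.mpr hD
  funext i
  unfold idem Mach.E4
  rw [aeval_diagonal, ← Matrix.diagonal_smul]
  rw [← Matrix.diagonal_single]
  congr 1
  funext k
  have h0 : aeval (Mach.ζ τ τ' k) (Pp F S k) = 0 := by
    have h2 : algebraMap F C 2 = 2 := map_ofNat _ 2
    have h3 : algebraMap F C 3 = 3 := map_ofNat _ 3
    fin_cases k <;> simp [Pp, mult, Mach.ζ, hτ, hτ', h2, h3]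
  have h1 : aeval (Mach.ζ τ τ' k) ((E i).map (Int.castRingHom F)) =
      algebraMap F C (if i = k then (D : F) else 0) := by
    obtain ⟨t, ht⟩ := hE i k
    have h2 : (E i).map (Int.castRingHom F) = Pp F S k ^ K * t + Polynomial.C (if i = k then (D : F) else 0) := by
      rw [← ht]; ring
    rw [h2, map_add, map_mul, map_pow, h0, zero_pow hK.ne', zero_mul, zero_add, aeval_C]
  rw [Pi.smul_apply, h1]
  by_cases hik : i = k
  · subst hik
    rw [if_pos rfl, Pi.single_eq_same, Algebra.smul_def, ← map_mul, inv_mul_cancel₀ hD', map_one]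
  · rw [if_neg hik, map_zero, smul_zero, Pi.single_eq_of_ne (Ne.symm hik)]

end Pool.Agent.H.MP_7596fa_lc
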