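import Mathlib

/-!
Register programs with loops, and a universal search program.
-/

namespace Pool.Agent.H.MP_7596fa_lc

/-- register programs -/
inductive Prog : Type
  | skip : Prog
  | inc : ℕ → Prog
  | seq : Prog → Prog → Prog
  | loop : ℕ → Prog → Prog
  deriving DecidableEq

/-- states of registers -/
abbrev St : Type := ℕ → ℕ

open Function

/-- big step semantics; `loop r P` means: while `r` is not zero, decrease `r` and run `P` -/
inductive Runs : Prog → St → St → Prop
  | skip (v) : Runs Prog.skip v v
  | inc (r v) : Runs (Prog.inc r) v (update v r (v r + 1))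
  | seq {P Q v v' v''} : Runs P v v' → Runs Q v' v'' → Runs (Prog.seq P Q) v v''
  | loop_zero {r P v} : v r = 0 → Runs (Prog.loop r P) v v
  | loop_succ {r P v v' v''} : v r ≠ 0 → Runs P (update v r (v r - 1)) v' →
      Runs (Prog.loop r P) v' v'' → Runs (Prog.loop r P) v v''

namespace Reg

open Prog

theorem Runs.to {P : Prog} {v w w' : St} (h : Runs P v w) (e : w = w') : Runs P v w' := e ▸ h

theorem Runs.from {P : Prog} {v v' w : St} (h : Runs P v w) (e : v = v') : Runs P v' w := e ▸ h

theorem loop_iter (r : ℕ) (P : Prog) (w : ℕ → St) (n : ℕ) (h0 : w 0 r = 0)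
    (h : ∀ k, k < n → w (k+1) r ≠ 0 ∧
      Runs P (update (w (k+1)) r (w (k+1) r - 1)) (w k)) : Runs (loop r P) (w n) (w 0) := by
  induction n with
  | zero => exact Runs.loop_zero h0
  | succ n ih =>
    obtain ⟨h1, h2⟩ := h n (Nat.lt_succ_self n)
    exact Runs.loop_succ h1 h2 (ih fun k hk => h k (by omega))

/-- move `r` to `s` -/
theorem mv (r s : ℕ) (hrs : r ≠ s) (v : St) :
    Runs (loop r (inc s)) v (update (update v s (v s + v r)) r 0) := by
  have := loop_iter r (inc s) (fun k => update (update v s (v s + (v r - k))) r k) (v r) (by simp)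
    (by
      intro k hk
      refine ⟨by simp, ?_⟩
      have h1 := Runs.inc s (update (update (update v s (v s + (v r - (k+1)))) r (k+1)) r k)
      have e1 : update (update (update v s (v s + (v r - (k+1)))) r (k+1)) r k =
          update (update v s (v s + (v r - (k+1)))) r k := by
        rw [update_idem]
      rw [e1] at h1
      simp only [update_self, Nat.add_sub_cancel, update_idem]
      refine Runs.to h1 ?_
      funext t
      by_cases ht : t = r
      · subst ht; simp [hrs]
      · by_cases ht' : t = s
        · subst ht'
          simp [ht]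
          omega
        · simp [ht, ht'])
  refine Runs.from (Runs.to this ?_) ?_
  · simp
  · funext t
    by_cases ht : t = r
    · subst ht; simp
    · by_cases ht' : t = s
      · subst ht'; simp [ht]
      · simp [ht]

/-- clear `r` -/
theorem clear (r : ℕ) (v : St) : Runs (loop r skip) v (update v r 0) := by
  have := loop_iter r skip (fun k => update v r k) (v r) (by simp)
    (by
      intro k hk
      refine ⟨by simp, ?_⟩
      simp only [update_self, Nat.add_sub_cancel, update_idem]
      exact Runs.skip _)
  simpa using this

/-- copy `a` to `b`, with the auxiliary register `t` -/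
theorem cp (a b t : ℕ) (hab : a ≠ b) (hat : a ≠ t) (hbt : b ≠ t) :
    ∃ P, ∀ v : St, v t = 0 → Runs P v (update v b (v b + v a)) := by
  refine ⟨seq (loop a (seq (inc b) (inc t))) (loop t (inc a)), fun v hv => ?_⟩
  have h1 := loop_iter a (seq (inc b) (inc t))
    (fun k => update (update (update v b (v b + (v a - k))) t (v a - k)) a k) (v a) (by simp)
    (by
      intro k hk
      refine ⟨by simp, ?_⟩
      simp only [update_self, Nat.add_sub_cancel, update_idem]
      have h2 := Runs.inc b (update (update (update v b (v b + (v a - (k+1)))) t (v a - (k+1))) a k)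
      have h3 := Runs.inc t (update (update (update (update v b (v b + (v a - (k+1)))) t (v a - (k+1))) a k)
        b ((update (update (update v b (v b + (v a - (k+1)))) t (v a - (k+1))) a k) b + 1))
      have h4 := Runs.seq h2 h3
      refine Runs.to h4 ?_
      funext x
      by_cases hx : x = a
      · subst hx; simp [hab, hat]
      · by_cases hx' : x = b
        · subst hx'; simp [hx, hbt]; omega
        · by_cases hx'' : x = t
          · subst hx''; simp [hx, Ne.symm hbt]; omega
          · simp [hx, hx', hx''])
  have h2 := mv t a (Ne.symm hat) (update (update (update v b (v b + (v a - 0))) t (v a - 0)) a 0)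
  have e1 : update (update (update v b (v b + (v a - v a))) t (v a - v a)) a (v a) = v := by
    funext x
    by_cases hx : x = a
    · subst hx; simp
    · by_cases hx'' : x = t
      · subst hx''; simp [hx, hv]
      · by_cases hx' : x = b
        · subst hx'; simp [hx, hbt]
        · simp [hx, hx', hx'']
  simp only [e1] at h1
  have h3 := Runs.seq h1 h2
  refine Runs.to h3 ?_
  funext x
  by_cases hx : x = a
  · subst hx; simp [hab, hat, Ne.symm hat]
  · by_cases hx'' : x = t
    · subst hx''; simp [hv, Ne.symm hbt]
    · by_cases hx' : x = b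
      · subst hx'; simp [hx, hbt]
      · simp [hx, hx', hx'']

/-- the specification of a program computing a function -/
def Computes (P : Prog) {n : ℕ} (f : List.Vector ℕ n → ℕ) (ins : Fin n → ℕ) (out B : ℕ) : Prop :=
  ∀ v : St, (∀ r, B ≤ r → v r = 0) → v out = 0 →
    Runs P v (update v out (f (List.Vector.ofFn fun i => v (ins i))))

/-- every good placement has a program -/
def Compilable {n : ℕ} (f : List.Vector ℕ n → ℕ) : Prop :=
  ∀ (ins : Fin n → ℕ) (out B : ℕ), (∀ i, ins i < B) → out < B → (∀ i, ins i ≠ out) →
    ∃ P, Computes P f ins out B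

theorem comp_zero : Compilable (n := 0) fun _ => 0 := by
  intro ins out B _ _ _
  refine ⟨skip, fun v _ h => ?_⟩
  refine Runs.to (Runs.skip v) ?_
  change v = update v out 0
  conv_rhs => rw [← h, update_eq_self]

theorem comp_get {n : ℕ} (i : Fin n) : Compilable fun v => v.get i := by
  intro ins out B hins hout hne
  obtain ⟨P, hP⟩ := cp (ins i) out B (hne i) (hins i).ne hout.ne
  refine ⟨P, fun v hv h => ?_⟩
  refine Runs.to (hP v (hv B le_rfl)) ?_
  change _ = update v out ((List.Vector.ofFn fun i => v (ins i)).get i)
  rw [h, zero_add, List.Vector.get_ofFn]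

theorem comp_succ : Compilable (n := 1) fun v => Nat.succ v.head := by
  intro ins out B hins hout hne
  obtain ⟨P, hP⟩ := cp (ins 0) out B (hne 0) (hins 0).ne hout.ne
  refine ⟨seq P (inc out), fun v hv h => ?_⟩
  have h1 := hP v (hv B le_rfl)
  refine Runs.to (Runs.seq h1 (Runs.inc out _)) ?_
  change _ = update v out ((List.Vector.ofFn fun i => v (ins i)).head + 1)
  rw [h, zero_add, update_idem, update_self, ← List.Vector.get_zero, List.Vector.get_ofFn]

/-- the state after the computation of the first `j` intermediate values -/
def mid (B j : ℕ) (g : ℕ → ℕ) (v : St) : St := fun r => if B ≤ r ∧ r < B + j then g (r - B) else v r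

theorem clear_all (B : ℕ) : ∀ j, ∃ P, ∀ v : St, Runs P v (mid B j (fun _ => 0) v) := by
  intro j
  induction j with
  | zero =>
    refine ⟨skip, fun v => Runs.to (Runs.skip v) ?_⟩
    funext r
    unfold mid
    rw [if_neg (by omega)]
  | succ j ih =>
    obtain ⟨P, hP⟩ := ih
    refine ⟨seq P (loop (B + j) skip), fun v => Runs.to (Runs.seq (hP v) (clear _ _)) ?_⟩
    funext r
    by_cases h : r = B + j
    · subst h
      simp [mid]
    · rw [update_of_ne h]
      unfold mid
      by_cases h' : B ≤ r ∧ r < B + j
      · rw [if_pos h', if_pos (by omega)]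
      · rw [if_neg h', if_neg (by omega)]

/-- intermediate values -/
def gval {m n : ℕ} (g : Fin n → List.Vector ℕ m → ℕ) (a : List.Vector ℕ m) (i : ℕ) : ℕ :=
  if h : i < n then g ⟨i, h⟩ a else 0

theorem gval_lt {m n : ℕ} (g : Fin n → List.Vector ℕ m → ℕ) (a : List.Vector ℕ m) (i : ℕ)
    (h : i < n) : gval g a i = g ⟨i, h⟩ a := by
  unfold gval; rw [dif_pos h]

theorem mid_out {B j : ℕ} {g : ℕ → ℕ} {v : St} {r : ℕ} (h : r < B ∨ B + j ≤ r) :
    mid B j g v r = v r := by
  unfold mid; rw [if_neg (by omega)]

theorem mid_in {B j : ℕ} {g : ℕ → ℕ} {v : St} {i : ℕ} (h : i < j) :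
    mid B j g v (B + i) = g i := by
  unfold mid; rw [if_pos (by omega), Nat.add_sub_cancel_left]

theorem comp_comp {m n : ℕ} {f : List.Vector ℕ n → ℕ} (g : Fin n → List.Vector ℕ m → ℕ)
    (hf : Compilable f) (hg : ∀ i, Compilable (g i)) :
    Compilable fun a => f (List.Vector.ofFn fun i => g i a) := by
  intro ins out B hins hout hne
  have h1 : ∀ j, j ≤ n → ∃ P, ∀ v : St, (∀ r, B ≤ r → v r = 0) →
      Runs P v (mid B j (gval g (List.Vector.ofFn fun i => v (ins i))) v) := by
    intro j hj
    induction j with
    | zero =>
      refine ⟨skip, fun v _ => Runs.to (Runs.skip v) ?_⟩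
      funext r
      rw [mid_out (by omega)]
    | succ j ih =>
      obtain ⟨P, hP⟩ := ih (by omega)
      obtain ⟨Q, hQ⟩ := hg ⟨j, hj⟩ ins (B + j) (B + n) (fun i => by have := hins i; omega) (by omega)
        (fun i => by have := hins i; omega)
      refine ⟨seq P Q, fun v hv => ?_⟩
      have h2 := hP v hv
      have h3 := hQ (mid B j (gval g (List.Vector.ofFn fun i => v (ins i))) v)
        (fun r hr => by rw [mid_out (by omega)]; exact hv r (by omega))
        (by rw [mid_out (by omega)]; exact hv _ (by omega))
      refine Runs.to (Runs.seq h2 h3) ?_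
      have e : (fun i => mid B j (gval g (List.Vector.ofFn fun i => v (ins i))) v (ins i)) =
          fun i => v (ins i) := by
        funext i
        rw [mid_out (by have := hins i; omega)]
      rw [e]
      funext r
      by_cases h : r = B + j
      · subst h
        rw [update_self, mid_in (by omega), gval_lt]
      · rw [update_of_ne h]
        unfold mid
        by_cases h' : B ≤ r ∧ r < B + j
        · rw [if_pos h', if_pos (by omega)]
        · rw [if_neg h', if_neg (by omega)]
  obtain ⟨P, hP⟩ := h1 n le_rfl
  obtain ⟨Q, hQ⟩ := hf (fun i => B + i) out (B + n) (fun i => by have := i.2; omega) (by omega)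
    (fun i => by omega)
  obtain ⟨R, hR⟩ := clear_all B n
  refine ⟨seq P (seq Q R), fun v hv h => ?_⟩
  have h2 := hP v hv
  set w := mid B n (gval g (List.Vector.ofFn fun i => v (ins i))) v with hw
  have h3 := hQ w (fun r hr => by
        rw [hw, mid_out (by omega)]; exact hv r (by omega)) (by
        rw [hw, mid_out (by omega)]; exact h)
  have h4 := hR (update w out (f (List.Vector.ofFn fun i => w (B + (i : ℕ)))))
  refine Runs.to (Runs.seq h2 (Runs.seq h3 h4)) ?_
  have e : (fun i : Fin n => w (B + (i : ℕ))) = fun i => g i (List.Vector.ofFn fun i => v (ins i)) := by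
    funext i
    rw [hw, mid_in i.2, gval_lt _ _ _ i.2]
  rw [e]
  funext r
  by_cases hr : r = out
  · subst hr
    rw [update_self, mid_out (by omega), update_self]
  · rw [update_of_ne hr]
    unfold mid
    by_cases h' : B ≤ r ∧ r < B + n
    · rw [if_pos h', hv r (by omega)]
    · rw [if_neg h', update_of_ne hr, hw, mid_out (by omega)]

theorem comp_prec {n : ℕ} {f : List.Vector ℕ n → ℕ} {g : List.Vector ℕ (n + 2) → ℕ}
    (hf : Compilable f) (hg : Compilable g) :
    Compilable fun v : List.Vector ℕ (n + 1) =>
      v.head.rec (f v.tail) fun y IH => g (y ::ᵥ IH ::ᵥ v.tail) := by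
  intro ins out B hins hout hne
  obtain ⟨Pf, hPf⟩ := hf (fun i => ins i.succ) B (B + 4) (fun i => by have := hins i.succ; omega)
    (by omega) (fun i => by have := hins i.succ; omega)
  obtain ⟨Pc, hPc⟩ := cp (ins 0) (B + 1) (B + 4) (by have := hins 0; omega) (by have := hins 0; omega)
    (by omega)
  obtain ⟨Pg, hPg⟩ := hg (Fin.cons (B + 2) (Fin.cons B fun i => ins i.succ)) (B + 3) (B + 4)
    (by
      intro i
      refine Fin.cases ?_ (fun i => ?_) i
      · simp
      · refine Fin.cases ?_ (fun i => ?_) i
        · simp
        · have := hins i.succ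
          simp; omega)
    (by omega)
    (by
      intro i
      refine Fin.cases ?_ (fun i => ?_) i
      · simp
      · refine Fin.cases ?_ (fun i => ?_) i
        · simp
        · have := hins i.succ
          simp; omega)
  refine ⟨seq Pf (seq Pc (seq (loop (B + 1) (seq Pg (seq (loop B skip)
    (seq (loop (B + 3) (inc B)) (inc (B + 2)))))) (seq (loop B (inc out)) (loop (B + 2) skip)))),
    fun v hv h => ?_⟩
  set a : List.Vector ℕ n := List.Vector.ofFn fun i => v (ins i.succ) with ha
  let Fv : ℕ → ℕ := fun k => Nat.rec (f a) (fun y IH => g (y ::ᵥ IH ::ᵥ a)) k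
  have hF0 : Fv 0 = f a := rfl
  have hFs : ∀ k, Fv (k+1) = g (k ::ᵥ Fv k ::ᵥ a) := fun k => rfl
  set H := v (ins 0) with hH
  -- states
  let w : ℕ → St := fun k => update (update (update v B (Fv (H - k))) (B + 1) k) (B + 2) (H - k)
  have s1 := hPf v (fun r hr => hv r (by omega)) (hv B (by omega))
  rw [← ha] at s1
  have s2 := hPc (update v B (f a)) (by rw [update_of_ne (by omega)]; exact hv _ (by omega))
  have e2 : update (update v B (f a)) (B + 1)
      ((update v B (f a)) (B + 1) + (update v B (f a)) (ins 0)) = w H := by
    have := hins 0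
    funext r
    simp only [w, Nat.sub_self, hF0]
    by_cases h1 : r = B + 1
    · subst h1
      rw [update_self, update_of_ne (by omega), update_of_ne (by omega), update_of_ne (by omega),
        update_self, hv _ (by omega), zero_add]
    · rw [update_of_ne h1]
      by_cases h2 : r = B + 2
      · subst h2
        rw [update_self, update_of_ne (by omega), hv _ (by omega)]
      · rw [update_of_ne h2, update_of_ne h1]
  rw [e2] at s2
  have s3 := loop_iter (B + 1) (seq Pg (seq (loop B skip)
    (seq (loop (B + 3) (inc B)) (inc (B + 2))))) w H (by simp [w]) (by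
      intro k hk
      refine ⟨by simp [w], ?_⟩
      have e3 : update (w (k + 1)) (B + 1) (w (k + 1) (B + 1) - 1) =
          update (update (update v B (Fv (H - (k+1)))) (B + 1) k) (B + 2) (H - (k+1)) := by
        funext r
        by_cases h1 : r = B + 1
        · subst h1; simp [w]
        · by_cases h2 : r = B + 2
          · subst h2; simp [w]
          · simp [w, h1, h2]
      rw [e3]
      set u := update (update (update v B (Fv (H - (k+1)))) (B + 1) k) (B + 2) (H - (k+1)) with hu
      have t1 := hPg u (fun r hr => by
        rw [hu, update_of_ne (by omega), update_of_ne (by omega), update_of_ne (by omega)]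
        exact hv r (by omega)) (by
        rw [hu, update_of_ne (by omega), update_of_ne (by omega), update_of_ne (by omega)]
        exact hv _ (by omega))
      have e4 : (List.Vector.ofFn fun i : Fin (n + 2) => u ((Fin.cons (B + 2)
          (Fin.cons B fun i => ins i.succ) : Fin (n + 2) → ℕ) i)) =
          (H - (k+1)) ::ᵥ Fv (H - (k+1)) ::ᵥ a := by
        rw [List.Vector.ofFn, List.Vector.ofFn]
        congr 1
        · simp [hu]
        · congr 1
          · simp [hu]
          · rw [ha]
            congr 1
            funext i
            have := hins i.succ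
            simp only [Fin.cons_succ, hu]
            rw [update_of_ne (by omega), update_of_ne (by omega), update_of_ne (by omega)]
      rw [e4, ← hFs, show H - (k + 1) + 1 = H - k by omega] at t1
      have t2 := clear B (update u (B + 3) (Fv (H - k)))
      have t3 := mv (B + 3) B (by omega) (update (update u (B + 3) (Fv (H - k))) B 0)
      have t4 := Runs.inc (B + 2) (update (update (update (update u (B + 3) (Fv (H - k))) B 0) B
        ((update (update u (B + 3) (Fv (H - k))) B 0) B +
          (update (update u (B + 3) (Fv (H - k))) B 0) (B + 3))) (B + 3) 0)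
      refine Runs.to (Runs.seq t1 (Runs.seq t2 (Runs.seq t3 t4))) ?_
      funext r
      by_cases h1 : r = B + 1
      · subst h1; simp [w, hu]
      · by_cases h2 : r = B + 2
        · subst h2
          simp [w, hu]
          omega
        · by_cases h3 : r = B
          · subst h3; simp [w]
          · by_cases h4 : r = B + 3
            · subst h4
              simp [w]
              rw [hv _ (by omega)]
            · simp [w, hu, h1, h2, h3, h4])
  have s4 := mv B out (by omega) (w 0)
  have s5 := clear (B + 2) (update (update (w 0) out ((w 0) out + (w 0) B)) B 0)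
  refine Runs.to (Runs.seq s1 (Runs.seq s2 (Runs.seq s3 (Runs.seq s4 s5)))) ?_
  have e5 : (List.Vector.ofFn fun i => v (ins i)) = H ::ᵥ a := by
    rw [List.Vector.ofFn]
  change _ = update v out ((List.Vector.ofFn fun i => v (ins i)).head.rec
    (f (List.Vector.ofFn fun i => v (ins i)).tail) fun y IH => g (y ::ᵥ IH ::ᵥ (List.Vector.ofFn fun i => v (ins i)).tail))
  rw [e5, List.Vector.head_cons, List.Vector.tail_cons]
  change _ = update v out (Fv H)
  funext r
  by_cases h3 : r = B
  · subst h3
    simp [w]
    rw [update_of_ne (by omega), hv _ (by omega)]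
  · by_cases h2 : r = B + 2
    · subst h2
      rw [update_self, update_of_ne (by omega), hv _ (by omega)]
    · rw [update_of_ne h2, update_of_ne h3]
      by_cases h4 : r = out
      · subst h4
        simp only [update_self, w]
        rw [update_of_ne (by omega), update_of_ne (by omega), update_of_ne (by omega), h, zero_add,
          update_of_ne (by omega), update_of_ne (by omega), update_self, Nat.sub_zero]
      · rw [update_of_ne h4, update_of_ne h4]
        by_cases h1 : r = B + 1
        · subst h1
          simp [w]
          rw [hv _ (by omega)]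
        · simp [w, h1, h2, h3]

theorem compile {n : ℕ} {f : List.Vector ℕ n → ℕ} (hf : Nat.Primrec' f) : Compilable f := by
  induction hf with
  | zero => exact comp_zero
  | succ => exact comp_succ
  | get i => exact comp_get i
  | comp g _ _ hf hg => exact comp_comp g hf hg
  | prec _ _ hf hg => exact comp_prec hf hg

end Reg

end Pool.Agent.H.MP_7596fa_lc
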