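import Pool.Agent.H.MP_7596fa_lc.Reg

/-!
The unbounded search program and the small step semantics.
-/

namespace Pool.Agent.H.MP_7596fa_lc

open Function Prog

/-- small step semantics with a list of continuations -/
def sstep : List Prog × St → List Prog × St
  | ([], v) => ([], v)
  | (Prog.skip :: K, v) => (K, v)
  | (Prog.inc r :: K, v) => (K, update v r (v r + 1))
  | (Prog.seq P Q :: K, v) => (P :: Q :: K, v)
  | (Prog.loop r P :: K, v) =>
      if v r = 0 then (K, v) else (P :: Prog.loop r P :: K, update v r (v r - 1))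

theorem sstep_zero {r : ℕ} {P : Prog} {K : List Prog} {v : St} (h : v r = 0) :
    sstep (Prog.loop r P :: K, v) = (K, v) := by
  change (if v r = 0 then (K, v) else (P :: Prog.loop r P :: K, update v r (v r - 1))) = _
  rw [if_pos h]

theorem sstep_succ {r : ℕ} {P : Prog} {K : List Prog} {v : St} (h : v r ≠ 0) :
    sstep (Prog.loop r P :: K, v) = (P :: Prog.loop r P :: K, update v r (v r - 1)) := by
  change (if v r = 0 then (K, v) else (P :: Prog.loop r P :: K, update v r (v r - 1))) = _
  rw [if_neg h]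

theorem runs_sstep {P : Prog} {v v' : St} (h : Runs P v v') :
    ∀ K, ∃ t, sstep^[t + 1] (P :: K, v) = (K, v') := by
  induction h with
  | skip v => exact fun K => ⟨0, rfl⟩
  | inc r v => exact fun K => ⟨0, rfl⟩
  | @seq P Q v v' v'' _ _ ih1 ih2 =>
    intro K
    obtain ⟨t1, h1⟩ := ih1 (Q :: K)
    obtain ⟨t2, h2⟩ := ih2 K
    refine ⟨(t2 + 1) + (t1 + 1), ?_⟩
    rw [Function.iterate_succ_apply]
    change sstep^[(t2 + 1) + (t1 + 1)] (P :: Q :: K, v) = _
    rw [Function.iterate_add_apply, h1, h2]
  | @loop_zero r P v h =>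
    intro K
    exact ⟨0, sstep_zero h⟩
  | @loop_succ r P v v' v'' h _ _ ih1 ih2 =>
    intro K
    obtain ⟨t1, h1⟩ := ih1 (Prog.loop r P :: K)
    obtain ⟨t2, h2⟩ := ih2 K
    refine ⟨(t2 + 1) + (t1 + 1), ?_⟩
    rw [Function.iterate_succ_apply]
    rw [sstep_succ h, Function.iterate_add_apply, h1, h2]

/-- states used by the search -/
def sst (n k fl : ℕ) : St := fun r => if r = 0 then n else if r = 1 then k else if r = 2 then fl else 0

theorem loop_clear (v : St) : Runs (Prog.loop 3 (Prog.loop 2 Prog.skip)) v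
    (update (update v 2 (if v 3 = 0 then v 2 else 0)) 3 0) := by
  have h := Reg.loop_iter 3 (Prog.loop 2 Prog.skip)
    (fun k => update (update v 2 (if k = v 3 then v 2 else 0)) 3 k) (v 3) (by simp) (by
      intro k hk
      refine ⟨by simp, ?_⟩
      refine Reg.Runs.to (Reg.clear 2 _) ?_
      funext r
      by_cases h3 : r = 3
      · subst h3; simp
      · by_cases h2 : r = 2
        · subst h2
          simp
          omega
        · simp [h2, h3])
  refine Reg.Runs.from (Reg.Runs.to h ?_) ?_
  · simp only [eq_comm (a := 0)]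
  · funext r
    by_cases h3 : r = 3
    · subst h3; simp
    · by_cases h2 : r = 2
      · subst h2; simp
      · simp [h2, h3]

theorem exists_body (g : ℕ → ℕ → ℕ) (hg : Primrec₂ g) : ∃ body : Prog, ∀ n k,
    Runs body (sst n k 0) (sst n (k + 1) (if g n k = 0 then 1 else 0)) := by
  have h1 : Nat.Primrec' (fun v : List.Vector ℕ 2 => g v.head v.tail.head) :=
    Nat.Primrec'.prim_iff₂.mpr hg
  obtain ⟨P, hP⟩ := Reg.compile h1 (fun i => (i : ℕ)) 3 4 (fun i => by omega) (by omega)
    (fun i => by omega)
  refine ⟨Prog.seq P (Prog.seq (Prog.inc 2) (Prog.seq (Prog.loop 3 (Prog.loop 2 Prog.skip))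
    (Prog.inc 1))), fun n k => ?_⟩
  have s1 := hP (sst n k 0) (fun r hr => by
    unfold sst; rw [if_neg (by omega), if_neg (by omega), if_neg (by omega)]) (by simp [sst])
  have e1 : (fun v : List.Vector ℕ 2 => g v.head v.tail.head)
      (List.Vector.ofFn fun i : Fin 2 => sst n k 0 (i : ℕ)) = g n k := by
    rfl
  rw [e1] at s1
  have s2 := Runs.inc 2 (update (sst n k 0) 3 (g n k))
  have s3 := loop_clear (update (update (sst n k 0) 3 (g n k)) 2
    ((update (sst n k 0) 3 (g n k)) 2 + 1))
  refine Reg.Runs.to (Runs.seq s1 (Runs.seq s2 (Runs.seq s3 (Runs.inc 1 _)))) ?_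
  funext r
  by_cases h3 : r = 3
  · subst h3; simp [sst]
  · by_cases h2 : r = 2
    · subst h2; simp [sst]
    · by_cases h1 : r = 1
      · subst h1; simp [sst]
      · simp [sst, h1, h2, h3]

/-- halting of the small step machine -/
def HaltsS (body : Prog) (n : ℕ) : Prop :=
  ∃ t, (sstep^[t] ([Prog.loop 2 body], sst n 0 1)).1 = []

theorem sstep_nil (t : ℕ) (v : St) : sstep^[t] ([], v) = ([], v) := by
  induction t with
  | zero => rfl
  | succ t ih => rw [Function.iterate_succ_apply]; exact ih

theorem halts_later {c : List Prog × St} {t t' : ℕ} (h : (sstep^[t] c).1 = []) (htt : t ≤ t') :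
    (sstep^[t'] c).1 = [] := by
  obtain ⟨d, rfl⟩ := Nat.exists_eq_add_of_le htt
  rw [Nat.add_comm, Function.iterate_add_apply]
  have : sstep^[t] c = ([], (sstep^[t] c).2) := by rw [← h]
  rw [this, sstep_nil]

theorem haltsS_iff (g : ℕ → ℕ → ℕ) (body : Prog) (hb : ∀ n k,
    Runs body (sst n k 0) (sst n (k + 1) (if g n k = 0 then 1 else 0))) (n : ℕ) :
    HaltsS body n ↔ ∃ k, g n k ≠ 0 := by
  have iter : ∀ k, ∃ t, sstep^[t + 1] ([Prog.loop 2 body], sst n k 1) =
      ([Prog.loop 2 body], sst n (k + 1) (if g n k = 0 then 1 else 0)) := by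
    intro k
    obtain ⟨t, ht⟩ := runs_sstep (hb n k) [Prog.loop 2 body]
    refine ⟨t + 1, ?_⟩
    rw [Function.iterate_succ_apply]
    have e : sstep ([Prog.loop 2 body], sst n k 1) = (body :: [Prog.loop 2 body], sst n k 0) := by
      rw [sstep_succ (by simp [sst])]
      congr 1
      funext r
      by_cases h2 : r = 2
      · subst h2; simp [sst]
      · simp [sst, h2]
    rw [e, ht]
  have reach : ∀ j, (∀ k, k < j → g n k = 0) →
      ∃ t, j ≤ t ∧ sstep^[t] ([Prog.loop 2 body], sst n 0 1) = ([Prog.loop 2 body], sst n j 1) := by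
    intro j
    induction j with
    | zero => exact fun _ => ⟨0, le_rfl, rfl⟩
    | succ j ih =>
      intro h
      obtain ⟨t, ht, ht2⟩ := ih fun k hk => h k (by omega)
      obtain ⟨t', ht'⟩ := iter j
      rw [if_pos (h j (by omega))] at ht'
      refine ⟨(t' + 1) + t, by omega, ?_⟩
      rw [Function.iterate_add_apply, ht2, ht']
  constructor
  · rintro ⟨t, ht⟩
    by_contra hno
    push Not at hno
    obtain ⟨t', h1, h2⟩ := reach t fun k _ => hno k
    have h3 := halts_later ht h1
    rw [h2] at h3
    exact absurd h3 (by simp)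
  · intro hex
    classical
    obtain ⟨t, ht, ht2⟩ := reach (Nat.find hex) fun k hk => by
      have := Nat.find_min hex hk
      push Not at this
      exact this
    obtain ⟨t', ht'⟩ := iter (Nat.find hex)
    rw [if_neg (Nat.find_spec hex)] at ht'
    refine ⟨1 + ((t' + 1) + t), ?_⟩
    rw [Function.iterate_add_apply, Function.iterate_add_apply, ht2, ht']
    rw [Function.iterate_one, sstep_zero (by simp [sst])]

end Pool.Agent.H.MP_7596fa_lc
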