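import Pool.Agent.H.MP_7596fa_lc.Mach

/-!
The derivation: if the machine halts, then the test element vanishes.
-/

namespace Pool.Agent.H.MP_7596fa_lc

section ctx

variable {B : Type*} [Ring B]

theorem comm_pow_aux (ν x c : B) (S : ℕ) (h : ν * x - x * ν = ν ^ S * c) (k : ℕ) :
    ∃ t, ν ^ k * x = x * ν ^ k + ν ^ S * t := by
  induction k with
  | zero => exact ⟨0, by simp⟩
  | succ k ih =>
    obtain ⟨t, ht⟩ := ih
    refine ⟨c * ν ^ k + ν * t, ?_⟩
    have h1 : ν * x = x * ν + ν ^ S * c := by rw [← h]; abel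
    have h2 : ν * ν ^ S = ν ^ S * ν := by rw [← pow_succ, ← pow_succ']
    calc ν ^ (k+1) * x = ν * (ν ^ k * x) := by rw [pow_succ', mul_assoc]
      _ = (ν * x) * ν ^ k + (ν * ν ^ S) * t := by rw [ht]; noncomm_ring
      _ = x * ν ^ (k+1) + ν ^ S * (c * ν ^ k + ν * t) := by
        rw [h1, h2, pow_succ' ν k]; noncomm_ring

theorem ctxL (ν x c l : B) (S : ℕ) (h : ν * x - x * ν = ν ^ S * c) (hl : l * ν ^ S = 0) (m : ℕ) :
    l * x ^ m * ν ^ S = 0 := by
  induction m with
  | zero => simpa using hl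
  | succ m ih =>
    obtain ⟨t, ht⟩ := comm_pow_aux ν x c S h S
    have h1 : x * ν ^ S = ν ^ S * (x - t) := by
      rw [mul_sub, ht]; abel
    rw [pow_succ, ← mul_assoc, mul_assoc _ x, h1, ← mul_assoc, ih, zero_mul]

theorem ctxL_comm (ν x c l : B) (S : ℕ) (h : ν * x - x * ν = ν ^ S * c) (hl : l * ν ^ S = 0)
    (m k : ℕ) : l * x ^ m * ν ^ k * x = l * x ^ (m+1) * ν ^ k := by
  obtain ⟨t, ht⟩ := comm_pow_aux ν x c S h k
  rw [mul_assoc _ (ν ^ k) x, ht, mul_add, ← mul_assoc (l * x ^ m) (ν ^ S) t,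
    ctxL ν x c l S h hl m, zero_mul, add_zero, pow_succ, ← mul_assoc, mul_assoc l]

theorem comm_pow_aux' (ν x c : B) (S : ℕ) (h : ν * x - x * ν = c * ν ^ S) (k : ℕ) :
    ∃ t, x * ν ^ k = ν ^ k * x + t * ν ^ S := by
  induction k with
  | zero => exact ⟨0, by simp⟩
  | succ k ih =>
    obtain ⟨t, ht⟩ := ih
    refine ⟨-(ν ^ k * c) + t * ν, ?_⟩
    have h1 : x * ν = ν * x - c * ν ^ S := by rw [← h]; abel
    have h2 : ν ^ S * ν = ν * ν ^ S := by rw [← pow_succ, ← pow_succ']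
    calc x * ν ^ (k+1) = (x * ν ^ k) * ν := by rw [pow_succ, mul_assoc]
      _ = ν ^ k * (x * ν) + t * (ν ^ S * ν) := by rw [ht]; noncomm_ring
      _ = ν ^ (k+1) * x + (-(ν ^ k * c) + t * ν) * ν ^ S := by
        rw [h1, h2, pow_succ ν k]; noncomm_ring

theorem ctxR (ν x c r : B) (S : ℕ) (h : ν * x - x * ν = c * ν ^ S) (hr : ν ^ S * r = 0) (m : ℕ) :
    ν ^ S * (x ^ m * r) = 0 := by
  induction m with
  | zero => simpa using hr
  | succ m ih =>
    obtain ⟨t, ht⟩ := comm_pow_aux' ν x c S h S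
    have h1 : ν ^ S * x = (x - t) * ν ^ S := by
      rw [sub_mul, ht]; abel
    rw [pow_succ', mul_assoc x, ← mul_assoc, h1, mul_assoc, ih, mul_zero]

theorem ctxR_comm (ν x c r : B) (S : ℕ) (h : ν * x - x * ν = c * ν ^ S) (hr : ν ^ S * r = 0)
    (m k : ℕ) : x * (ν ^ k * (x ^ m * r)) = ν ^ k * (x ^ (m+1) * r) := by
  obtain ⟨t, ht⟩ := comm_pow_aux' ν x c S h k
  rw [← mul_assoc x, ht, add_mul, mul_assoc t, ctxR ν x c r S h hr m, mul_zero, add_zero,
    pow_succ' x, mul_assoc x, mul_assoc]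

/-- isolating one relation in a packed sum -/
theorem unpack (ν ν' l r : B) (S : ℕ) (hl : l * ν ^ S = 0) (hr : ν' ^ S * r = 0)
    (t : Fin S → B) (h : ∑ s : Fin S, ν ^ (s : ℕ) * t s * ν' ^ (S - 1 - s) = 0) (s : Fin S) :
    l * ν ^ (S-1) * t s * (ν' ^ (S-1) * r) = 0 := by
  have hs := s.2
  have h1 : l * ν ^ (S - 1 - s) * (∑ s' : Fin S, ν ^ (s' : ℕ) * t s' * ν' ^ (S - 1 - s')) *
      (ν' ^ (s : ℕ) * r) = 0 := by rw [h]; simp
  rw [Finset.mul_sum, Finset.sum_mul] at h1
  rw [Finset.sum_eq_single s] at h1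
  · have e1 : l * ν ^ (S - 1 - s) * (ν ^ (s : ℕ) * t s * ν' ^ (S - 1 - s)) * (ν' ^ (s : ℕ) * r) =
      l * (ν ^ (S - 1 - s) * ν ^ (s : ℕ)) * t s * ((ν' ^ (S - 1 - s) * ν' ^ (s : ℕ)) * r) := by
      noncomm_ring
    rw [e1, ← pow_add, ← pow_add] at h1
    have e2 : S - 1 - (s : ℕ) + s = S - 1 := by omega
    rwa [e2] at h1
  · intro s' _ hne
    have hs' := s'.2
    have e1 : l * ν ^ (S - 1 - s) * (ν ^ (s' : ℕ) * t s' * ν' ^ (S - 1 - s')) * (ν' ^ (s : ℕ) * r) =
      l * (ν ^ (S - 1 - s) * ν ^ (s' : ℕ)) * t s' * ((ν' ^ (S - 1 - s') * ν' ^ (s : ℕ)) * r) := by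
      noncomm_ring
    rw [e1, ← pow_add, ← pow_add]
    rcases lt_or_gt_of_ne (fun h => hne (Fin.ext h) : (s' : ℕ) ≠ s) with hlt | hgt
    · -- s' < s : the right side vanishes
      have e2 : S - 1 - (s' : ℕ) + s = (s - s' - 1) + S := by omega
      rw [e2, pow_add ν', mul_assoc (ν' ^ ((s:ℕ) - s' - 1)), hr]
      simp
    · have e2 : S - 1 - (s : ℕ) + s' = S + (s' - s - 1) := by omega
      rw [e2, pow_add ν, ← mul_assoc l, hl]
      simp
  · simp

end ctx

namespace Mach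

variable (M : Mach) {B : Type*} [Ring B] (a : M.Gen → B) (e : Fin 4 → B)

theorem WW_block (he : ∀ i j, e i * e j = if i = j then e i else 0) (i j : Fin 4) :
    e i * M.WW a e * e j = e i * M.blk a e i j * e j := by
  unfold WW
  rw [Finset.mul_sum, Finset.sum_mul, Finset.sum_eq_single i]
  · rw [Finset.mul_sum, Finset.sum_mul, Finset.sum_eq_single j]
    · have h1 : e i * (e i * M.blk a e i j * e j) * e j = (e i * e i) * M.blk a e i j * (e j * e j) := by
        noncomm_ring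
      rw [h1, he, he, if_pos rfl, if_pos rfl]
    · intro j' _ hne
      rw [mul_assoc, mul_assoc _ (e j') (e j), he, if_neg hne]
      simp
    · simp
  · intro i' _ hne
    rw [Finset.mul_sum, Finset.sum_mul]
    apply Finset.sum_eq_zero
    intro j' _
    have h1 : e i * (e i' * M.blk a e i' j' * e j') * e j = (e i * e i') * M.blk a e i' j' * (e j' * e j) := by
      noncomm_ring
    rw [h1, he, if_neg (Ne.symm hne)]
    simp
  · simp

section deriv

variable (he : ∀ i j, e i * e j = if i = j then e i else 0)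
  (hz : ∀ i, Commute (a M.gz) (e i))
  (hoff : ∀ i j, i ≠ j → e i * M.WW a e * e j = 0)
  (hrel : a M.gz * M.WW a e - M.WW a e * a M.gz = M.pz a)

include he in
theorem ee (i : Fin 4) : e i * e i = e i := by rw [he, if_pos rfl]

include he in
theorem xx_l : e 1 * M.xx a e = M.xx a e := by
  unfold xx; rw [← mul_assoc, ← mul_assoc, ee e he]

include he in
theorem xx_r : M.xx a e * e 1 = M.xx a e := by
  unfold xx; rw [mul_assoc, ee e he]

include he in
theorem yy_l : e 3 * M.yy a e = M.yy a e := by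
  unfold yy; rw [← mul_assoc, ← mul_assoc, ee e he]

include he in
theorem yy_r : M.yy a e * e 3 = M.yy a e := by
  unfold yy; rw [mul_assoc, ee e he]

include he in
theorem yy_pow_comm (n : ℕ) : M.yy a e ^ n * e 3 = e 3 * M.yy a e ^ n := by
  have : Commute (M.yy a e) (e 3) := by
    unfold Commute SemiconjBy; rw [yy_l M a e he, yy_r M a e he]
  exact (this.pow_left n).eq

include he in
theorem γγ_l (q) : e 1 * M.γγ a e q = M.γγ a e q := by
  unfold γγ; rw [← mul_assoc, ← mul_assoc, ee e he]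

include he in
theorem γγ_r (q) : M.γγ a e q * e 3 = M.γγ a e q := by
  unfold γγ; rw [mul_assoc, ee e he]

include he in
theorem uu_l : e 1 * M.uu a e = M.uu a e := by
  unfold uu; rw [← mul_assoc, ← mul_assoc, ee e he]

include he in
theorem uu_r : M.uu a e * e 2 = M.uu a e := by
  unfold uu; rw [mul_assoc, ee e he]

include he in
theorem uu'_l : e 1 * M.uu' a e = M.uu' a e := by
  unfold uu'; rw [← mul_assoc, ← mul_assoc, ee e he]

include he in
theorem uu'_r : M.uu' a e * e 2 = M.uu' a e := by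
  unfold uu'; rw [mul_assoc, ee e he]

include he in
theorem ww_l : e 2 * M.ww a e = M.ww a e := by
  unfold ww; rw [← mul_assoc, ← mul_assoc, ee e he]

include he in
theorem ww_r : M.ww a e * e 3 = M.ww a e := by
  unfold ww; rw [mul_assoc, ee e he]

include he in
theorem ww'_l : e 2 * M.ww' a e = M.ww' a e := by
  unfold ww'; rw [← mul_assoc, ← mul_assoc, ee e he]

include he in
theorem ww'_r : M.ww' a e * e 3 = M.ww' a e := by
  unfold ww'; rw [mul_assoc, ee e he]

include he in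
theorem mm_r (t) : M.mm a e t * e 3 = M.mm a e t := by
  unfold mm; rw [mul_assoc, ee e he]

include he in
theorem vv_l (t) : e 1 * M.vv a e t = M.vv a e t := by
  unfold vv; rw [← mul_assoc, ← mul_assoc, ee e he]

include he in
theorem mul_yy_pow_r {c : B} (hc : c * e 3 = c) (n : ℕ) :
    c * M.yy a e ^ n * e 3 = c * M.yy a e ^ n := by
  rw [mul_assoc, yy_pow_comm M a e he, ← mul_assoc, hc]

include he in
theorem rel_lr (s : M.Rel) : e 1 * M.rel a e s * e 3 = M.rel a e s := by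
  have hγl := γγ_l M a e he
  have hγr := γγ_r M a e he
  have hxl := xx_l M a e he
  have hum : ∀ t, (M.uu a e * M.mm a e t) * e 3 = M.uu a e * M.mm a e t := fun t => by
    rw [mul_assoc, mm_r M a e he]
  rcases s with q | t | t | t | t | u
  · simp only [rel]
    rw [mul_sub, sub_mul, ← mul_assoc (e 1) (M.xx a e), hxl, mul_assoc (M.xx a e), hγr,
      ← mul_assoc (e 1), hγl, mul_yy_pow_r M a e he (hγr q)]
  · simp only [rel]
    rw [mul_sub, sub_mul, ← mul_assoc (e 1) (M.xx a e), hxl, mul_assoc (M.xx a e), hum,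
      ← mul_assoc (e 1), ← mul_assoc (e 1), uu_l M a e he, mul_yy_pow_r M a e he (hum t)]
  · simp only [rel]
    rw [mul_sub, sub_mul, ← mul_assoc (e 1) (M.γγ a e t.1), hγl, mul_yy_pow_r M a e he (hγr _),
      ← mul_assoc (e 1), vv_l M a e he, mul_assoc (M.vv a e t), ww_r M a e he]
  · simp only [rel]
    rw [mul_sub, sub_mul, ← mul_assoc (e 1) (M.vv a e t), vv_l M a e he, mul_assoc (M.vv a e t),
      ww'_r M a e he, ← mul_assoc (e 1), ← mul_assoc (e 1), uu_l M a e he,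
      mul_yy_pow_r M a e he (hum t)]
  · simp only [rel]
    rw [mul_sub, sub_mul, ← mul_assoc (e 1) (M.uu' a e), uu'_l M a e he, mul_assoc (M.uu' a e),
      mm_r M a e he, hγl, hγr]
  · simp only [rel]
    rw [hγl, hγr]

/-- left context -/
def TL (m : ℕ) : B := e 0 * a M.gL * e 1 * M.xx a e ^ m * (a M.gz - 1) ^ (M.S - 1)
/-- right context -/
def TR (n : ℕ) : B := (a M.gz - 3) ^ (M.S - 1) * (M.yy a e ^ n * (e 3 * a M.gR * e 0))

include hz in
theorem commZ (i : Fin 4) (c : B) (hc : Commute (a M.gz) c) : Commute (a M.gz - c) (a M.gz) :=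
  ((Commute.refl _).sub_left hc.symm)

include he hz hoff hrel in
theorem main_facts :
    (∀ m, M.TL a e m * M.xx a e = M.TL a e (m+1)) ∧
    (∀ n, M.yy a e * M.TR a e n = M.TR a e (n+1)) ∧
    (∀ s m n, M.TL a e m * M.rel a e s * M.TR a e n = 0) ∧
    (M.TL a e 0 * M.uu a e = M.TL a e 0 * M.uu' a e) ∧
    (M.ww a e * M.TR a e 0 = M.ww' a e * M.TR a e 0) := by
  set z := a M.gz with hzdef
  have hc1 : Commute z (z - 1) := (Commute.refl z).sub_right (Commute.one_right z)
  have hc2 : Commute z (z - 2) := (Commute.refl z).sub_right (Commute.ofNat_right z 2)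
  have hc3 : Commute z (z - 3) := (Commute.refl z).sub_right (Commute.ofNat_right z 3)
  have hc13 : Commute (z - 1) (z - 3) := (hc3).sub_left (Commute.one_left _)
  have hc12 : Commute (z - 1) (z - 2) := (hc2).sub_left (Commute.one_left _)
  have hc23 : Commute (z - 2) (z - 3) := (hc3).sub_left (Commute.ofNat_left 2 _)
  have he1 : ∀ i, Commute (z - 1) (e i) := fun i => (hz i).sub_left (Commute.one_left _)
  have he2 : ∀ i, Commute (z - 2) (e i) := fun i => (hz i).sub_left (Commute.ofNat_left 2 _)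
  have he3 : ∀ i, Commute (z - 3) (e i) := fun i => (hz i).sub_left (Commute.ofNat_left 3 _)
  have hpz : M.pz a = z * (z - 1) ^ M.S * (z - 2) * (z - 3) ^ M.S := rfl
  have hpe : ∀ i, Commute (M.pz a) (e i) := fun i => by
    rw [hpz]
    exact (((hz i).mul_left ((he1 i).pow_left _)).mul_left (he2 i)).mul_left ((he3 i).pow_left _)
  -- the diagonal blocks
  have hdiag : ∀ i : Fin 4, z * (e i * M.WW a e * e i) - (e i * M.WW a e * e i) * z =
      M.pz a * e i := by
    intro i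
    have h1 : z * (e i * M.WW a e * e i) - (e i * M.WW a e * e i) * z =
        e i * (z * M.WW a e - M.WW a e * z) * e i := by
      rw [mul_sub, sub_mul]
      congr 1
      · rw [← mul_assoc, ← mul_assoc, (hz i).eq]; noncomm_ring
      · rw [mul_assoc _ (e i) z, ← (hz i).eq]; noncomm_ring
    rw [h1, hrel, ← (hpe i).eq, mul_assoc, ee e he]
  have hx : e 1 * M.WW a e * e 1 = M.xx a e := by
    rw [WW_block M a e he]; rfl
  have hy : e 3 * M.WW a e * e 3 = M.yy a e := by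
    rw [WW_block M a e he]; rfl
  have hdx : (z - 1) * M.xx a e - M.xx a e * (z - 1) =
      (z - 1) ^ M.S * (z * (z - 2) * (z - 3) ^ M.S * e 1) := by
    have h1 := hdiag 1
    rw [hx] at h1
    have h2 : (z - 1) * M.xx a e - M.xx a e * (z - 1) = z * M.xx a e - M.xx a e * z := by
      noncomm_ring
    rw [h2, h1, hpz, (hc1.pow_right M.S).eq]
    noncomm_ring
  have hdy : (z - 3) * M.yy a e - M.yy a e * (z - 3) =
      (z * (z - 1) ^ M.S * (z - 2) * e 3) * (z - 3) ^ M.S := by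
    have h1 := hdiag 3
    rw [hy] at h1
    have h2 : (z - 3) * M.yy a e - M.yy a e * (z - 3) = z * M.yy a e - M.yy a e * z := by
      have : (3 : B) * M.yy a e = M.yy a e * 3 := (Commute.ofNat_left 3 _).eq
      rw [sub_mul, mul_sub, this]; abel
    rw [h2, h1, hpz, mul_assoc _ ((z - 3) ^ M.S), ((he3 3).pow_left M.S).eq]
    noncomm_ring
  -- the off-diagonal blocks
  have hl : e 0 * a M.gL * e 1 * (z - 1) ^ M.S = 0 := by
    have h1 := hoff 0 1 (by decide)
    rw [WW_block M a e he] at h1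
    have h2 : e 0 * M.blk a e 0 1 * e 1 = e 0 * (a M.gL * (z - 1) ^ M.S) * e 1 := rfl
    rw [h2] at h1
    rw [← h1, mul_assoc _ (e 1), ← ((he1 1).pow_left M.S).eq]
    noncomm_ring
  have hr : (z - 3) ^ M.S * (e 3 * a M.gR * e 0) = 0 := by
    have h1 := hoff 3 0 (by decide)
    rw [WW_block M a e he] at h1
    have h2 : e 3 * M.blk a e 3 0 * e 0 = e 3 * ((z - 3) ^ M.S * a M.gR) * e 0 := rfl
    rw [h2] at h1
    rw [← h1, ← mul_assoc, ← mul_assoc, ((he3 3).pow_left M.S).eq]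
    noncomm_ring
  have hrho : ∑ s : Fin M.S, (z - 1) ^ (s : ℕ) * M.rel a e (M.num.symm s) *
      (z - 3) ^ (M.S - 1 - s) = 0 := by
    have h1 := hoff 1 3 (by decide)
    rw [WW_block M a e he] at h1
    have h2 : e 1 * M.blk a e 1 3 * e 3 = e 1 * M.rho a e * e 3 := rfl
    rw [h2, rho, Finset.mul_sum, Finset.sum_mul] at h1
    rw [← h1]
    apply Finset.sum_congr rfl
    intro s _
    rw [← hzdef]
    have h3 : e 1 * ((z - 1) ^ (s : ℕ) * M.rel a e (M.num.symm s) * (z - 3) ^ (M.S - 1 - s)) * e 3 =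
        (z - 1) ^ (s : ℕ) * (e 1 * M.rel a e (M.num.symm s) * e 3) * (z - 3) ^ (M.S - 1 - s) := by
      have h4 := ((he1 1).pow_left (s : ℕ)).eq
      have h5 := ((he3 3).pow_left (M.S - 1 - s)).eq
      calc e 1 * ((z - 1) ^ (s : ℕ) * M.rel a e (M.num.symm s) * (z - 3) ^ (M.S - 1 - s)) * e 3
          = (e 1 * (z - 1) ^ (s : ℕ)) * M.rel a e (M.num.symm s) * ((z - 3) ^ (M.S - 1 - s) * e 3) := by
            noncomm_ring
        _ = _ := by rw [← h4, h5]; noncomm_ring
    rw [h3, rel_lr M a e he]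
  refine ⟨?_, ?_, ?_, ?_, ?_⟩
  · intro m
    exact ctxL_comm (z - 1) (M.xx a e) _ _ M.S hdx hl m (M.S - 1)
  · intro n
    exact ctxR_comm (z - 3) (M.yy a e) _ _ M.S hdy hr n (M.S - 1)
  · intro s m n
    have h1 := unpack (z - 1) (z - 3) (e 0 * a M.gL * e 1 * M.xx a e ^ m)
      (M.yy a e ^ n * (e 3 * a M.gR * e 0)) M.S
      (ctxL (z - 1) (M.xx a e) _ _ M.S hdx hl m) (ctxR (z - 3) (M.yy a e) _ _ M.S hdy hr n)
      (fun s => M.rel a e (M.num.symm s)) hrho (M.num s)
    rw [Equiv.symm_apply_apply] at h1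
    exact h1
  · have h1 := hoff 0 2 (by decide)
    rw [WW_block M a e he] at h1
    have h2 : e 0 * M.blk a e 0 2 * e 2 =
      e 0 * (a M.gL * e 1 * (z - 1) ^ (M.S - 1) * (M.uu a e - M.uu' a e)) * e 2 := rfl
    rw [h2] at h1
    rw [← sub_eq_zero, ← mul_sub, ← h1, TL, ← hzdef, pow_zero]
    have h3 : (M.uu a e - M.uu' a e) * e 2 = M.uu a e - M.uu' a e := by
      rw [sub_mul, uu_r M a e he, uu'_r M a e he]
    calc e 0 * a M.gL * e 1 * 1 * (z - 1) ^ (M.S - 1) * (M.uu a e - M.uu' a e)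
        = e 0 * a M.gL * e 1 * 1 * (z - 1) ^ (M.S - 1) * ((M.uu a e - M.uu' a e) * e 2) := by rw [h3]
      _ = _ := by noncomm_ring
  · have h1 := hoff 2 0 (by decide)
    rw [WW_block M a e he] at h1
    have h2 : e 2 * M.blk a e 2 0 * e 0 =
      e 2 * ((M.ww a e - M.ww' a e) * (z - 3) ^ (M.S - 1) * e 3 * a M.gR) * e 0 := rfl
    rw [h2] at h1
    rw [← sub_eq_zero, ← sub_mul, ← h1, TR, ← hzdef, pow_zero]
    have h3 : e 2 * (M.ww a e - M.ww' a e) = M.ww a e - M.ww' a e := by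
      rw [mul_sub, ww_l M a e he, ww'_l M a e he]
    calc (M.ww a e - M.ww' a e) * ((z - 3) ^ (M.S - 1) * (1 * (e 3 * a M.gR * e 0)))
        = (e 2 * (M.ww a e - M.ww' a e)) * ((z - 3) ^ (M.S - 1) * (1 * (e 3 * a M.gR * e 0))) := by
          rw [h3]
      _ = _ := by noncomm_ring

/-- the value of a configuration -/
def V (s : Fin M.nQ × ℕ) : B := M.TL a e 0 * M.γγ a e s.1 * M.TR a e s.2

include he hz hoff hrel in
theorem V_step (s : Fin M.nQ × ℕ) : M.V a e s = M.V a e (M.step s) := by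
  obtain ⟨h1, h2, h3, h4, h5⟩ := main_facts M a e he hz hoff hrel
  have hy : ∀ k n, M.yy a e ^ k * M.TR a e n = M.TR a e (n + k) := by
    intro k
    induction k with
    | zero => intro n; simp
    | succ k ih => intro n; rw [pow_succ, mul_assoc, h2, ih]; congr 1; omega
  have hA : ∀ q m n, M.TL a e m * M.γγ a e q * M.TR a e n =
      M.V a e (q, M.A * m + n) := by
    intro q m
    induction m with
    | zero => intro n; simp [V]
    | succ m ih =>
      intro n
      have h6 := h3 (Sum.inl q) m n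
      simp only [rel] at h6
      rw [mul_sub, sub_mul, sub_eq_zero, ← mul_assoc, h1, ← mul_assoc,
        mul_assoc _ (M.yy a e ^ M.A), hy, ih] at h6
      rw [h6]
      congr 2
      ring
  have hB : ∀ t m n, M.TL a e m * (M.uu a e * M.mm a e t) * M.TR a e n =
      M.TL a e 0 * (M.uu a e * M.mm a e t) * M.TR a e (M.b t.1 t.2 * m + n) := by
    intro t m
    induction m with
    | zero => intro n; simp
    | succ m ih =>
      intro n
      have h6 := h3 (Sum.inr (Sum.inl t)) m n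
      simp only [rel] at h6
      rw [mul_sub, sub_mul, sub_eq_zero, ← mul_assoc, h1, ← mul_assoc (M.TL a e m),
        mul_assoc _ (M.yy a e ^ M.b t.1 t.2), hy, ih] at h6
      rw [h6]
      congr 2
      ring
  obtain ⟨q, N⟩ := s
  have hN : N = M.A * (N / M.A) + ((⟨N % M.A, Nat.mod_lt _ M.hA⟩ : Fin M.A) : ℕ) :=
    (Nat.div_add_mod N M.A).symm
  set j : Fin M.A := ⟨N % M.A, Nat.mod_lt _ M.hA⟩
  set m := N / M.A
  rw [hN, M.step_eq, ← hA q m j]
  have e1 : M.TL a e m * M.γγ a e q * M.TR a e j =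
      M.TL a e m * (M.γγ a e q * M.yy a e ^ (j : ℕ)) * M.TR a e 0 := by
    rw [← mul_assoc, mul_assoc _ (M.yy a e ^ (j : ℕ)), hy, zero_add]
  have e2 := h3 (Sum.inr (Sum.inr (Sum.inl (q, j)))) m 0
  simp only [rel] at e2
  rw [mul_sub, sub_mul, sub_eq_zero] at e2
  have e3 : M.TL a e m * (M.vv a e (q, j) * M.ww a e) * M.TR a e 0 =
      M.TL a e m * (M.vv a e (q, j) * M.ww' a e) * M.TR a e 0 := by
    rw [← mul_assoc, ← mul_assoc, mul_assoc _ (M.ww a e), h5, mul_assoc _ (M.ww' a e)]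
  have e4 := h3 (Sum.inr (Sum.inr (Sum.inr (Sum.inl (q, j))))) m 0
  simp only [rel] at e4
  rw [mul_sub, sub_mul, sub_eq_zero, ← mul_assoc (M.TL a e m) (M.uu a e * M.mm a e (q, j)),
    mul_assoc _ (M.yy a e ^ M.c q j), hy, zero_add, hB] at e4
  have e5 : M.TL a e 0 * (M.uu a e * M.mm a e (q, j)) * M.TR a e (M.b q j * m + M.c q j) =
      M.TL a e 0 * (M.uu' a e * M.mm a e (q, j)) * M.TR a e (M.b q j * m + M.c q j) := by
    rw [← mul_assoc (M.TL a e 0), h4, ← mul_assoc (M.TL a e 0)]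
  have e6 := h3 (Sum.inr (Sum.inr (Sum.inr (Sum.inr (Sum.inl (q, j)))))) 0 (M.b q j * m + M.c q j)
  simp only [rel] at e6
  rw [mul_sub, sub_mul, sub_eq_zero] at e6
  rw [e1, e2, e3, e4, e5, e6]
  rfl

include he hz hoff hrel in
theorem V_halts (s : Fin M.nQ × ℕ) (h : M.Halts s) : M.V a e s = 0 := by
  obtain ⟨t, ht⟩ := h
  have h1 : ∀ t, M.V a e s = M.V a e (M.step^[t] s) := by
    intro t
    induction t with
    | zero => rfl
    | succ t ih => rw [ih, Function.iterate_succ_apply']; exact V_step M a e he hz hoff hrel _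
  obtain ⟨-, -, h3, -, -⟩ := main_facts M a e he hz hoff hrel
  have h6 := h3 (Sum.inr (Sum.inr (Sum.inr (Sum.inr (Sum.inr ()))))) 0 (M.step^[t] s).2
  simp only [rel] at h6
  rw [h1 t, V, ht]
  exact h6

include he hz in
theorem test_eq (N : ℕ) : M.test a e N = M.V a e (M.q0, N) := by
  have he1 : Commute ((a M.gz - 1) ^ (M.S - 1)) (e 1) :=
    ((hz 1).sub_left (Commute.one_left _)).pow_left _
  have he3 : Commute ((a M.gz - 3) ^ (M.S - 1)) (e 3) :=
    ((hz 3).sub_left (Commute.ofNat_left 3 _)).pow_left _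
  have h1 : ∀ n : ℕ, e 3 * (a M.gg * e 3) ^ n = M.yy a e ^ n * e 3 := by
    intro n
    induction n with
    | zero => simp
    | succ n ih =>
      rw [pow_succ, ← mul_assoc, ih, pow_succ, mul_assoc, mul_assoc]
      congr 1
      unfold yy
      rw [mul_assoc (e 3 * a M.gg), ee e he, mul_assoc]
  unfold test V TL TR
  simp only [pow_zero, mul_one]
  set α := a M.gz
  calc (e 0 * a M.gL * e 1 * (α - 1) ^ (M.S - 1) * a (M.gγ M.q0) * e 3 * (α - 3) ^ (M.S - 1)) *
        (a M.gg * e 3) ^ N * (a M.gR * e 0)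
      = e 0 * a M.gL * e 1 * (α - 1) ^ (M.S - 1) * a (M.gγ M.q0) * (e 3 * (α - 3) ^ (M.S - 1)) *
        (a M.gg * e 3) ^ N * (a M.gR * e 0) := by noncomm_ring
    _ = e 0 * a M.gL * (e 1 * e 1) * (α - 1) ^ (M.S - 1) * a (M.gγ M.q0) *
        ((α - 3) ^ (M.S - 1) * (e 3 * e 3)) *
        (a M.gg * e 3) ^ N * (a M.gR * e 0) := by rw [ee e he, ee e he, he3.eq]
    _ = e 0 * a M.gL * e 1 * (e 1 * (α - 1) ^ (M.S - 1)) * a (M.gγ M.q0) *
        (((α - 3) ^ (M.S - 1) * e 3) * (e 3 *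
        (a M.gg * e 3) ^ N)) * (a M.gR * e 0) := by noncomm_ring
    _ = e 0 * a M.gL * e 1 * ((α - 1) ^ (M.S - 1) * e 1) * a (M.gγ M.q0) *
        ((e 3 * (α - 3) ^ (M.S - 1)) * (M.yy a e ^ N * e 3)) * (a M.gR * e 0) := by
          rw [he1.eq, he3.eq, h1]
    _ = _ := by unfold γγ; noncomm_ring

end deriv

end Mach

end Pool.Agent.H.MP_7596fa_lc
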