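import Pool.Agent.H.MP_7596fa_lc.TestAbs

/-!
The concrete test ring.
-/

namespace Pool.Agent.H.MP_7596fa_lc

namespace Mach

variable (M : Mach) (F : Type*) [Field F]

open Classical in
/-- indicator of non-halting -/
noncomputable def hh (s : Fin M.nQ × ℕ) : F := if M.Halts s then 0 else 1

theorem hh_step (s : Fin M.nQ × ℕ) : M.hh F (M.step s) = M.hh F s := by
  unfold hh
  by_cases h : M.Halts s
  · rw [if_pos h, if_pos ((M.halts_step s).mpr h)]
  · rw [if_neg h, if_neg (fun h' => h ((M.halts_step s).mp h'))]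

theorem hh_tgt (q : Fin M.nQ) (j : Fin M.A) (m : ℕ) :
    M.hh F (M.tgt q j, M.b q j * m + M.c q j) = M.hh F (q, M.A * m + j) := by
  rw [← hh_step M F (q, M.A * m + j), M.step_eq]

theorem hh_qh (N : ℕ) : M.hh F (M.qh, N) = 0 := by
  unfold hh
  rw [if_pos (M.halts_qh N)]

/-- the value of a product of letters -/
noncomputable def lw (l : M.Gen → ℕ) (m n : ℕ) : F :=
  ∑ q, (l (M.gγ q) : F) * M.hh F (q, M.A * m + n) +
  ∑ t : Fin M.nQ × Fin M.A, (l (M.gm t) : F) *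
    ((l M.gu : F) * M.hh F (M.tgt t.1 t.2, M.b t.1 t.2 * m + n) +
     (l M.gu' : F) * M.hh F (M.tgt t.1 t.2, M.A * m + n)) +
  ∑ t : Fin M.nQ × Fin M.A, (l (M.gv t) : F) *
    ((l M.gw : F) * M.hh F (t.1, M.A * m + n + t.2) +
     (l M.gw' : F) * M.hh F (M.tgt t.1 t.2, M.b t.1 t.2 * m + n + M.c t.1 t.2))

/-- one letter -/
def sg (g : M.Gen) : M.Gen → ℕ := fun g' => if g' = g then 1 else 0

theorem lw_γ (q : Fin M.nQ) (m n : ℕ) : M.lw F (M.sg (M.gγ q)) m n = M.hh F (q, M.A * m + n) := by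
  simp [lw, sg, gγ, gm, gv, gu, gu', gw, gw']

theorem lw_um (t : Fin M.nQ × Fin M.A) (m n : ℕ) :
    M.lw F (M.sg M.gu + M.sg (M.gm t)) m n = M.hh F (M.tgt t.1 t.2, M.b t.1 t.2 * m + n) := by
  simp [lw, sg, gγ, gm, gv, gu, gu', gw, gw']

theorem lw_um' (t : Fin M.nQ × Fin M.A) (m n : ℕ) :
    M.lw F (M.sg M.gu' + M.sg (M.gm t)) m n = M.hh F (M.tgt t.1 t.2, M.A * m + n) := by
  simp [lw, sg, gγ, gm, gv, gu, gu', gw, gw']

theorem lw_vw (t : Fin M.nQ × Fin M.A) (m n : ℕ) :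
    M.lw F (M.sg (M.gv t) + M.sg M.gw) m n = M.hh F (t.1, M.A * m + n + t.2) := by
  simp [lw, sg, gγ, gm, gv, gu, gu', gw, gw']

theorem lw_vw' (t : Fin M.nQ × Fin M.A) (m n : ℕ) :
    M.lw F (M.sg (M.gv t) + M.sg M.gw') m n =
      M.hh F (M.tgt t.1 t.2, M.b t.1 t.2 * m + n + M.c t.1 t.2) := by
  simp [lw, sg, gγ, gm, gv, gu, gu', gw, gw']

theorem lw_uw (m n : ℕ) : M.lw F (M.sg M.gu + M.sg M.gw) m n = 0 := by
  simp [lw, sg, gγ, gm, gv, gu, gu', gw, gw']
theorem lw_uw' (m n : ℕ) : M.lw F (M.sg M.gu + M.sg M.gw') m n = 0 := by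
  simp [lw, sg, gγ, gm, gv, gu, gu', gw, gw']
theorem lw_u'w (m n : ℕ) : M.lw F (M.sg M.gu' + M.sg M.gw) m n = 0 := by
  simp [lw, sg, gγ, gm, gv, gu, gu', gw, gw']
theorem lw_u'w' (m n : ℕ) : M.lw F (M.sg M.gu' + M.sg M.gw') m n = 0 := by
  simp [lw, sg, gγ, gm, gv, gu, gu', gw, gw']

/-- exponents -/
abbrev Ex : Type := ℕ × ℕ × ℕ × ℕ × ℕ × (M.Gen → ℕ)

/-- the big ring -/
abbrev Rg : Type _ := AddMonoidAlgebra F M.Ex

/-- monomials -/
noncomputable def mono (i j a b c : ℕ) (l : M.Gen → ℕ) : M.Rg F :=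
  AddMonoidAlgebra.single (i, j, a, b, c, l) 1

theorem mono_mul (i j a b c : ℕ) (l : M.Gen → ℕ) (i' j' a' b' c' : ℕ) (l' : M.Gen → ℕ) :
    M.mono F i j a b c l * M.mono F i' j' a' b' c' l' =
      M.mono F (i + i') (j + j') (a + a') (b + b') (c + c') (l + l') := by
  unfold mono
  rw [AddMonoidAlgebra.single_mul_single, mul_one]
  rfl

/-- the weight of a monomial -/
noncomputable def wt (m : M.Ex) : F :=
  if m.2.2.1 = M.S - 1 ∧ m.2.2.2.1 = M.S - 1 ∧ m.2.2.2.2.1 = 1 then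
    M.lw F m.2.2.2.2.2 m.1 m.2.1 else 0

/-- the functional on the big ring -/
noncomputable def θ0 : M.Rg F →ₗ[F] F where
  toFun p := Finsupp.linearCombination F (M.wt F) p.coeff
  map_add' p q := by rw [AddMonoidAlgebra.coeff_add, map_add]
  map_smul' a p := by rw [AddMonoidAlgebra.coeff_smul, map_smul]; rfl

theorem θ0_mono (i j a b c : ℕ) (l : M.Gen → ℕ) :
    M.θ0 F (M.mono F i j a b c l) =
      if a = M.S - 1 ∧ b = M.S - 1 ∧ c = 1 then M.lw F l i j else 0 := by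
  change Finsupp.linearCombination F (M.wt F) (AddMonoidAlgebra.single _ _).coeff = _
  rw [AddMonoidAlgebra.coeff_single, Finsupp.linearCombination_single, one_smul]
  rfl

theorem θ0_zero (i j a b c : ℕ) (l : M.Gen → ℕ) (h : M.S ≤ a ∨ M.S ≤ b ∨ 2 ≤ c) (p : M.Rg F) :
    M.θ0 F (p * M.mono F i j a b c l) = 0 := by
  have hS := M.S_pos
  induction p using AddMonoidAlgebra.induction_linear with
  | zero => rw [zero_mul, map_zero]
  | add f g hf hg => rw [add_mul, map_add, hf, hg, add_zero]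
  | single m r =>
    obtain ⟨i', j', a', b', c', l'⟩ := m
    have e : (AddMonoidAlgebra.single (i', j', a', b', c', l') r : M.Rg F) =
        r • M.mono F i' j' a' b' c' l' := by
      unfold mono
      rw [AddMonoidAlgebra.smul_single, smul_eq_mul, mul_one]
    rw [e, smul_mul_assoc, mono_mul, map_smul, θ0_mono, if_neg, smul_zero]
    rintro ⟨h1, h2, h3⟩
    rcases h with h | h | h <;> omega

/-- the ideal -/
noncomputable def I0 : Ideal (M.Rg F) :=
  Ideal.span {M.mono F 0 0 M.S 0 0 0, M.mono F 0 0 0 M.S 0 0, M.mono F 0 0 0 0 2 0}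

theorem θ0_I0 (p : M.Rg F) (hp : p ∈ M.I0 F) : M.θ0 F p = 0 := by
  unfold I0 at hp
  rw [Ideal.mem_span_insert] at hp
  obtain ⟨a, q, hq, rfl⟩ := hp
  rw [Ideal.mem_span_pair] at hq
  obtain ⟨b, c, rfl⟩ := hq
  rw [map_add, map_add, θ0_zero, θ0_zero, θ0_zero, add_zero, add_zero]
  · right; right; exact le_refl _
  · right; left; exact le_refl _
  · left; exact le_refl _

/-- the test ring -/
abbrev Cb : Type _ := M.Rg F ⧸ M.I0 F

/-- the functional on the test ring -/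
noncomputable def θb : M.Cb F →ₗ[F] F :=
  (Submodule.liftQ ((M.I0 F).restrictScalars F) (M.θ0 F) (fun p hp => M.θ0_I0 F p hp)) ∘ₗ
    (Submodule.Quotient.restrictScalarsEquiv F (M.I0 F)).symm.toLinearMap

theorem θb_mk (p : M.Rg F) : M.θb F (Ideal.Quotient.mk (M.I0 F) p) = M.θ0 F p := rfl

theorem map_rval {C C' : Type*} [CommRing C] [CommRing C'] (φ : C →+* C') (x y : C)
    (lt : M.Gen → C) (r : M.Rel) :
    φ (M.rval x y lt r) = M.rval (φ x) (φ y) (fun g => φ (lt g)) r := by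
  rcases r with q | t | t | t | t | _ <;> simp only [rval, map_sub, map_mul, map_pow]

/-- letters as monomials -/
noncomputable def lt0 (g : M.Gen) : M.Rg F := M.mono F 0 0 0 0 0 (M.sg g)

theorem mono_x_pow (n : ℕ) : M.mono F 1 0 0 0 0 0 ^ n = M.mono F n 0 0 0 0 0 := by
  induction n with
  | zero => rfl
  | succ n ih => rw [pow_succ, ih, mono_mul]; simp

theorem mono_y_pow (n : ℕ) : M.mono F 0 1 0 0 0 0 ^ n = M.mono F 0 n 0 0 0 0 := by
  induction n with
  | zero => rfl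
  | succ n ih => rw [pow_succ, ih, mono_mul]; simp

theorem mono_τ_pow (n : ℕ) : M.mono F 0 0 1 0 0 0 ^ n = M.mono F 0 0 n 0 0 0 := by
  induction n with
  | zero => rfl
  | succ n ih => rw [pow_succ, ih, mono_mul]; simp

theorem mono_τ'_pow (n : ℕ) : M.mono F 0 0 0 1 0 0 ^ n = M.mono F 0 0 0 n 0 0 := by
  induction n with
  | zero => rfl
  | succ n ih => rw [pow_succ, ih, mono_mul]; simp

theorem mono_pack (i j a b : ℕ) :
    M.mono F 1 0 0 0 0 0 ^ i * M.mono F 0 1 0 0 0 0 ^ j * M.mono F 0 0 1 0 0 0 ^ a *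
      M.mono F 0 0 0 1 0 0 ^ b * M.mono F 0 0 0 0 1 0 = M.mono F i j a b 1 0 := by
  rw [mono_x_pow, mono_y_pow, mono_τ_pow, mono_τ'_pow, mono_mul, mono_mul, mono_mul, mono_mul]
  simp

theorem rel0 (i j a b : ℕ) (r : M.Rel) :
    M.θ0 F (M.mono F i j a b 1 0 *
      M.rval (M.mono F 1 0 0 0 0 0) (M.mono F 0 1 0 0 0 0) (M.lt0 F) r) = 0 := by
  rcases r with q | t | t | t | t | _
  · simp only [rval, lt0, mono_y_pow, mul_sub, mono_mul, map_sub, θ0_mono]
    simp only [add_zero, zero_add, lw_γ]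
    rw [show M.A * (i + 1) + j = M.A * i + (j + M.A) by ring]
    simp
  · simp only [rval, lt0, mono_y_pow, mul_sub, mono_mul, map_sub, θ0_mono]
    simp only [add_zero, zero_add, lw_um]
    rw [show M.b t.1 t.2 * (i + 1) + j = M.b t.1 t.2 * i + (j + M.b t.1 t.2) by ring]
    simp
  · simp only [rval, lt0, mono_y_pow, mul_sub, mono_mul, map_sub, θ0_mono]
    simp only [add_zero, zero_add, lw_vw, lw_γ]
    rw [show M.A * i + (j + (t.2 : ℕ)) = M.A * i + j + t.2 by ring]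
    simp
  · simp only [rval, lt0, mono_y_pow, mul_sub, mono_mul, map_sub, θ0_mono]
    simp only [add_zero, zero_add, lw_vw', lw_um]
    rw [show M.b t.1 t.2 * i + (j + M.c t.1 t.2) = M.b t.1 t.2 * i + j + M.c t.1 t.2 by ring]
    simp
  · simp only [rval, lt0, mul_sub, mono_mul, map_sub, θ0_mono]
    simp only [add_zero, zero_add, lw_um', lw_γ]
    simp
  · simp only [rval, lt0, mono_mul, θ0_mono]
    simp only [add_zero, zero_add, lw_γ, hh_qh]
    simp

theorem left0 (j b : ℕ) (l : M.Gen) (hl : l ∈ M.rightL) :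
    M.θ0 F (M.mono F 0 j (M.S - 1) b 1 0 * ((M.lt0 F M.gu - M.lt0 F M.gu') * M.lt0 F l)) = 0 := by
  rcases hl with rfl | rfl | ⟨t, rfl⟩
  · simp only [lt0, sub_mul, mul_sub, mono_mul, map_sub, θ0_mono]
    simp only [add_zero, zero_add, lw_uw, lw_u'w]
    simp
  · simp only [lt0, sub_mul, mul_sub, mono_mul, map_sub, θ0_mono]
    simp only [add_zero, zero_add, lw_uw', lw_u'w']
    simp
  · simp only [lt0, sub_mul, mul_sub, mono_mul, map_sub, θ0_mono]
    simp only [add_zero, zero_add, lw_um, lw_um', mul_zero]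
    simp

theorem right0 (i a : ℕ) (l : M.Gen) (hl : l ∈ M.leftL) :
    M.θ0 F (M.mono F i 0 a (M.S - 1) 1 0 * (M.lt0 F l * (M.lt0 F M.gw - M.lt0 F M.gw'))) = 0 := by
  rcases hl with rfl | rfl | ⟨t, rfl⟩
  · simp only [lt0, mul_sub, mono_mul, map_sub, θ0_mono]
    simp only [add_zero, zero_add, lw_uw, lw_uw']
    simp
  · simp only [lt0, mul_sub, mono_mul, map_sub, θ0_mono]
    simp only [add_zero, zero_add, lw_u'w, lw_u'w']
    simp
  · simp only [lt0, mul_sub, mono_mul, map_sub, θ0_mono]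
    simp only [add_zero, zero_add, lw_vw, lw_vw']
    rw [hh_tgt]
    simp

/-- the concrete test data -/
noncomputable def TD : M.TestData F (M.Cb F) where
  x := Ideal.Quotient.mk _ (M.mono F 1 0 0 0 0 0)
  y := Ideal.Quotient.mk _ (M.mono F 0 1 0 0 0 0)
  τ := Ideal.Quotient.mk _ (M.mono F 0 0 1 0 0 0)
  τ' := Ideal.Quotient.mk _ (M.mono F 0 0 0 1 0 0)
  s := Ideal.Quotient.mk _ (M.mono F 0 0 0 0 1 0)
  lt g := Ideal.Quotient.mk _ (M.lt0 F g)
  θ := M.θb F
  hτ := by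
    rw [← map_pow, mono_τ_pow]
    exact Ideal.Quotient.eq_zero_iff_mem.mpr (Ideal.subset_span (Or.inl rfl))
  hτ' := by
    rw [← map_pow, mono_τ'_pow]
    exact Ideal.Quotient.eq_zero_iff_mem.mpr (Ideal.subset_span (Or.inr (Or.inl rfl)))
  hs := by
    rw [← map_mul, mono_mul]
    exact Ideal.Quotient.eq_zero_iff_mem.mpr (Ideal.subset_span (Or.inr (Or.inr rfl)))
  hrel i j a b r := by
    rw [← map_rval M (Ideal.Quotient.mk (M.I0 F))]
    simp only [← map_pow, ← map_mul]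
    rw [θb_mk, mono_pack]
    exact M.rel0 F i j a b r
  hleft j b l hl := by
    simp only [← map_pow, ← map_mul, ← map_sub]
    rw [θb_mk]
    have := M.mono_pack F 0 j (M.S - 1) b
    rw [pow_zero, one_mul] at this
    rw [this]
    exact M.left0 F j b l hl
  hright i a l hl := by
    simp only [← map_pow, ← map_mul, ← map_sub]
    rw [θb_mk]
    have := M.mono_pack F i 0 a (M.S - 1)
    rw [pow_zero, mul_one] at this
    rw [this]
    exact M.right0 F i a l hl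

theorem TD_test (N : ℕ) (hN : ¬ M.Halts (M.q0, N)) :
    (M.TD F).θ ((M.TD F).τ ^ (M.S - 1) * (M.TD F).lt (M.gγ M.q0) * (M.TD F).τ' ^ (M.S - 1) *
      (M.TD F).y ^ N * (M.TD F).s) ≠ 0 := by
  have h : (M.TD F).τ ^ (M.S - 1) * (M.TD F).lt (M.gγ M.q0) * (M.TD F).τ' ^ (M.S - 1) *
      (M.TD F).y ^ N * (M.TD F).s =
      Ideal.Quotient.mk _ (M.mono F 0 N (M.S - 1) (M.S - 1) 1 (M.sg (M.gγ M.q0))) := by
    change (Ideal.Quotient.mk _ _) ^ (M.S - 1) * Ideal.Quotient.mk _ _ *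
      (Ideal.Quotient.mk _ _) ^ (M.S - 1) * (Ideal.Quotient.mk _ _) ^ N * Ideal.Quotient.mk _ _ = _
    rw [← map_pow, ← map_pow, ← map_pow, ← map_mul, ← map_mul, ← map_mul, ← map_mul, mono_τ_pow,
      mono_τ'_pow, mono_y_pow, lt0, mono_mul, mono_mul, mono_mul, mono_mul]
    simp
  rw [h]
  change M.θb F _ ≠ 0
  rw [θb_mk, θ0_mono, if_pos ⟨rfl, rfl, rfl⟩, lw_γ, mul_zero, zero_add, hh, if_neg hN]
  exact one_ne_zero

end Mach

end Pool.Agent.H.MP_7596fa_lc
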