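import Pool.Agent.H.MP_7596fa_lc.Mat

/-!
Naturality of the construction, and the abstract test functional.
-/

namespace Pool.Agent.H.MP_7596fa_lc

open Matrix

namespace Mach

variable (M : Mach)

section naturality

variable {B B' : Type*} [Ring B] [Ring B'] (φ : B →+* B') (a : M.Gen → B) (e : Fin 4 → B)

theorem map_rel (r : M.Rel) :
    φ (M.rel a e r) = M.rel (fun g => φ (a g)) (fun i => φ (e i)) r := by
  rcases r with q | t | t | t | t | _ <;>
    simp only [rel, xx, yy, γγ, uu, uu', ww, ww', mm, vv, map_sub, map_mul, map_pow]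

theorem map_rho : φ (M.rho a e) = M.rho (fun g => φ (a g)) (fun i => φ (e i)) := by
  unfold rho
  rw [map_sum]
  refine Finset.sum_congr rfl fun s _ => ?_
  rw [map_mul, map_mul, map_pow, map_pow, map_rel, map_sub, map_sub, map_one, map_ofNat]

theorem map_blk : ∀ i j : Fin 4,
    φ (M.blk a e i j) = M.blk (fun g => φ (a g)) (fun i => φ (e i)) i j := by
  have h01 : φ (M.blk a e 0 1) = M.blk (fun g => φ (a g)) (fun i => φ (e i)) 0 1 := by
    change φ (a M.gL * (a M.gz - 1) ^ M.S) = φ (a M.gL) * (φ (a M.gz) - 1) ^ M.S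
    simp only [map_sub, map_mul, map_pow, map_one]
  have h30 : φ (M.blk a e 3 0) = M.blk (fun g => φ (a g)) (fun i => φ (e i)) 3 0 := by
    change φ ((a M.gz - 3) ^ M.S * a M.gR) = (φ (a M.gz) - 3) ^ M.S * φ (a M.gR)
    simp only [map_sub, map_mul, map_pow, map_ofNat]
  have h02 : φ (M.blk a e 0 2) = M.blk (fun g => φ (a g)) (fun i => φ (e i)) 0 2 := by
    change φ (a M.gL * e 1 * (a M.gz - 1) ^ (M.S - 1) * (e 1 * a M.gu * e 2 - e 1 * a M.gu' * e 2)) =
      φ (a M.gL) * φ (e 1) * (φ (a M.gz) - 1) ^ (M.S - 1) *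
        (φ (e 1) * φ (a M.gu) * φ (e 2) - φ (e 1) * φ (a M.gu') * φ (e 2))
    simp only [map_sub, map_mul, map_pow, map_one]
  have h20 : φ (M.blk a e 2 0) = M.blk (fun g => φ (a g)) (fun i => φ (e i)) 2 0 := by
    change φ ((e 2 * a M.gw * e 3 - e 2 * a M.gw' * e 3) * (a M.gz - 3) ^ (M.S - 1) * e 3 * a M.gR) =
      (φ (e 2) * φ (a M.gw) * φ (e 3) - φ (e 2) * φ (a M.gw') * φ (e 3)) *
        (φ (a M.gz) - 3) ^ (M.S - 1) * φ (e 3) * φ (a M.gR)
    simp only [map_sub, map_mul, map_pow, map_ofNat]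
  intro i j
  fin_cases i <;> fin_cases j <;>
    first
      | exact map_rho M φ a e
      | rfl
      | exact map_zero φ
      | exact h01
      | exact h30
      | exact h02
      | exact h20

theorem map_WW : φ (M.WW a e) = M.WW (fun g => φ (a g)) (fun i => φ (e i)) := by
  unfold WW
  rw [map_sum]
  refine Finset.sum_congr rfl fun i _ => ?_
  rw [map_sum]
  refine Finset.sum_congr rfl fun j _ => ?_
  rw [map_mul, map_mul, map_blk]

theorem map_relator : φ (M.relator a e) = M.relator (fun g => φ (a g)) (fun i => φ (e i)) := by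
  unfold relator
  rw [map_sub, map_sub, map_mul, map_mul, map_WW]
  congr 1
  simp only [pz, map_sub, map_mul, map_pow, map_one, map_ofNat]

theorem map_test (N : ℕ) :
    φ (M.test a e N) = M.test (fun g => φ (a g)) (fun i => φ (e i)) N := by
  simp only [test, map_sub, map_mul, map_pow, map_one, map_ofNat]

end naturality

end Mach

open Polynomial in
theorem map_idem {F B B' : Type*} [Field F] [Ring B] [Ring B'] [Algebra F B] [Algebra F B']
    (φ : B →ₐ[F] B') (D : ℕ) (E : Fin 4 → ℤ[X]) (z : B) (i : Fin 4) :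
    φ (idem F D E z i) = idem F D E (φ z) i := by
  unfold idem
  rw [map_smul, Polynomial.aeval_algHom_apply]

end Pool.Agent.H.MP_7596fa_lc
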