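import Pool.Agent.H.MP_7596fa_lc.Test

/-!
The abstract test functional.
-/

namespace Pool.Agent.H.MP_7596fa_lc

open Matrix

namespace Mach

variable (M : Mach)

/-- letters that stand on the left -/
def leftL : Set M.Gen := {g | g = M.gu ∨ g = M.gu' ∨ ∃ t, g = M.gv t}

/-- letters that stand on the right -/
def rightL : Set M.Gen := {g | g = M.gw ∨ g = M.gw' ∨ ∃ t, g = M.gm t}

/-- data for the test functional -/
structure TestData (F C : Type*) [Field F] [CommRing C] [Algebra F C] where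
  x : C
  y : C
  τ : C
  τ' : C
  s : C
  lt : M.Gen → C
  θ : C →ₗ[F] F
  hτ : τ ^ M.S = 0
  hτ' : τ' ^ M.S = 0
  hs : s * s = 0
  hrel : ∀ (i j a b : ℕ) (r : M.Rel), θ (x ^ i * y ^ j * τ ^ a * τ' ^ b * s * M.rval x y lt r) = 0
  hleft : ∀ (j b : ℕ) (l : M.Gen), l ∈ M.rightL →
    θ (y ^ j * τ ^ (M.S - 1) * τ' ^ b * s * ((lt M.gu - lt M.gu') * lt l)) = 0
  hright : ∀ (i a : ℕ) (l : M.Gen), l ∈ M.leftL →
    θ (x ^ i * τ ^ a * τ' ^ (M.S - 1) * s * (lt l * (lt M.gw - lt M.gw'))) = 0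

namespace TestData

variable {M} {F C : Type*} [Field F] [CommRing C] [Algebra F C] (T : M.TestData F C)

/-- multiples of `s` -/
def sC : Submodule F C := LinearMap.range (LinearMap.mulLeft F T.s)

def PX : Submodule F C := Submodule.span F {c | ∃ i j : ℕ, c = T.x ^ i * T.τ ^ j}
def LX : Submodule F C :=
  Submodule.span F {c | ∃ i j : ℕ, ∃ l ∈ M.leftL, c = T.x ^ i * T.τ ^ j * T.lt l}
def SY : Submodule F C := Submodule.span F {c | ∃ i j : ℕ, c = T.s * (T.y ^ i * T.τ' ^ j)}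
def RY : Submodule F C :=
  Submodule.span F {c | ∃ i j : ℕ, ∃ l ∈ M.rightL, c = T.s * (T.y ^ i * T.τ' ^ j) * T.lt l}
def K1 (_T : M.TestData F C) : Submodule F C := Submodule.span F {(1 : C)}

theorem mem_sC {c : C} : c ∈ T.sC ↔ ∃ d, T.s * d = c := by
  simp [sC]

theorem sC_mul {c : C} (h : c ∈ T.sC) (d : C) : c * d ∈ T.sC := by
  rw [mem_sC] at h ⊢
  obtain ⟨e, rfl⟩ := h
  exact ⟨e * d, by ring⟩

theorem mul_sC {c : C} (h : c ∈ T.sC) (d : C) : d * c ∈ T.sC := by
  rw [mul_comm]; exact T.sC_mul h d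

theorem s_mul_mem (d : C) : T.s * d ∈ T.sC := T.mem_sC.mpr ⟨d, rfl⟩

theorem mul_s_mem (d : C) : d * T.s ∈ T.sC := T.mem_sC.mpr ⟨d, mul_comm _ _⟩

theorem span_mul {X : Set C} {Q : Submodule F C} (d : C) (h : ∀ c ∈ X, c * d ∈ Q) {c : C}
    (hc : c ∈ Submodule.span F X) : c * d ∈ Q := by
  induction hc using Submodule.span_induction with
  | mem c hc => exact h c hc
  | zero => rw [zero_mul]; exact Q.zero_mem
  | add a b _ _ ha hb => rw [add_mul]; exact Q.add_mem ha hb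
  | smul a c _ hc => rw [smul_mul_assoc]; exact Q.smul_mem a hc

theorem sup_mul {P Q : Submodule F C} (d : C) (h : ∀ c ∈ P, c * d ∈ Q) {c : C}
    (hc : c ∈ P ⊔ T.sC) : c * d ∈ Q ⊔ T.sC := by
  obtain ⟨a, ha, b, hb, rfl⟩ := Submodule.mem_sup.mp hc
  rw [add_mul]
  exact Submodule.add_mem_sup (h a ha) (T.sC_mul hb d)

theorem PX_x {c : C} (hc : c ∈ T.PX) : c * T.x ∈ T.PX := by
  refine span_mul T.x ?_ hc
  rintro c ⟨i, j, rfl⟩
  exact Submodule.subset_span ⟨i+1, j, by ring⟩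

theorem PX_τ {c : C} (hc : c ∈ T.PX) : c * T.τ ∈ T.PX := by
  refine span_mul T.τ ?_ hc
  rintro c ⟨i, j, rfl⟩
  exact Submodule.subset_span ⟨i, j+1, by ring⟩

theorem PX_lt {c : C} (hc : c ∈ T.PX) {l : M.Gen} (hl : l ∈ M.leftL) : c * T.lt l ∈ T.LX := by
  refine span_mul (T.lt l) ?_ hc
  rintro c ⟨i, j, rfl⟩
  exact Submodule.subset_span ⟨i, j, l, hl, rfl⟩

theorem SY_y {c : C} (hc : c ∈ T.SY) : T.y * c ∈ T.SY := by
  rw [mul_comm]
  refine span_mul T.y ?_ hc
  rintro c ⟨i, j, rfl⟩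
  exact Submodule.subset_span ⟨i+1, j, by ring⟩

theorem SY_τ' {c : C} (hc : c ∈ T.SY) : T.τ' * c ∈ T.SY := by
  rw [mul_comm]
  refine span_mul T.τ' ?_ hc
  rintro c ⟨i, j, rfl⟩
  exact Submodule.subset_span ⟨i, j+1, by ring⟩

theorem SY_lt {c : C} (hc : c ∈ T.SY) {l : M.Gen} (hl : l ∈ M.rightL) : T.lt l * c ∈ T.RY := by
  rw [mul_comm]
  refine span_mul (T.lt l) ?_ hc
  rintro c ⟨i, j, rfl⟩
  exact Submodule.subset_span ⟨i, j, l, hl, rfl⟩

theorem SY_le : T.SY ≤ T.sC := by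
  refine Submodule.span_le.mpr ?_
  rintro c ⟨i, j, rfl⟩
  exact T.s_mul_mem _

theorem RY_le : T.RY ≤ T.sC := by
  refine Submodule.span_le.mpr ?_
  rintro c ⟨i, j, l, hl, rfl⟩
  exact T.sC_mul (T.s_mul_mem _) _

theorem K1_le : T.K1 ≤ T.PX := by
  refine Submodule.span_le.mpr ?_
  rintro c rfl
  exact Submodule.subset_span ⟨0, 0, by simp⟩

theorem s_mul_K1 {c : C} (hc : c ∈ T.K1 ⊔ T.sC) : T.s * c ∈ T.SY := by
  obtain ⟨a, ha, b, hb, rfl⟩ := Submodule.mem_sup.mp hc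
  obtain ⟨d, rfl⟩ := T.mem_sC.mp hb
  obtain ⟨k, rfl⟩ := Submodule.mem_span_singleton.mp ha
  rw [mul_add, ← mul_assoc, T.hs, zero_mul, add_zero, mul_smul_comm, mul_one]
  exact T.SY.smul_mem k (Submodule.subset_span ⟨0, 0, by simp⟩)

/-- invariant of rows -/
def rowOK (r : Fin 4 → C) : Prop :=
  r 0 ∈ T.K1 ⊔ T.sC ∧ r 1 ∈ T.PX ⊔ T.sC ∧ r 2 ∈ T.LX ⊔ T.sC

/-- invariant of columns -/
def colOK (c : Fin 4 → C) : Prop :=
  c 0 ∈ T.K1 ⊔ T.sC ∧ c 1 ∈ T.sC ∧ c 2 ∈ T.RY ∧ c 3 ∈ T.SY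

/-- the matrices -/
def mt : M.Gen → Matrix (Fin 4) (Fin 4) C := M.mat T.x T.y T.τ T.τ' T.s T.lt

theorem vecMul_single (r : Fin 4 → C) (i j : Fin 4) (c : C) :
    r ᵥ* single i j c = fun k => if k = j then r i * c else 0 := by
  funext k
  simp only [Matrix.vecMul, dotProduct, Matrix.single_apply]
  rw [Finset.sum_eq_single i]
  · by_cases h : k = j
    · simp [h]
    · simp [h, Ne.symm h]
  · intro b _ hb; simp [Ne.symm hb]
  · intro h; exact absurd (Finset.mem_univ _) h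

theorem single_mulVec' (r : Fin 4 → C) (i j : Fin 4) (c : C) :
    single i j c *ᵥ r = fun k => if k = i then c * r j else 0 := by
  funext k
  simp only [Matrix.mulVec, dotProduct, Matrix.single_apply]
  rw [Finset.sum_eq_single j]
  · by_cases h : k = i
    · simp [h]
    · simp [h, Ne.symm h]
  · intro b _ hb; simp [Ne.symm hb]
  · intro h; exact absurd (Finset.mem_univ _) h

theorem mem_K1_sup (a : F) {c : C} (hc : c ∈ T.sC) : a • (1 : C) + c ∈ T.K1 ⊔ T.sC :=
  Submodule.add_mem_sup (T.K1.smul_mem a (Submodule.subset_span rfl)) hc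

theorem rowOK_single {r : Fin 4 → C} {i j : Fin 4} {c : C}
    (h0 : j = 0 → r i * c ∈ T.K1 ⊔ T.sC) (h1 : j = 1 → r i * c ∈ T.PX ⊔ T.sC)
    (h2 : j = 2 → r i * c ∈ T.LX ⊔ T.sC) : T.rowOK (r ᵥ* single i j c) := by
  rw [vecMul_single]
  refine ⟨?_, ?_, ?_⟩
  · change (if (0 : Fin 4) = j then _ else _) ∈ _
    split_ifs with h
    · exact h0 h.symm
    · exact Submodule.zero_mem _
  · change (if (1 : Fin 4) = j then _ else _) ∈ _
    split_ifs with h
    · exact h1 h.symm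
    · exact Submodule.zero_mem _
  · change (if (2 : Fin 4) = j then _ else _) ∈ _
    split_ifs with h
    · exact h2 h.symm
    · exact Submodule.zero_mem _

theorem colOK_single {r : Fin 4 → C} {i j : Fin 4} {c : C}
    (h0 : i = 0 → c * r j ∈ T.K1 ⊔ T.sC) (h1 : i = 1 → c * r j ∈ T.sC)
    (h2 : i = 2 → c * r j ∈ T.RY) (h3 : i = 3 → c * r j ∈ T.SY) :
    T.colOK (single i j c *ᵥ r) := by
  rw [single_mulVec']
  refine ⟨?_, ?_, ?_, ?_⟩
  · change (if (0 : Fin 4) = i then _ else _) ∈ _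
    split_ifs with h
    · exact h0 h.symm
    · exact Submodule.zero_mem _
  · change (if (1 : Fin 4) = i then _ else _) ∈ _
    split_ifs with h
    · exact h1 h.symm
    · exact Submodule.zero_mem _
  · change (if (2 : Fin 4) = i then _ else _) ∈ _
    split_ifs with h
    · exact h2 h.symm
    · exact Submodule.zero_mem _
  · change (if (3 : Fin 4) = i then _ else _) ∈ _
    split_ifs with h
    · exact h3 h.symm
    · exact Submodule.zero_mem _

theorem rowOK_gen {r : Fin 4 → C} (hr : T.rowOK r) (g : M.Gen) : T.rowOK (r ᵥ* T.mt g) := by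
  obtain ⟨hr0, hr1, hr2⟩ := hr
  have key12 : ∀ l ∈ M.leftL, T.rowOK (r ᵥ* single 1 2 (T.lt l)) := by
    intro l hl
    refine T.rowOK_single (fun h => absurd h (by decide)) (fun h => absurd h (by decide)) fun _ => ?_
    exact T.sup_mul (T.lt l) (fun c hc => T.PX_lt hc hl) hr1
  have key23 : ∀ c : C, ∀ i : Fin 4, T.rowOK (r ᵥ* single i 3 c) := by
    intro c i
    exact T.rowOK_single (fun h => absurd h (by decide)) (fun h => absurd h (by decide))
      (fun h => absurd h (by decide))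
  rcases g with i | q | t | t
  · fin_cases i
    · -- z
      change T.rowOK (r ᵥ* diagonal (ζ T.τ T.τ'))
      refine ⟨?_, ?_, ?_⟩
      · rw [Matrix.vecMul_diagonal]; simp [ζ]
      · rw [Matrix.vecMul_diagonal]
        simp only [ζ]
        change r 1 * (1 + T.τ) ∈ _
        rw [mul_add, mul_one]
        exact Submodule.add_mem _ hr1 (T.sup_mul T.τ (fun c hc => T.PX_τ hc) hr1)
      · rw [Matrix.vecMul_diagonal]
        simp only [ζ]
        change r 2 * 2 ∈ _
        rw [mul_two]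
        exact Submodule.add_mem _ hr2 hr2
    · -- g
      change T.rowOK (r ᵥ* diagonal ![0, T.x, 0, T.y])
      refine ⟨?_, ?_, ?_⟩
      · rw [Matrix.vecMul_diagonal]; simp
      · rw [Matrix.vecMul_diagonal]
        change r 1 * T.x ∈ _
        exact (T.sup_mul T.x (fun c hc => T.PX_x hc) hr1)
      · rw [Matrix.vecMul_diagonal]; simp
    · -- L
      change T.rowOK (r ᵥ* single 0 1 1)
      refine T.rowOK_single (fun h => absurd h (by decide)) (fun _ => ?_) (fun h => absurd h (by decide))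
      rw [mul_one]
      exact sup_le_sup_right T.K1_le _ hr0
    · -- R
      change T.rowOK (r ᵥ* single 3 0 T.s)
      refine T.rowOK_single (fun _ => ?_) (fun h => absurd h (by decide)) (fun h => absurd h (by decide))
      exact Submodule.mem_sup_right (T.mul_s_mem _)
    · exact key12 _ (Or.inl rfl)
    · exact key12 _ (Or.inr (Or.inl rfl))
    · exact key23 _ _
    · exact key23 _ _
  · exact key23 _ _
  · exact key23 _ _
  · exact key12 _ (Or.inr (Or.inr ⟨t, rfl⟩))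

theorem colOK_gen {r : Fin 4 → C} (hr : T.colOK r) (g : M.Gen) : T.colOK (T.mt g *ᵥ r) := by
  obtain ⟨hr0, hr1, hr2, hr3⟩ := hr
  have key12 : ∀ c : C, ∀ j : Fin 4, r j ∈ T.sC → T.colOK (single 1 j c *ᵥ r) := by
    intro c j hj
    exact T.colOK_single (fun h => absurd h (by decide)) (fun _ => T.mul_sC hj _)
      (fun h => absurd h (by decide)) (fun h => absurd h (by decide))
  have key23 : ∀ l ∈ M.rightL, T.colOK (single 2 3 (T.lt l) *ᵥ r) := by
    intro l hl
    exact T.colOK_single (fun h => absurd h (by decide)) (fun h => absurd h (by decide))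
      (fun _ => T.SY_lt hr3 hl) (fun h => absurd h (by decide))
  rcases g with i | q | t | t
  · fin_cases i
    · -- z
      change T.colOK (diagonal (ζ T.τ T.τ') *ᵥ r)
      refine ⟨?_, ?_, ?_, ?_⟩
      · rw [Matrix.mulVec_diagonal]; simp [ζ]
      · rw [Matrix.mulVec_diagonal]
        exact T.mul_sC hr1 _
      · rw [Matrix.mulVec_diagonal]
        change 2 * r 2 ∈ _
        rw [two_mul]
        exact Submodule.add_mem _ hr2 hr2
      · rw [Matrix.mulVec_diagonal]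
        change (3 + T.τ') * r 3 ∈ _
        rw [add_mul]
        refine Submodule.add_mem _ ?_ (T.SY_τ' hr3)
        rw [show (3 : C) * r 3 = r 3 + r 3 + r 3 by ring]
        exact Submodule.add_mem _ (Submodule.add_mem _ hr3 hr3) hr3
    · -- g
      change T.colOK (diagonal ![0, T.x, 0, T.y] *ᵥ r)
      refine ⟨?_, ?_, ?_, ?_⟩
      · rw [Matrix.mulVec_diagonal]; simp
      · rw [Matrix.mulVec_diagonal]
        exact T.mul_sC hr1 _
      · rw [Matrix.mulVec_diagonal]; simp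
      · rw [Matrix.mulVec_diagonal]
        exact T.SY_y hr3
    · -- L
      change T.colOK (single 0 1 1 *ᵥ r)
      refine T.colOK_single (fun _ => ?_) (fun h => absurd h (by decide))
        (fun h => absurd h (by decide)) (fun h => absurd h (by decide))
      rw [one_mul]
      exact Submodule.mem_sup_right hr1
    · -- R
      change T.colOK (single 3 0 T.s *ᵥ r)
      refine T.colOK_single (fun h => absurd h (by decide)) (fun h => absurd h (by decide))
        (fun h => absurd h (by decide)) (fun _ => T.s_mul_K1 hr0)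
    · exact key12 _ _ (T.RY_le hr2)
    · exact key12 _ _ (T.RY_le hr2)
    · exact key23 _ (Or.inl rfl)
    · exact key23 _ (Or.inr (Or.inl rfl))
  · exact key12 _ _ (T.SY_le hr3)
  · exact key23 _ (Or.inr (Or.inr ⟨t, rfl⟩))
  · exact key12 _ _ (T.RY_le hr2)

theorem rowOK_add {r r' : Fin 4 → C} (hr : T.rowOK r) (hr' : T.rowOK r') : T.rowOK (r + r') :=
  ⟨Submodule.add_mem _ hr.1 hr'.1, Submodule.add_mem _ hr.2.1 hr'.2.1,
    Submodule.add_mem _ hr.2.2 hr'.2.2⟩

theorem rowOK_smul {r : Fin 4 → C} (a : F) (hr : T.rowOK r) : T.rowOK (a • r) :=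
  ⟨Submodule.smul_mem _ a hr.1, Submodule.smul_mem _ a hr.2.1, Submodule.smul_mem _ a hr.2.2⟩

theorem colOK_add {r r' : Fin 4 → C} (hr : T.colOK r) (hr' : T.colOK r') : T.colOK (r + r') :=
  ⟨Submodule.add_mem _ hr.1 hr'.1, Submodule.add_mem _ hr.2.1 hr'.2.1,
    Submodule.add_mem _ hr.2.2.1 hr'.2.2.1, Submodule.add_mem _ hr.2.2.2 hr'.2.2.2⟩

theorem colOK_smul {r : Fin 4 → C} (a : F) (hr : T.colOK r) : T.colOK (a • r) :=
  ⟨Submodule.smul_mem _ a hr.1, Submodule.smul_mem _ a hr.2.1, Submodule.smul_mem _ a hr.2.2.1,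
    Submodule.smul_mem _ a hr.2.2.2⟩

/-- the representation -/
noncomputable def φ : FreeAlgebra F M.Gen →ₐ[F] Matrix (Fin 4) (Fin 4) C := FreeAlgebra.lift F T.mt

theorem rowOK_φ (a : FreeAlgebra F M.Gen) : ∀ r, T.rowOK r → T.rowOK (r ᵥ* T.φ a) := by
  induction a using FreeAlgebra.induction with
  | grade0 k =>
    intro r hr
    rw [AlgHom.commutes, Algebra.algebraMap_eq_smul_one, Matrix.vecMul_smul, Matrix.vecMul_one]
    exact T.rowOK_smul k hr
  | grade1 g =>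
    intro r hr
    rw [φ, FreeAlgebra.lift_ι_apply]
    exact T.rowOK_gen hr g
  | mul a b ha hb =>
    intro r hr
    rw [map_mul, ← Matrix.vecMul_vecMul]
    exact hb _ (ha _ hr)
  | add a b ha hb =>
    intro r hr
    rw [map_add, Matrix.vecMul_add]
    exact T.rowOK_add (ha _ hr) (hb _ hr)

theorem colOK_φ (a : FreeAlgebra F M.Gen) : ∀ r, T.colOK r → T.colOK (T.φ a *ᵥ r) := by
  induction a using FreeAlgebra.induction with
  | grade0 k =>
    intro r hr
    rw [AlgHom.commutes, Algebra.algebraMap_eq_smul_one, Matrix.smul_mulVec, Matrix.one_mulVec]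
    exact T.colOK_smul k hr
  | grade1 g =>
    intro r hr
    rw [φ, FreeAlgebra.lift_ι_apply]
    exact T.colOK_gen hr g
  | mul a b ha hb =>
    intro r hr
    rw [map_mul, ← Matrix.mulVec_mulVec]
    exact ha _ (hb _ hr)
  | add a b ha hb =>
    intro r hr
    rw [map_add, Matrix.add_mulVec]
    exact T.colOK_add (ha _ hr) (hb _ hr)

theorem span_lin {X : Set C} (l : C →ₗ[F] F) (h : ∀ c ∈ X, l c = 0) {c : C}
    (hc : c ∈ Submodule.span F X) : l c = 0 := by
  have : Submodule.span F X ≤ LinearMap.ker l := Submodule.span_le.mpr fun c hc => h c hc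
  exact this hc

theorem T1_aux (i j k l : ℕ) (r : M.Rel) (a b : ℕ) :
    T.θ (T.x ^ i * T.τ ^ j * (T.τ ^ a * M.rval T.x T.y T.lt r * T.τ' ^ b) *
      (T.s * (T.y ^ k * T.τ' ^ l))) = 0 := by
  rw [show T.x ^ i * T.τ ^ j * (T.τ ^ a * M.rval T.x T.y T.lt r * T.τ' ^ b) *
      (T.s * (T.y ^ k * T.τ' ^ l)) =
      T.x ^ i * T.y ^ k * T.τ ^ (j + a) * T.τ' ^ (b + l) * T.s * M.rval T.x T.y T.lt r by ring]
  exact T.hrel _ _ _ _ _

theorem T1_mono (i j k l : ℕ) :
    T.θ (T.x ^ i * T.τ ^ j * ((ζ T.τ T.τ' 3 - ζ T.τ T.τ' 1) * M.rhoval T.x T.y T.τ T.τ' T.lt) *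
      (T.s * (T.y ^ k * T.τ' ^ l))) = 0 := by
  have h : ζ T.τ T.τ' 3 - ζ T.τ T.τ' 1 = 2 + T.τ' - T.τ := by
    change (3 + T.τ') - (1 + T.τ) = _
    ring
  rw [h]
  unfold rhoval
  simp only [Finset.mul_sum, Finset.sum_mul]
  rw [map_sum]
  refine Finset.sum_eq_zero fun r _ => ?_
  have e : T.x ^ i * T.τ ^ j * ((2 + T.τ' - T.τ) * (T.τ ^ (r : ℕ) *
      M.rval T.x T.y T.lt (M.num.symm r) * T.τ' ^ (M.S - 1 - r))) * (T.s * (T.y ^ k * T.τ' ^ l)) =
      T.x ^ i * T.τ ^ j * (T.τ ^ (r : ℕ) *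
      M.rval T.x T.y T.lt (M.num.symm r) * T.τ' ^ (M.S - 1 - r)) * (T.s * (T.y ^ k * T.τ' ^ l)) +
      T.x ^ i * T.τ ^ j * (T.τ ^ (r : ℕ) *
      M.rval T.x T.y T.lt (M.num.symm r) * T.τ' ^ (M.S - 1 - r)) * (T.s * (T.y ^ k * T.τ' ^ l)) +
      T.x ^ i * T.τ ^ j * (T.τ ^ (r : ℕ) *
      M.rval T.x T.y T.lt (M.num.symm r) * T.τ' ^ (M.S - 1 - r)) *
        (T.s * (T.y ^ k * T.τ' ^ (l + 1))) -
      T.x ^ i * T.τ ^ (j + 1) * (T.τ ^ (r : ℕ) *
      M.rval T.x T.y T.lt (M.num.symm r) * T.τ' ^ (M.S - 1 - r)) * (T.s * (T.y ^ k * T.τ' ^ l)) := by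
    ring
  rw [e, map_sub, map_add, map_add, T1_aux, T1_aux, T1_aux]
  simp

theorem T1 {r c : C} (hr : r ∈ T.PX ⊔ T.sC) (hc : c ∈ T.SY) :
    T.θ (r * ((ζ T.τ T.τ' 3 - ζ T.τ T.τ' 1) * M.rhoval T.x T.y T.τ T.τ' T.lt) * c) = 0 := by
  set R := (ζ T.τ T.τ' 3 - ζ T.τ T.τ' 1) * M.rhoval T.x T.y T.τ T.τ' T.lt with hR
  have h1 : ∀ r ∈ T.PX, ∀ c ∈ T.SY, T.θ (r * R * c) = 0 := by
    intro r hr c hc
    have h2 : ∀ k l, T.θ (r * R * (T.s * (T.y ^ k * T.τ' ^ l))) = 0 := by
      intro k l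
      have := span_lin (T.θ ∘ₗ LinearMap.mulRight F (R * (T.s * (T.y ^ k * T.τ' ^ l)))) (c := r) ?_ hr
      · rw [LinearMap.comp_apply, LinearMap.mulRight_apply] at this
        rwa [mul_assoc]
      · rintro c ⟨i, j, rfl⟩
        rw [LinearMap.comp_apply, LinearMap.mulRight_apply, ← mul_assoc]
        exact T.T1_mono i j k l
    have := span_lin (T.θ ∘ₗ LinearMap.mulLeft F (r * R)) (c := c) ?_ hc
    · rwa [LinearMap.comp_apply, LinearMap.mulLeft_apply] at this
    · rintro c ⟨k, l, rfl⟩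
      rw [LinearMap.comp_apply, LinearMap.mulLeft_apply]
      exact h2 k l
  obtain ⟨a, ha, b, hb, rfl⟩ := Submodule.mem_sup.mp hr
  obtain ⟨b', rfl⟩ := T.mem_sC.mp hb
  obtain ⟨c', rfl⟩ := T.mem_sC.mp (T.SY_le hc)
  have e : (a + T.s * b') * R * (T.s * c') = a * R * (T.s * c') + (T.s * T.s) * (b' * R * c') := by
    ring
  rw [e, T.hs, zero_mul, add_zero]
  exact h1 a ha _ hc

theorem T2 {r c : C} (hr : r ∈ T.K1 ⊔ T.sC) (hc : c ∈ T.RY) :
    T.θ (r * (2 * (T.τ ^ (M.S - 1) * (T.lt M.gu - T.lt M.gu'))) * c) = 0 := by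
  set R := (T.τ ^ (M.S - 1) * (T.lt M.gu - T.lt M.gu')) with hR
  have h1 : ∀ c ∈ T.RY, T.θ (R * c) = 0 := by
    intro c hc
    have := span_lin (T.θ ∘ₗ LinearMap.mulLeft F R) (c := c) ?_ hc
    · rwa [LinearMap.comp_apply, LinearMap.mulLeft_apply] at this
    · rintro c ⟨k, l, m, hm, rfl⟩
      rw [LinearMap.comp_apply, LinearMap.mulLeft_apply, hR]
      have := T.hleft k l m hm
      rw [← this]
      congr 1
      ring
  obtain ⟨a, ha, b, hb, rfl⟩ := Submodule.mem_sup.mp hr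
  obtain ⟨b', rfl⟩ := T.mem_sC.mp hb
  obtain ⟨c', rfl⟩ := T.mem_sC.mp (T.RY_le hc)
  obtain ⟨k, rfl⟩ := Submodule.mem_span_singleton.mp ha
  have e : (k • (1 : C) + T.s * b') * (2 * R) * (T.s * c') =
      k • (R * (T.s * c')) + k • (R * (T.s * c')) + (T.s * T.s) * (b' * (2 * R) * c') := by
    rw [add_mul, add_mul, smul_mul_assoc, smul_mul_assoc, ← smul_add]
    congr 1
    · congr 1
      ring
    · ring
  rw [e, T.hs, zero_mul, add_zero, map_add, map_smul, h1 _ hc]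
  simp

theorem T3 {r c : C} (hr : r ∈ T.LX ⊔ T.sC) (hc : c ∈ T.K1 ⊔ T.sC) :
    T.θ (r * (2 * ((T.lt M.gw - T.lt M.gw') * T.τ' ^ (M.S - 1) * T.s)) * c) = 0 := by
  set R := ((T.lt M.gw - T.lt M.gw') * T.τ' ^ (M.S - 1)) with hR
  have h1 : ∀ r ∈ T.LX, T.θ (r * (R * T.s)) = 0 := by
    intro r hr
    have := span_lin (T.θ ∘ₗ LinearMap.mulRight F (R * T.s)) (c := r) ?_ hr
    · rwa [LinearMap.comp_apply, LinearMap.mulRight_apply] at this
    · rintro c ⟨k, l, m, hm, rfl⟩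
      rw [LinearMap.comp_apply, LinearMap.mulRight_apply, hR]
      have := T.hright k l m hm
      rw [← this]
      congr 1
      ring
  obtain ⟨a, ha, b, hb, rfl⟩ := Submodule.mem_sup.mp hr
  obtain ⟨b', rfl⟩ := T.mem_sC.mp hb
  obtain ⟨c1, hc1, c2, hc2, rfl⟩ := Submodule.mem_sup.mp hc
  obtain ⟨c', rfl⟩ := T.mem_sC.mp hc2
  obtain ⟨k, rfl⟩ := Submodule.mem_span_singleton.mp hc1
  have e : (a + T.s * b') * (2 * (R * T.s)) * (k • (1 : C) + T.s * c') =
      k • (a * (R * T.s)) + k • (a * (R * T.s)) +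
        (T.s * T.s) * (k • (b' * (2 * R)) + (a + T.s * b') * (2 * R) * c') := by
    rw [mul_add ((a + T.s * b') * (2 * (R * T.s))), mul_smul_comm, mul_one]
    have : T.s * T.s * (k • (b' * (2 * R)) + (a + T.s * b') * (2 * R) * c') =
      k • (T.s * T.s * (b' * (2 * R))) + T.s * T.s * ((a + T.s * b') * (2 * R) * c') := by
      rw [mul_add, mul_smul_comm]
    rw [this, ← add_assoc, ← smul_add, ← smul_add]
    congr 1
    · congr 1
      ring
    · ring
  rw [e, T.hs, zero_mul, add_zero, map_add, map_smul, h1 _ ha]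
  simp

theorem entry00 (P R : Matrix (Fin 4) (Fin 4) C) (c1 c2 c3 : C) :
    (P * (single 1 3 c1 + single 0 2 c2 - single 2 0 c3) * R : Matrix (Fin 4) (Fin 4) C) 0 0 =
      P 0 1 * c1 * R 3 0 + P 0 0 * c2 * R 2 0 - P 0 2 * c3 * R 0 0 := by
  rw [mul_sub, mul_add, sub_mul, add_mul, Matrix.sub_apply, Matrix.add_apply]
  have h : ∀ (i j : Fin 4) (c : C),
      (P * single i j c * R : Matrix (Fin 4) (Fin 4) C) 0 0 = P 0 i * c * R j 0 := by
    intro i j c
    rw [Matrix.mul_apply, Finset.sum_eq_single j]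
    · rw [Matrix.mul_single_apply_same]
    · intro b _ hb
      rw [Matrix.mul_single_apply_of_ne _ _ _ _ _ hb, zero_mul]
    · intro h; exact absurd (Finset.mem_univ _) h
  rw [h, h, h]

/-- the relator in the free algebra -/
noncomputable def frel (M : Mach) (F : Type*) [Field F] (D : ℕ) (E : Fin 4 → Polynomial ℤ) :
    FreeAlgebra F M.Gen :=
  M.relator (FreeAlgebra.ι F) (idem F D E (FreeAlgebra.ι F M.gz))

/-- the test element in the free algebra -/
noncomputable def ftest (M : Mach) (F : Type*) [Field F] (D : ℕ) (E : Fin 4 → Polynomial ℤ)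
    (N : ℕ) : FreeAlgebra F M.Gen :=
  M.test (FreeAlgebra.ι F) (idem F D E (FreeAlgebra.ι F M.gz)) N

theorem φ_idem [CharZero F] (K D : ℕ) (hK : 0 < K) (hD : D ≠ 0) (E : Fin 4 → Polynomial ℤ)
    (hE : ∀ i k : Fin 4, Pp F M.S k ^ K ∣
      (E i).map (Int.castRingHom F) - Polynomial.C (if i = k then (D : F) else 0)) (i : Fin 4) :
    T.φ (idem F D E (FreeAlgebra.ι F M.gz) i) = E4 i := by
  rw [map_idem, φ, FreeAlgebra.lift_ι_apply]
  have := idem_mat M.S K D hK hD E hE T.τ T.τ' T.hτ T.hτ'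
  exact congrFun this i

theorem φ_frel [CharZero F] (K D : ℕ) (hK : 0 < K) (hD : D ≠ 0) (E : Fin 4 → Polynomial ℤ)
    (hE : ∀ i k : Fin 4, Pp F M.S k ^ K ∣
      (E i).map (Int.castRingHom F) - Polynomial.C (if i = k then (D : F) else 0))
    (a b : FreeAlgebra F M.Gen) : T.θ (T.φ (a * frel M F D E * b) 0 0) = 0 := by
  have h1 : T.φ (frel M F D E) = M.relator T.mt E4 := by
    unfold frel
    have := map_relator M T.φ.toRingHom (FreeAlgebra.ι F) (idem F D E (FreeAlgebra.ι F M.gz))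
    change T.φ _ = _ at this
    rw [this]
    congr 1
    · funext g
      change FreeAlgebra.lift F T.mt (FreeAlgebra.ι F g) = _
      rw [FreeAlgebra.lift_ι_apply]
    · funext i
      exact T.φ_idem K D hK hD E hE i
  rw [map_mul, map_mul, h1, mt, relator_mat _ _ _ _ _ _ _ T.hτ T.hτ', entry00, map_sub, map_add]
  have e0 : T.rowOK (Pi.single 0 1) := by
    refine ⟨?_, ?_, ?_⟩
    · rw [Pi.single_eq_same]; exact Submodule.mem_sup_left (Submodule.subset_span rfl)
    · rw [Pi.single_eq_of_ne (by decide)]; exact Submodule.zero_mem _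
    · rw [Pi.single_eq_of_ne (by decide)]; exact Submodule.zero_mem _
  have e1 : T.colOK (Pi.single 0 1) := by
    refine ⟨?_, ?_, ?_, ?_⟩
    · rw [Pi.single_eq_same]; exact Submodule.mem_sup_left (Submodule.subset_span rfl)
    · rw [Pi.single_eq_of_ne (by decide)]; exact Submodule.zero_mem _
    · rw [Pi.single_eq_of_ne (by decide)]; exact Submodule.zero_mem _
    · rw [Pi.single_eq_of_ne (by decide)]; exact Submodule.zero_mem _
  have h2 := T.rowOK_φ a _ e0
  have h3 := T.colOK_φ b _ e1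
  have h4 : ∀ j, (Pi.single 0 1 ᵥ* T.φ a) j = T.φ a 0 j := by
    intro j; rw [Matrix.single_one_vecMul]; rfl
  have h5 : ∀ j, (T.φ b *ᵥ Pi.single 0 1) j = T.φ b j 0 := by
    intro j; rw [Matrix.mulVec_single_one]; rfl
  unfold rowOK at h2
  unfold colOK at h3
  rw [h4, h4, h4] at h2
  rw [h5, h5, h5, h5] at h3
  rw [T.T1 h2.2.1 h3.2.2.2, T.T2 h2.1 h3.2.2.1, T.T3 h2.2.2 h3.1]
  simp

/-- the ideal given by the functional -/
noncomputable def J : TwoSidedIdeal (FreeAlgebra F M.Gen) :=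
  TwoSidedIdeal.mk' {g | ∀ a b, T.θ (T.φ (a * g * b) 0 0) = 0}
    (by intro a b; simp)
    (by
      intro x y hx hy a b
      rw [mul_add, add_mul, map_add, Matrix.add_apply, map_add, hx, hy, add_zero])
    (by
      intro x hx a b
      rw [mul_neg, neg_mul, map_neg, Matrix.neg_apply, map_neg, hx, neg_zero])
    (by
      intro x y hy a b
      rw [show a * (x * y) * b = (a * x) * y * b by rw [mul_assoc a x y]]
      exact hy _ _)
    (by
      intro x y hx a b
      rw [show a * (x * y) * b = a * x * (y * b) by simp only [mul_assoc]]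
      exact hx _ _)

theorem mem_J (g : FreeAlgebra F M.Gen) : g ∈ T.J ↔ ∀ a b, T.θ (T.φ (a * g * b) 0 0) = 0 := by
  unfold J
  rw [TwoSidedIdeal.mem_mk']
  rfl

theorem test_not_mem [CharZero F] (K D : ℕ) (hK : 0 < K) (hD : D ≠ 0) (E : Fin 4 → Polynomial ℤ)
    (hE : ∀ i k : Fin 4, Pp F M.S k ^ K ∣
      (E i).map (Int.castRingHom F) - Polynomial.C (if i = k then (D : F) else 0))
    (I : Set (FreeAlgebra F M.Gen)) (hI : ∀ g ∈ I, T.φ g = 0) (N : ℕ)
    (hN : T.θ (T.τ ^ (M.S - 1) * T.lt (M.gγ M.q0) * T.τ' ^ (M.S - 1) * T.y ^ N * T.s) ≠ 0) :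
    ftest M F D E N ∉ TwoSidedIdeal.span (I ∪ {frel M F D E}) := by
  intro h
  have h1 : TwoSidedIdeal.span (I ∪ {frel M F D E}) ≤ T.J := by
    rw [TwoSidedIdeal.span_le]
    rintro g (hg | hg)
    · change g ∈ T.J
      rw [mem_J]
      intro a b
      rw [map_mul, map_mul, hI g hg]
      simp
    · rw [Set.mem_singleton_iff] at hg
      subst hg
      change frel M F D E ∈ T.J
      rw [mem_J]
      exact T.φ_frel K D hK hD E hE
  have h2 := (T.mem_J _).mp (h1 h) 1 1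
  rw [one_mul, mul_one] at h2
  have h3 : T.φ (ftest M F D E N) = M.test T.mt E4 N := by
    unfold ftest
    have := map_test M T.φ.toRingHom (FreeAlgebra.ι F) (idem F D E (FreeAlgebra.ι F M.gz)) N
    change T.φ _ = _ at this
    rw [this]
    congr 1
    · funext g
      change FreeAlgebra.lift F T.mt (FreeAlgebra.ι F g) = _
      rw [FreeAlgebra.lift_ι_apply]
    · funext i
      exact T.φ_idem K D hK hD E hE i
  rw [h3, mt, test_mat, Matrix.single_apply_same] at h2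
  exact hN h2

end TestData

end Mach

end Pool.Agent.H.MP_7596fa_lc
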